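import Pool.Agent.W476.Rank

/-!
The beta invariant: deletion-contraction, and vanishing for disconnected matroids.
-/

set_option autoImplicit false

namespace Pool.Agent.W476

open Finset

variable {k : Type*} [Field k] {E : Type*} [Fintype E] [DecidableEq E]

/-- beta invariant of the matroid of `L` -/
noncomputable def beta (L : Submodule k (E → k)) : ℤ :=
  (-1) ^ (Module.finrank k L) * ∑ S : Finset E, (-1) ^ S.card * (rk L S : ℤ)

theorem sum_split (e : E) (f : Finset E → ℤ) :
    ∑ S : Finset E, f S = ∑ S : Finset {i : E // i ≠ e}, (f (up e S) + f (insert e (up e S))) := by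
  have h0 : (Finset.univ : Finset (Finset E)) = (insert e (Finset.univ.erase e)).powerset := by
    rw [Finset.insert_erase (Finset.mem_univ e), Finset.powerset_univ]
  rw [h0, Finset.sum_powerset_insert (Finset.notMem_erase e _), ← Finset.sum_add_distrib]
  symm
  apply Finset.sum_bij (fun S _ => up e S)
  · intro S _
    rw [Finset.mem_powerset]
    intro i hi
    rw [mem_up] at hi
    obtain ⟨hi, _⟩ := hi
    simp [hi]
  · intro S _ T _ h
    exact Finset.map_injective _ h
  · intro T hT
    rw [Finset.mem_powerset] at hT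
    refine ⟨Finset.univ.filter (fun i => i.1 ∈ T), Finset.mem_univ _, ?_⟩
    ext i
    rw [mem_up]
    constructor
    · rintro ⟨_, h⟩
      simpa using h
    · intro h
      have h1 := hT h
      simp only [Finset.mem_erase, Finset.mem_univ, and_true] at h1
      exact ⟨h1, by simpa using h⟩
  · intro S _
    rfl

theorem card_up (e : E) (S : Finset {i : E // i ≠ e}) : (up e S).card = S.card :=
  Finset.card_map _

theorem card_insert_up (e : E) (S : Finset {i : E // i ≠ e}) :
    (insert e (up e S)).card = S.card + 1 := by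
  rw [Finset.card_insert_of_notMem not_mem_up, card_up]

theorem sum_alt_zero (e : E) (g : Finset E → ℤ) (hg : ∀ S, g (insert e S) = g S) :
    ∑ S : Finset E, (-1) ^ S.card * g S = 0 := by
  rw [sum_split e]
  apply Finset.sum_eq_zero
  intro S _
  rw [card_up, card_insert_up, hg]
  ring

theorem beta_rec {L : Submodule k (E → k)} {e : E} (h1 : ¬ IsLoop L e) (h2 : ¬ IsColoop L e)
    (hE : 2 ≤ Fintype.card E) : beta L = beta (del L e) + beta (con L e) := by
  unfold beta
  rw [sum_split e, finrank_del h2]
  have h3 := finrank_con h1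
  have h4 : ((-1 : ℤ)) ^ (Module.finrank k (con L e)) = - (-1) ^ (Module.finrank k L) := by
    rw [← h3, pow_succ]; ring
  rw [h4]
  have h5 : ∑ S : Finset {i : E // i ≠ e}, (-1 : ℤ) ^ S.card * 1 = 0 := by
    have : 0 < Fintype.card {i : E // i ≠ e} := by
      simp only [ne_eq, Fintype.card_subtype_compl, Fintype.card_unique]
      omega
    obtain ⟨j⟩ := Fintype.card_pos_iff.mp this
    exact sum_alt_zero j (fun _ => 1) (fun _ => rfl)
  have h6 : ∀ S : Finset {i : E // i ≠ e},
      ((-1 : ℤ) ^ (up e S).card * (rk L (up e S) : ℤ) +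
        (-1) ^ (insert e (up e S)).card * (rk L (insert e (up e S)) : ℤ)) =
      (-1) ^ S.card * (rk (del L e) S : ℤ) - (-1) ^ S.card * (rk (con L e) S : ℤ)
        - (-1) ^ S.card * 1 := by
    intro S
    rw [card_up, card_insert_up, rk_del h2, ← rk_con h1]
    push_cast
    ring
  simp only [h6, Finset.sum_sub_distrib, h5]
  ring

theorem beta_eq_zero {L : Submodule k (E → k)} (h : ¬ Good L) : beta L = 0 := by
  unfold beta
  apply mul_eq_zero_of_right
  by_cases hL : L = ⊥
  · apply Finset.sum_eq_zero
    intro S _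
    have := rk_le L S
    rw [hL, finrank_bot] at this
    have h0 : rk L S = 0 := by rw [hL]; omega
    rw [h0]; simp
  · have hc : ¬ Conn L := fun hc => h ⟨hc, hL⟩
    unfold Conn at hc
    push Not at hc
    obtain ⟨S, hS, hS', hr⟩ := hc
    have key : ∀ T, rk L T = rk L (T ∩ S) + rk L (T ∩ Sᶜ) := by
      intro T
      apply le_antisymm
      · have := rk_submod L (T ∩ S) (T ∩ Sᶜ)
        rw [← Finset.inter_union_distrib_left, Finset.union_compl, Finset.inter_univ] at this
        omega
      · have a1 := rk_submod L T S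
        have a2 := rk_submod L (T ∪ S) Sᶜ
        have a3 : (T ∪ S) ∩ Sᶜ = T ∩ Sᶜ := by
          rw [Finset.union_inter_distrib_right, Finset.inter_compl, Finset.union_empty]
        have a4 : (T ∪ S) ∪ Sᶜ = Finset.univ := by
          rw [Finset.union_assoc, Finset.union_compl]
          simp
        rw [a3, a4, rk_univ] at a2
        omega
    have h1 : ∑ T : Finset E, (-1) ^ T.card * (rk L (T ∩ S) : ℤ) = 0 := by
      obtain ⟨j, hj⟩ := hS'
      apply sum_alt_zero j (fun T => (rk L (T ∩ S) : ℤ))
      intro T
      rw [Finset.insert_inter_of_notMem (by simpa using hj)]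
    have h2 : ∑ T : Finset E, (-1) ^ T.card * (rk L (T ∩ Sᶜ) : ℤ) = 0 := by
      obtain ⟨j, hj⟩ := hS
      apply sum_alt_zero j (fun T => (rk L (T ∩ Sᶜ) : ℤ))
      intro T
      rw [Finset.insert_inter_of_notMem (by simpa using hj)]
    have h3 : ∀ T : Finset E, (-1 : ℤ) ^ T.card * (rk L T : ℤ) =
        (-1) ^ T.card * (rk L (T ∩ S) : ℤ) + (-1) ^ T.card * (rk L (T ∩ Sᶜ) : ℤ) := by
      intro T
      rw [key T]; push_cast; ring
    simp only [h3, Finset.sum_add_distrib, h1, h2, add_zero]

end Pool.Agent.W476
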