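import Pool.Agent.W476.Minor

/-!
Rank function of the matroid represented by a subspace, connectedness, and Tutte's lemma:
a connected matroid stays connected after deleting or after contracting an element.
-/

set_option autoImplicit false

namespace Pool.Agent.W476

open Finset

variable {k : Type*} [Field k] {E : Type*} [Fintype E]

/-- vectors of `L` vanishing on `S` -/
def KL (L : Submodule k (E → k)) (S : Finset E) : Submodule k (E → k) :=
  L ⊓ vanOff k (fun i => i ∉ S)

omit [Fintype E] in
theorem mem_KL {L : Submodule k (E → k)} {S : Finset E} {z : E → k} :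
    z ∈ KL L S ↔ z ∈ L ∧ ∀ i ∈ S, z i = 0 := by
  unfold KL
  rw [Submodule.mem_inf, mem_vanOff]
  simp

/-- rank of `S`: dimension of the restriction of `L` to `S` -/
noncomputable def rk (L : Submodule k (E → k)) (S : Finset E) : ℕ :=
  Module.finrank k (Lres (fun i => i ∈ S) L)

theorem rk_add (L : Submodule k (E → k)) (S : Finset E) :
    rk L S + Module.finrank k (KL L S) = Module.finrank k L := by
  let f := (resP k (fun i => i ∈ S)).domRestrict L
  have h1 : Lres (fun i => i ∈ S) L = LinearMap.range f := by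
    ext w
    simp [Lres, f, Submodule.mem_map]
  have h2 : KL L S = (LinearMap.ker f).map L.subtype := by
    ext z
    rw [mem_KL]
    constructor
    · rintro ⟨hz, h0⟩
      refine ⟨⟨z, hz⟩, ?_, rfl⟩
      simp only [SetLike.mem_coe, LinearMap.mem_ker]
      ext i
      exact h0 i.1 i.2
    · rintro ⟨⟨w, hw⟩, h0, rfl⟩
      refine ⟨hw, fun i hi => ?_⟩
      exact congrFun h0 ⟨i, hi⟩
  unfold rk
  rw [h1, h2, Submodule.finrank_map_subtype_eq]
  exact LinearMap.finrank_range_add_finrank_ker f

theorem rk_le (L : Submodule k (E → k)) (S : Finset E) : rk L S ≤ Module.finrank k L := by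
  have := rk_add L S
  omega

omit [Fintype E] in
theorem rk_le_card (L : Submodule k (E → k)) (S : Finset E) : rk L S ≤ S.card := by
  unfold rk
  refine (Submodule.finrank_le _).trans ?_
  simp

theorem rk_mono (L : Submodule k (E → k)) {S T : Finset E} (h : S ⊆ T) : rk L S ≤ rk L T := by
  have h1 := rk_add L S
  have h2 := rk_add L T
  have h3 : KL L T ≤ KL L S := by
    intro z hz
    rw [mem_KL] at hz ⊢
    exact ⟨hz.1, fun i hi => hz.2 i (h hi)⟩
  have h4 := Submodule.finrank_mono h3
  omega

theorem rk_submod [DecidableEq E] (L : Submodule k (E → k)) (S T : Finset E) :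
    rk L (S ∩ T) + rk L (S ∪ T) ≤ rk L S + rk L T := by
  have h1 := rk_add L S
  have h2 := rk_add L T
  have h3 := rk_add L (S ∩ T)
  have h4 := rk_add L (S ∪ T)
  have h5 := Submodule.finrank_sup_add_finrank_inf_eq (KL L S) (KL L T)
  have h6 : KL L S ⊓ KL L T = KL L (S ∪ T) := by
    ext z
    simp only [Submodule.mem_inf, mem_KL, Finset.mem_union]
    constructor
    · rintro ⟨⟨a, b⟩, _, c⟩
      exact ⟨a, fun i hi => hi.elim (b i) (c i)⟩
    · rintro ⟨a, b⟩
      exact ⟨⟨a, fun i hi => b i (Or.inl hi)⟩, a, fun i hi => b i (Or.inr hi)⟩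
  have h7 : KL L S ⊔ KL L T ≤ KL L (S ∩ T) := by
    apply sup_le
    · intro z hz
      rw [mem_KL] at hz ⊢
      exact ⟨hz.1, fun i hi => hz.2 i (Finset.mem_inter.mp hi).1⟩
    · intro z hz
      rw [mem_KL] at hz ⊢
      exact ⟨hz.1, fun i hi => hz.2 i (Finset.mem_inter.mp hi).2⟩
  have h8 := Submodule.finrank_mono h7
  rw [h6] at h5
  omega

theorem rk_univ (L : Submodule k (E → k)) : rk L Finset.univ = Module.finrank k L := by
  have h1 := rk_add L Finset.univ
  have h2 : KL L Finset.univ = ⊥ := by
    rw [eq_bot_iff]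
    intro z hz
    rw [mem_KL] at hz
    rw [Submodule.mem_bot]
    ext i
    exact hz.2 i (Finset.mem_univ i)
  rw [h2, finrank_bot] at h1
  omega

variable [DecidableEq E]

/-- The matroid of `L` has no separation. -/
def Conn (L : Submodule k (E → k)) : Prop :=
  ∀ S : Finset E, S.Nonempty → Sᶜ.Nonempty → Module.finrank k L < rk L S + rk L Sᶜ

/-- connected, and not a single loop -/
def Good (L : Submodule k (E → k)) : Prop := Conn L ∧ L ≠ ⊥

omit [DecidableEq E] in
theorem rk_singleton_of_loop {L : Submodule k (E → k)} {e : E} (h : IsLoop L e) :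
    rk L {e} = 0 := by
  have h1 := rk_add L {e}
  have h2 : KL L {e} = L := by
    ext z
    rw [mem_KL]
    constructor
    · exact fun h => h.1
    · intro hz
      refine ⟨hz, fun i hi => ?_⟩
      rw [Finset.mem_singleton] at hi
      rw [hi]; exact h z hz
  rw [h2] at h1
  omega

omit [DecidableEq E] in
theorem rk_singleton_of_not_loop {L : Submodule k (E → k)} {e : E} (h : ¬ IsLoop L e) :
    0 < rk L {e} := by
  rw [Nat.pos_iff_ne_zero]
  intro h0
  apply h
  have h1 := rk_add L {e}
  rw [h0, zero_add] at h1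
  have h2 : KL L {e} = L := by
    apply Submodule.eq_of_le_of_finrank_eq
    · intro z hz
      rw [mem_KL] at hz
      exact hz.1
    · exact h1
  intro z hz
  rw [← h2, mem_KL] at hz
  exact hz.2 e (by simp)

theorem Good.not_loop {L : Submodule k (E → k)} (h : Good L) (e : E) : ¬ IsLoop L e := by
  intro hl
  by_cases hc : ({e} : Finset E)ᶜ.Nonempty
  · have h1 := h.1 {e} (by simp) hc
    rw [rk_singleton_of_loop hl] at h1
    have := rk_le L ({e} : Finset E)ᶜ
    omega
  · rw [Finset.not_nonempty_iff_eq_empty] at hc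
    apply h.2
    rw [eq_bot_iff]
    intro z hz
    rw [Submodule.mem_bot]
    ext i
    have hi : i = e := by
      by_contra hne
      have : i ∈ ({e} : Finset E)ᶜ := by simp [hne]
      rw [hc] at this
      simp at this
    rw [hi]
    exact hl z hz

theorem Good.not_coloop {L : Submodule k (E → k)} (h : Good L) (hE : 2 ≤ Fintype.card E)
    (e : E) : ¬ IsColoop L e := by
  intro hl
  have hc : ({e} : Finset E)ᶜ.Nonempty := by
    rw [← Finset.card_pos, Finset.card_compl, Finset.card_singleton]
    omega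
  have h1 := h.1 {e} (by simp) hc
  have h2 := rk_le_card L {e}
  rw [Finset.card_singleton] at h2
  have h3 := rk_add L ({e} : Finset E)ᶜ
  have h4 : 0 < Module.finrank k (KL L ({e} : Finset E)ᶜ) := by
    rw [Nat.pos_iff_ne_zero]
    intro h0
    rw [Submodule.finrank_eq_zero] at h0
    have h5 : (Pi.single e 1 : E → k) ∈ KL L ({e} : Finset E)ᶜ := by
      rw [mem_KL]
      refine ⟨hl, fun i hi => ?_⟩
      have : i ≠ e := by simpa using hi
      simp [this]
    rw [h0, Submodule.mem_bot] at h5
    have := congrFun h5 e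
    simp at this
  omega

/-- image of a finset of `{i // i ≠ e}` -/
def up (e : E) (S : Finset {i : E // i ≠ e}) : Finset E := S.map (Function.Embedding.subtype _)

omit [Fintype E] in
theorem mem_up {e : E} {S : Finset {i : E // i ≠ e}} {i : E} :
    i ∈ up e S ↔ ∃ h : i ≠ e, (⟨i, h⟩ : {i : E // i ≠ e}) ∈ S := by
  simp [up]

omit [Fintype E] in
theorem not_mem_up {e : E} {S : Finset {i : E // i ≠ e}} : e ∉ up e S := by
  simp [up]

theorem finrank_KL_del {L : Submodule k (E → k)} {e : E} (h : ¬ IsColoop L e)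
    (S : Finset {i : E // i ≠ e}) :
    Module.finrank k (KL (del L e) S) = Module.finrank k (KL L (up e S)) := by
  have h1 : KL (del L e) S = (KL L (up e S)).map (resP k (fun i => i ≠ e)) := by
    ext w
    rw [mem_KL]
    constructor
    · rintro ⟨⟨z, hz, rfl⟩, h0⟩
      refine ⟨z, ?_, rfl⟩
      rw [SetLike.mem_coe, mem_KL]
      refine ⟨hz, fun i hi => ?_⟩
      rw [mem_up] at hi
      obtain ⟨hi, hi2⟩ := hi
      exact h0 ⟨i, hi⟩ hi2
    · rintro ⟨z, hz, rfl⟩
      rw [SetLike.mem_coe, mem_KL] at hz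
      refine ⟨⟨z, hz.1, rfl⟩, fun i hi => ?_⟩
      exact hz.2 i.1 (mem_up.mpr ⟨i.2, hi⟩)
  rw [h1]
  apply finrank_map_of_inj
  intro z hz h0
  rw [mem_KL] at hz
  exact res_injOn_of_not_coloop h hz.1 h0

theorem finrank_KL_con {L : Submodule k (E → k)} {e : E}
    (S : Finset {i : E // i ≠ e}) :
    Module.finrank k (KL (con L e) S) = Module.finrank k (KL L (insert e (up e S))) := by
  have h1 : KL (con L e) S = (KL L (insert e (up e S))).map (resP k (fun i => i ≠ e)) := by
    ext w
    rw [mem_KL]
    constructor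
    · rintro ⟨⟨z, ⟨hz, hz2⟩, rfl⟩, h0⟩
      refine ⟨z, ?_, rfl⟩
      rw [SetLike.mem_coe, mem_KL]
      refine ⟨hz, fun i hi => ?_⟩
      rw [Finset.mem_insert] at hi
      rcases hi with rfl | hi
      · exact hz2 i (by simp)
      · rw [mem_up] at hi
        obtain ⟨hi, hi2⟩ := hi
        exact h0 ⟨i, hi⟩ hi2
    · rintro ⟨z, hz, rfl⟩
      rw [SetLike.mem_coe, mem_KL] at hz
      refine ⟨⟨z, ⟨hz.1, fun i hi => ?_⟩, rfl⟩, fun i hi => ?_⟩
      · rw [not_not] at hi
        exact hz.2 i (by simp [hi])
      · exact hz.2 i.1 (Finset.mem_insert_of_mem (mem_up.mpr ⟨i.2, hi⟩))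
  rw [h1]
  apply finrank_map_of_inj
  intro z hz h0
  rw [mem_KL] at hz
  ext i
  by_cases hi : i = e
  · exact hz.2 i (by simp [hi])
  · exact congrFun h0 ⟨i, hi⟩

theorem rk_del {L : Submodule k (E → k)} {e : E} (h : ¬ IsColoop L e)
    (S : Finset {i : E // i ≠ e}) : rk (del L e) S = rk L (up e S) := by
  have h1 := rk_add (del L e) S
  have h2 := rk_add L (up e S)
  rw [finrank_KL_del h, finrank_del h] at h1
  omega

theorem rk_con {L : Submodule k (E → k)} {e : E} (h : ¬ IsLoop L e)
    (S : Finset {i : E // i ≠ e}) : rk (con L e) S + 1 = rk L (insert e (up e S)) := by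
  have h1 := rk_add (con L e) S
  have h2 := rk_add L (insert e (up e S))
  have h3 := finrank_con h
  rw [finrank_KL_con] at h1
  omega

theorem compl_up {e : E} (S : Finset {i : E // i ≠ e}) : (up e S)ᶜ = insert e (up e Sᶜ) := by
  ext i
  rw [Finset.mem_compl, Finset.mem_insert, mem_up, mem_up]
  by_cases hi : i = e
  · simp [hi]
  · simp [hi]

/-- Tutte's lemma -/
theorem Good.del_or_con {L : Submodule k (E → k)} (h : Good L) (hE : 2 ≤ Fintype.card E)
    (e : E) : Good (del L e) ∨ Good (con L e) := by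
  by_contra hcon
  rw [not_or] at hcon
  obtain ⟨hd, hc⟩ := hcon
  have hnl := h.not_loop
  have hnc := h.not_coloop hE
  have hLpos : 0 < Module.finrank k L := by
    rw [Nat.pos_iff_ne_zero]
    intro h0
    rw [Submodule.finrank_eq_zero] at h0
    exact h.2 h0
  have hfd := finrank_del (hnc e)
  have hfc := finrank_con (hnl e)
  -- separation of the deletion
  obtain ⟨A, hA, hA', hAr⟩ : ∃ A : Finset {i : E // i ≠ e}, A.Nonempty ∧ Aᶜ.Nonempty ∧
      rk L (up e A) + rk L (up e Aᶜ) ≤ Module.finrank k L := by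
    by_contra hno
    push Not at hno
    apply hd
    refine ⟨fun S hS hS' => ?_, ?_⟩
    · have := hno S hS hS'
      rw [rk_del (hnc e), rk_del (hnc e), hfd]
      exact this
    · intro h0
      rw [h0, finrank_bot] at hfd
      omega
  have hsub : ∀ X Y : Finset {i : E // i ≠ e},
      rk L (up e (X ∩ Y)) + rk L (insert e (up e (X ∪ Y))) ≤
        rk L (up e X) + rk L (insert e (up e Y)) := by
    intro X Y
    have := rk_submod L (up e X) (insert e (up e Y))
    have h1 : up e X ∩ insert e (up e Y) = up e (X ∩ Y) := by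
      ext i
      simp only [Finset.mem_inter, Finset.mem_insert, mem_up]
      by_cases hi : i = e
      · simp [hi]
      · simp [hi]
    have h2 : up e X ∪ insert e (up e Y) = insert e (up e (X ∪ Y)) := by
      ext i
      simp only [Finset.mem_union, Finset.mem_insert, mem_up]
      by_cases hi : i = e
      · simp [hi]
      · simp [hi]
    rw [h1, h2] at this
    exact this
  have hco : ∀ X : Finset {i : E // i ≠ e}, X.Nonempty →
      Module.finrank k L < rk L (up e X) + rk L (insert e (up e Xᶜ)) := by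
    intro X hX
    have := h.1 (up e X) (by simpa [up] using hX) (by rw [compl_up]; simp)
    rw [compl_up] at this
    exact this
  have hge : ∀ X : Finset {i : E // i ≠ e}, X.Nonempty → 0 < rk L (up e X) := by
    rintro X ⟨i, hi⟩
    have h1 := rk_singleton_of_not_loop (hnl i.1)
    have h2 : ({i.1} : Finset E) ⊆ up e X := by
      intro j hj
      rw [Finset.mem_singleton] at hj
      rw [hj, mem_up]
      exact ⟨i.2, hi⟩
    have := rk_mono L h2
    omega
  obtain ⟨B, hB, hB', hBr⟩ : ∃ B : Finset {i : E // i ≠ e}, B.Nonempty ∧ Bᶜ.Nonempty ∧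
      rk L (insert e (up e B)) + rk L (insert e (up e Bᶜ)) ≤ Module.finrank k L + 1 := by
    by_contra hno
    push Not at hno
    apply hc
    refine ⟨fun S hS hS' => ?_, ?_⟩
    · have := hno S hS hS'
      have h1 := rk_con (hnl e) S
      have h2 := rk_con (hnl e) Sᶜ
      omega
    · intro h0
      rw [h0, finrank_bot] at hfc
      have h1 := hge A hA
      have h2 := hge Aᶜ hA'
      omega
  have key : ∀ C : Finset {i : E // i ≠ e},
      rk L (insert e (up e C)) + rk L (insert e (up e Cᶜ)) ≤ Module.finrank k L + 1 →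
      A ∩ C = ∅ ∨ Aᶜ ∩ Cᶜ = ∅ := by
    intro C hC
    by_contra hno
    rw [not_or] at hno
    have h1 := hco (A ∩ C) (Finset.nonempty_iff_ne_empty.mpr hno.1)
    have h2 := hco (Aᶜ ∩ Cᶜ) (Finset.nonempty_iff_ne_empty.mpr hno.2)
    have h3 := hsub A C
    have h4 := hsub Aᶜ Cᶜ
    rw [Finset.compl_inter] at h1 h2
    rw [compl_compl, compl_compl] at h2
    omega
  have k1 := key B hBr
  have k2 := key Bᶜ (by rw [compl_compl, add_comm]; exact hBr)
  rw [compl_compl] at k2
  have e1 : ∀ X Y : Finset {i : E // i ≠ e}, X ∩ Y = ∅ → X ∩ Yᶜ = ∅ → X = ∅ := by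
    intro X Y h1 h2
    have : X = (X ∩ Y) ∪ (X ∩ Yᶜ) := by
      rw [← Finset.inter_union_distrib_left, Finset.union_compl, Finset.inter_univ]
    rw [this, h1, h2, Finset.union_empty]
  rcases k1 with k1 | k1 <;> rcases k2 with k2 | k2
  · exact hA.ne_empty (e1 _ _ k1 k2)
  · rw [Finset.inter_comm] at k1 k2
    exact hB.ne_empty (e1 _ _ k1 k2)
  · rw [Finset.inter_comm] at k1 k2
    exact hB'.ne_empty (e1 Bᶜ A k2 k1)
  · exact hA'.ne_empty (e1 _ _ k2 k1)

end Pool.Agent.W476
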