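import Pool.Agent.W476.GRing
import Pool.Agent.W476.Rank

/-!
The generic products `x_i² y_i`, `i ≠ i₀`, are algebraically independent for a connected matroid.
-/

set_option autoImplicit false

namespace Pool.Agent.W476

open Finset MvPolynomial

universe u v

section sp

variable {k : Type*} [Field k] {σ : Type*} [DecidableEq σ]

/-- set the variable `e` equal to zero -/
noncomputable def sp (e : σ) : MvPolynomial σ k →ₐ[k] MvPolynomial {i // i ≠ e} k :=
  aeval (fun i => if h : i ≠ e then X ⟨i, h⟩ else 0)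

theorem sp_X_self (e : σ) : sp e (X e : MvPolynomial σ k) = 0 := by
  simp [sp]

theorem sp_X (e : σ) (j : {i // i ≠ e}) : sp e (X j.1 : MvPolynomial σ k) = X j := by
  simp [sp, j.2]

theorem sp_C (e : σ) (a : k) : sp e (C a : MvPolynomial σ k) = C a := by
  simp only [sp, algHom_C, algebraMap_eq]

theorem sp_eval {Ω : Type*} [CommRing Ω] {ρ : k →+* Ω} {w : σ → Ω} {e : σ} (hw : w e = 0)
    (Q : MvPolynomial σ k) :
    eval₂ ρ w Q = eval₂ ρ (fun j : {i // i ≠ e} => w j.1) (sp e Q) := by
  have h : eval₂Hom ρ w = (eval₂Hom ρ (fun j : {i // i ≠ e} => w j.1)).comp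
      (sp e : MvPolynomial σ k →ₐ[k] _).toRingHom := by
    apply MvPolynomial.ringHom_ext
    · intro a
      simp
    · intro i
      by_cases hi : i = e
      · subst hi
        simp [sp_X_self, hw]
      · have := sp_X (k := k) e ⟨i, hi⟩
        simp only at this
        simp [this]
  exact congrArg (fun f => f Q) h

theorem sp_dvd (e : σ) (Q : MvPolynomial σ k) :
    X e ∣ Q - rename Subtype.val (sp e Q) := by
  induction Q using MvPolynomial.induction_on with
  | C a => simp
  | add p q hp hq =>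
    rw [map_add, map_add]
    have : p + q - ((rename Subtype.val) (sp e p) + (rename Subtype.val) (sp e q)) =
      (p - (rename Subtype.val) (sp e p)) + (q - (rename Subtype.val) (sp e q)) := by ring
    rw [this]
    exact dvd_add hp hq
  | mul_X p i hp =>
    rw [map_mul, map_mul]
    by_cases hi : i = e
    · subst hi
      rw [sp_X_self, map_zero, mul_zero, sub_zero]
      exact dvd_mul_left _ _
    · have h1 := sp_X (k := k) e ⟨i, hi⟩
      simp only at h1
      rw [h1, rename_X, ← sub_mul]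
      exact Dvd.dvd.mul_right hp _

theorem dvd_of_sp_eq_zero {e : σ} {Q : MvPolynomial σ k} (h : sp e Q = 0) : X e ∣ Q := by
  have := sp_dvd e Q
  rw [h, map_zero, sub_zero] at this
  exact this

end sp

variable {k : Type u} [Field k]

section basic

variable {E : Type*} [Fintype E]

/-- the generic products `x_i² y_i` -/
noncomputable def UU (L : Submodule k (E → k)) (i : E) : GR L (perp L) :=
  gX L (perp L) i ^ 2 * gY L (perp L) i

/-- relations between the generic products -/
def KerP (L : Submodule k (E → k)) (Q : MvPolynomial E k) : Prop :=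
  Q.eval₂ (C : k →+* GR L (perp L)) (UU L) = 0

theorem eval_family {I : Type*} {L : Submodule k (E → k)} (f : I → E) {Q : MvPolynomial I k}
    (hQ : Q.eval₂ (C : k →+* GR L (perp L)) (fun i => UU L (f i)) = 0)
    {Ω : Type*} [CommRing Ω] {ρ : k →+* Ω} {x y : E → Ω} (hx : Pt L ρ x)
    (hy : Pt (perp L) ρ y) : Q.eval₂ ρ (fun i => x (f i) ^ 2 * y (f i)) = 0 := by
  obtain ⟨g, hg, hgx, hgy⟩ := exists_ev hx hy
  have h := congrArg g hQ
  rw [map_zero, hom_eval₂, hg] at h
  rw [← h]
  congr 1
  ext i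
  simp [UU, hgx, hgy]

theorem KerP.eval {L : Submodule k (E → k)} {Q : MvPolynomial E k} (hQ : KerP L Q)
    {Ω : Type*} [CommRing Ω] {ρ : k →+* Ω} {x y : E → Ω} (hx : Pt L ρ x)
    (hy : Pt (perp L) ρ y) : Q.eval₂ ρ (fun i => x i ^ 2 * y i) = 0 :=
  eval_family (fun i => i) hQ hx hy

theorem gX_ne_zero {L L2 : Submodule k (E → k)} {i : E} (h : ¬ IsLoop L i) :
    gX L L2 i ≠ 0 := by
  intro h0
  apply h
  intro z hz
  obtain ⟨g, _, hgx, _⟩ := exists_ev (pt_id.mpr hz) (Pt.zero (L := L2) (ρ := RingHom.id k))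
  rw [← hgx i, h0, map_zero]

theorem gY_ne_zero {L L2 : Submodule k (E → k)} {i : E} (h : ¬ IsLoop L2 i) :
    gY L L2 i ≠ 0 := by
  intro h0
  apply h
  intro z hz
  obtain ⟨g, _, _, hgy⟩ := exists_ev (Pt.zero (L := L) (ρ := RingHom.id k)) (pt_id.mpr hz)
  rw [← hgy i, h0, map_zero]

theorem Pt.ext0_perp {p : E → Prop} [DecidablePred p] {L : Submodule k (E → k)}
    {Ω : Type*} [CommRing Ω] {ρ : k →+* Ω}
    {y : {i // p i} → Ω} (hy : Pt (perp (Lres p L)) ρ y) : Pt (perp L) ρ (W476.ext0 p y) := by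
  rw [perp_Lres] at hy
  exact hy.ext0

theorem Pt.lift_perp {p : E → Prop} [DecidablePred p] {L : Submodule k (E → k)}
    {Ω : Type*} [CommRing Ω] {ρ : k →+* Ω}
    {y : {i // p i} → Ω} (hy : Pt (perp (Lcon p L)) ρ y) :
    ∃ y' : E → Ω, Pt (perp L) ρ y' ∧ ∀ j : {i // p i}, y' j.1 = y j := by
  rw [perp_Lcon] at hy
  exact hy.lift

end basic

theorem dom_step {E : Type v} [Fintype E] [DecidableEq E] {L : Submodule k (E → k)}
    (hL : Good L) (hE : 2 ≤ Fintype.card E) {i0 e : E} (he : e ≠ i0)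
    (h : ∀ L' : Submodule k ({i // i ≠ e} → k), Good L' →
      Indep (C : k →+* GR L' (perp L'))
        (fun i : {j : {i // i ≠ e} // j ≠ ⟨i0, he.symm⟩} => UU L' i.1)) :
    Indep (C : k →+* GR L (perp L)) (fun i : {i // i ≠ i0} => UU L i.1) := by
  classical
  -- a specialization of the generic point with `x_e² y_e = 0`
  obtain ⟨L', hL', R', hR', hdom, ρ', x, y, hx, hy, hxe, hxy, hUU⟩ :
      ∃ (L' : Submodule k ({i // i ≠ e} → k)) (_ : Good L') (R' : Type (max u 0)) (_ : CommRing R')
        (_ : IsDomain R') (ρ' : k →+* R')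
        (x y : E → R'), Pt L ρ' x ∧ Pt (perp L) ρ' y ∧ x e ^ 2 * y e = 0 ∧
        Indep ρ' (fun i : {j : {i // i ≠ e} // j ≠ ⟨i0, he.symm⟩} => x i.1.1 ^ 2 * y i.1.1) ∧
        True := by
    rcases hL.del_or_con hE e with hg | hg
    · obtain ⟨x, hx, hx2⟩ := (pt_gX (del L e) (perp (del L e))).lift
      refine ⟨del L e, hg, GR (del L e) (perp (del L e)), inferInstance, inferInstance, C, x,
        W476.ext0 _ (gY (del L e) (perp (del L e))), hx,
        (pt_gY (del L e) (perp (del L e))).ext0_perp, ?_, ?_, trivial⟩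
      · rw [ext0_of_not _ _ (by simp), mul_zero]
      · have hfun : (fun i : {j : {i // i ≠ e} // j ≠ ⟨i0, he.symm⟩} => x i.1.1 ^ 2 *
            W476.ext0 (fun i => i ≠ e) (gY (del L e) (perp (del L e))) i.1.1) =
            (fun i => UU (del L e) i.1) := by
          funext i
          rw [hx2 i.1, ext0_val, UU]
        rw [hfun]
        exact h _ hg
    · obtain ⟨y, hy, hy2⟩ := (pt_gY (con L e) (perp (con L e))).lift_perp
      refine ⟨con L e, hg, GR (con L e) (perp (con L e)), inferInstance, inferInstance, C,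
        W476.ext0 _ (gX (con L e) (perp (con L e))), y,
        (pt_gX (con L e) (perp (con L e))).ext0, hy, ?_, ?_, trivial⟩
      · rw [ext0_of_not _ _ (by simp), zero_pow (by norm_num), zero_mul]
      · have hfun : (fun i : {j : {i // i ≠ e} // j ≠ ⟨i0, he.symm⟩} =>
            W476.ext0 (fun i => i ≠ e) (gX (con L e) (perp (con L e))) i.1.1 ^ 2 * y i.1.1) =
            (fun i => UU (con L e) i.1) := by
          funext i
          rw [hy2 i.1, ext0_val, UU]
        rw [hfun]
        exact h _ hg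
  -- relations are divisible by the variable `e`
  have hdiv : ∀ Q : MvPolynomial {i // i ≠ i0} k,
      Q.eval₂ (C : k →+* GR L (perp L)) (fun i => UU L i.1) = 0 → X ⟨e, he⟩ ∣ Q := by
    intro Q hQ
    apply dvd_of_sp_eq_zero
    have h1 := eval_family (fun i : {i // i ≠ i0} => i.1) hQ hx hy
    rw [sp_eval (e := (⟨e, he⟩ : {i // i ≠ i0})) hxe] at h1
    let f : {j : {i // i ≠ i0} // j ≠ ⟨e, he⟩} → {j : {i // i ≠ e} // j ≠ ⟨i0, he.symm⟩} :=
      fun j => ⟨⟨j.1.1, fun hh => j.2 (Subtype.ext hh)⟩, fun hh =>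
        j.1.2 (congrArg Subtype.val hh)⟩
    have hf : Function.Injective f := by
      intro a b hab
      apply Subtype.ext
      apply Subtype.ext
      have := congrArg (fun z => z.1.1) hab
      exact this
    have h3 := hxy.comp f hf
    exact h3 (sp (⟨e, he⟩ : {i // i ≠ i0}) Q) h1
  have hUe : UU L e ≠ 0 := by
    unfold UU
    apply mul_ne_zero
    · exact pow_ne_zero 2 (gX_ne_zero (hL.not_loop e))
    · apply gY_ne_zero
      rw [← isColoop_iff]
      exact hL.not_coloop hE e
  have main : ∀ n : ℕ, ∀ Q : MvPolynomial {i // i ≠ i0} k, Q.totalDegree = n →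
      Q.eval₂ (C : k →+* GR L (perp L)) (fun i => UU L i.1) = 0 → Q = 0 := by
    intro n
    induction n using Nat.strong_induction_on with
    | _ n ih =>
      intro Q hn hQ
      by_contra hne
      obtain ⟨Q1, hQ1⟩ := hdiv Q hQ
      have hQ1ne : Q1 ≠ 0 := by
        intro h0; apply hne; rw [hQ1, h0, mul_zero]
      have hdeg : Q.totalDegree = 1 + Q1.totalDegree := by
        rw [hQ1, totalDegree_mul_of_isDomain (X_ne_zero _) hQ1ne, totalDegree_X]
      have hev : Q1.eval₂ (C : k →+* GR L (perp L)) (fun i => UU L i.1) = 0 := by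
        rw [hQ1, eval₂_mul, eval₂_X] at hQ
        exact (mul_eq_zero.mp hQ).resolve_left hUe
      exact hQ1ne (ih Q1.totalDegree (by omega) Q1 rfl hev)
  intro Q hQ
  exact main _ Q rfl hQ

theorem indep_isEmpty {I : Type*} [IsEmpty I] {Ω : Type*} [CommRing Ω] {ρ : k →+* Ω}
    (hρ : Function.Injective ρ) (w : I → Ω) : Indep ρ w := by
  intro Q hQ
  rw [MvPolynomial.eq_C_of_isEmpty Q] at hQ ⊢
  rw [eval₂_C] at hQ
  rw [(map_eq_zero_iff ρ hρ).mp hQ, map_zero]

theorem dom (n : ℕ) : ∀ (E : Type v) [Fintype E] [DecidableEq E], Fintype.card E = n →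
    ∀ (L : Submodule k (E → k)), Good L → ∀ i0 : E,
      Indep (C : k →+* GR L (perp L)) (fun i : {i // i ≠ i0} => UU L i.1) := by
  induction n with
  | zero =>
    intro E _ _ hE L _ i0
    exact ((Fintype.card_eq_zero_iff.mp hE).false i0).elim
  | succ n ih =>
    intro E _ _ hE L hL i0
    by_cases h1 : ∃ e, e ≠ i0
    · obtain ⟨e, he⟩ := h1
      have h2 : 2 ≤ Fintype.card E := by
        rw [← Nat.lt_iff_add_one_le]
        exact Fintype.one_lt_card_iff.mpr ⟨e, i0, he⟩
      apply dom_step hL h2 he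
      intro L' hL'
      apply ih
      · simp only [ne_eq, Fintype.card_subtype_compl, Fintype.card_unique]
        omega
      · exact hL'
    · push Not at h1
      have : IsEmpty {i // i ≠ i0} := ⟨fun i => i.2 (h1 i.1)⟩
      exact indep_isEmpty (C_injective _ _) _

end Pool.Agent.W476
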