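import Mathlib

/-!
Definitions for the statement about the dual variety of a reciprocal linear space.
-/

set_option autoImplicit false

namespace Pool.Agent.W476.DV

open MvPolynomial

/-- complex projective space of dimension `n` -/
abbrev PP (n : ℕ) : Type := Projectivization ℂ (Fin (n + 1) → ℂ)

/-- Zariski closure of a subset of projective space: the common zeros of all homogeneous
polynomials vanishing on the subset -/
def zclosure {n : ℕ} (S : Set (PP n)) : Set (PP n) :=
  {q | ∀ (m : ℕ) (f : MvPolynomial (Fin (n + 1)) ℂ), f.IsHomogeneous m →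
    (∀ p ∈ S, eval p.rep f = 0) → eval q.rep f = 0}

/-- the reciprocal linear space: Zariski closure of the set of points
`(1 / ℓ₀(t) : ⋯ : 1 / ℓₙ(t))`, where `t` runs over the vectors with all `ℓᵢ(t) ≠ 0` -/
def recipSpace {n d : ℕ} (ℓ : Fin (n + 1) → Module.Dual ℂ (Fin (d + 1) → ℂ)) : Set (PP n) :=
  zclosure {p | ∃ (t : Fin (d + 1) → ℂ) (h : (fun i => (ℓ i t)⁻¹) ≠ 0),
    (∀ i, ℓ i t ≠ 0) ∧ p = Projectivization.mk ℂ (fun i => (ℓ i t)⁻¹) h}

/-- the Zariski tangent space at `p` of the affine cone over `X` (whose projectivization is the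
embedded tangent space of `X` at `p`): the common kernel of the differentials at `p` of the
homogeneous polynomials vanishing on `X` -/
def tangentSpace {n : ℕ} (X : Set (PP n)) (p : PP n) : Submodule ℂ (Fin (n + 1) → ℂ) where
  carrier := {v | ∀ (m : ℕ) (f : MvPolynomial (Fin (n + 1)) ℂ), f.IsHomogeneous m →
    (∀ q ∈ X, eval q.rep f = 0) → ∑ i, eval p.rep (pderiv i f) * v i = 0}
  add_mem' := by
    intro a b ha hb m f hf hX
    simp only [Pi.add_apply, mul_add, Finset.sum_add_distrib, ha m f hf hX, hb m f hf hX, add_zero]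
  zero_mem' := by
    intro m f _ _
    simp
  smul_mem' := by
    intro c a ha m f hf hX
    have h := ha m f hf hX
    have h2 : ∀ i, eval p.rep (pderiv i f) * (c • a) i = c * (eval p.rep (pderiv i f) * a i) := by
      intro i
      simp only [Pi.smul_apply, smul_eq_mul]
      ring
    simp only [h2, ← Finset.mul_sum, h, mul_zero]

/-- smooth points of an irreducible variety `X`: points of `X` at which the tangent space has the
least possible dimension -/
def IsSmoothPt {n : ℕ} (X : Set (PP n)) (p : PP n) : Prop :=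
  p ∈ X ∧ ∀ q ∈ X, Module.finrank ℂ (tangentSpace X p) ≤ Module.finrank ℂ (tangentSpace X q)

/-- the dual variety: Zariski closure of the set of hyperplanes `∑ uᵢ xᵢ = 0` that contain the
tangent space of `X` at some smooth point -/
def dualVariety {n : ℕ} (X : Set (PP n)) : Set (PP n) :=
  zclosure {u | ∃ p, IsSmoothPt X p ∧ ∀ v ∈ tangentSpace X p, ∑ i, u.rep i * v i = 0}

/-- rank function of the matroid represented by `ℓ` -/
noncomputable def rankFn {n d : ℕ} (ℓ : Fin (n + 1) → Module.Dual ℂ (Fin (d + 1) → ℂ))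
    (S : Finset (Fin (n + 1))) : ℕ :=
  Module.finrank ℂ (Submodule.span ℂ (ℓ '' (S : Set (Fin (n + 1)))))

/-- connectedness of the matroid: no proper nonempty subset is a separator -/
def MatroidConnected {n d : ℕ} (ℓ : Fin (n + 1) → Module.Dual ℂ (Fin (d + 1) → ℂ)) : Prop :=
  ∀ S : Finset (Fin (n + 1)), S.Nonempty → Sᶜ.Nonempty →
    rankFn ℓ S + rankFn ℓ Sᶜ ≠ rankFn ℓ Finset.univ

/-- beta invariant of the matroid -/
noncomputable def betaInv {n d : ℕ} (ℓ : Fin (n + 1) → Module.Dual ℂ (Fin (d + 1) → ℂ)) : ℤ :=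
  (-1) ^ rankFn ℓ Finset.univ * ∑ S : Finset (Fin (n + 1)), (-1) ^ S.card * (rankFn ℓ S : ℤ)

end Pool.Agent.W476.DV
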