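import Pool.Agent.W476.Geom

/-!
The dual variety of a reciprocal linear space.
-/

set_option autoImplicit false

namespace Pool.Agent.W476

open Finset MvPolynomial DV

variable {n : ℕ}

theorem conormal_mem {L : Submodule ℂ (Fin (n + 1) → ℂ)} (hL : Good L) {x y : Fin (n + 1) → ℂ}
    (hx : x ∈ L) (hx0 : ∀ i, x i ≠ 0) (hy : y ∈ perp L) (hw : (fun i => x i ^ 2 * y i) ≠ 0) :
    ∃ p, IsSmoothPt (zclosure (S0 L)) p ∧ ∀ v ∈ tangentSpace (zclosure (S0 L)) p,
      ∑ i, (Projectivization.mk ℂ _ hw).rep i * v i = 0 := by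
  have h1 : (fun i => (x i)⁻¹) ∈ CL L := ⟨fun i => inv_ne_zero (hx0 i), by simpa using hx⟩
  have h2 := (mk_mem_S0 _ (ne_zero_of_CL h1)).mpr h1
  refine ⟨_, (smooth_iff hL _).mpr ⟨subset_zclosure _ h2, finrank_tangent hL h2⟩, ?_⟩
  intro v hv
  rw [tangent_iff hL h2] at hv
  obtain ⟨z, hz, rfl⟩ := hv
  obtain ⟨c, _, hc⟩ := rep_mk _ hw
  obtain ⟨c', _, hc'⟩ := rep_mk _ (ne_zero_of_CL h1)
  rw [hc, hc']
  have h3 := hy z hz
  have h4 : ∀ i, c * (x i ^ 2 * y i) * ((c' * (x i)⁻¹) ^ 2 * z i) = c * c' ^ 2 * (y i * z i) := by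
    intro i
    have := hx0 i
    field_simp
  simp only [h4, ← Finset.mul_sum, h3, mul_zero]

theorem gen_dvd_of_vanish {L : Submodule ℂ (Fin (n + 1) → ℂ)} (hL : Good L)
    {F : MvPolynomial (Fin (n + 1)) ℂ} (hF : Gen L F) {m : ℕ} (hm : 0 < m)
    {G : MvPolynomial (Fin (n + 1)) ℂ} (hG : G.IsHomogeneous m)
    (h : ∀ u ∈ {u : PP n | ∃ p, IsSmoothPt (zclosure (S0 L)) p ∧
      ∀ v ∈ tangentSpace (zclosure (S0 L)) p, ∑ i, u.rep i * v i = 0}, eval u.rep G = 0) :
    F ∣ G := by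
  apply hF.dvd
  unfold KerP
  apply density hL
  intro φ hφ hx hy hx0
  rw [hom_eval₂, hφ]
  have h1 : (fun i => φ (UU L i)) =
      (fun i => φ (gX L (perp L) i) ^ 2 * φ (gY L (perp L) i)) := by
    funext i
    simp [UU]
  rw [h1]
  by_cases hw : (fun i => φ (gX L (perp L) i) ^ 2 * φ (gY L (perp L) i)) = 0
  · rw [hw]
    have h2 := eval_scale hG 0 (0 : Fin (n + 1) → ℂ)
    rw [zero_pow hm.ne', zero_mul] at h2
    have h3 : (fun i => (0 : ℂ) * (0 : Fin (n + 1) → ℂ) i) = 0 := by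
      funext i
      simp
    rw [h3] at h2
    exact h2
  · have h2 := h (Projectivization.mk ℂ _ hw) (conormal_mem hL hx hx0 hy hw)
    rw [vanish_mk hG] at h2
    exact h2

theorem eval_gen {L : Submodule ℂ (Fin (n + 1) → ℂ)}
    {F : MvPolynomial (Fin (n + 1)) ℂ} (hF : Gen L F) :
    ∀ x ∈ L, (∀ i, x i ≠ 0) → ∀ y ∈ perp L, eval (fun i => x i ^ 2 * y i) F = 0 := by
  intro x hx _ y hy
  have := hF.mem.eval (pt_id.mpr hx) (pt_id.mpr hy)
  rwa [eval₂_id] at this

theorem dual_eq {L : Submodule ℂ (Fin (n + 1) → ℂ)} (hL : Good L)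
    {F : MvPolynomial (Fin (n + 1)) ℂ} (hF : Gen L F) :
    dualVariety (zclosure (S0 L)) = {u : PP n | eval u.rep F = 0} := by
  apply Set.Subset.antisymm
  · intro u hu
    refine hu _ F hF.hom ?_
    rintro w ⟨p, hp, hw⟩
    exact conormal hL (eval_gen hF) hp.1 hw
  · intro u hu
    have hu' : eval u.rep F = 0 := hu
    have key : ∀ (m : ℕ) (G : MvPolynomial (Fin (n + 1)) ℂ), 0 < m → G.IsHomogeneous m →
        (∀ w ∈ {u : PP n | ∃ p, IsSmoothPt (zclosure (S0 L)) p ∧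
          ∀ v ∈ tangentSpace (zclosure (S0 L)) p, ∑ i, u.rep i * v i = 0},
          eval w.rep G = 0) → eval u.rep G = 0 := by
      intro m G hm hG h
      obtain ⟨q, hq⟩ := gen_dvd_of_vanish hL hF hm hG h
      rw [hq, map_mul, hu', zero_mul]
    intro m G hG h
    by_cases hm : 0 < m
    · exact key m G hm hG h
    · by_contra hne
      apply u.rep_nonzero
      funext i
      have h2 := key (m + 1) (G * X i) (Nat.succ_pos m) (hG.mul (isHomogeneous_X ℂ i)) (by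
        intro w hw
        rw [map_mul, h w hw, zero_mul])
      rw [map_mul, eval_X] at h2
      exact (mul_eq_zero.mp h2).resolve_left hne

section link

variable {d : ℕ}

/-- the linear space attached to linear forms -/
noncomputable def LL (ℓ : Fin (n + 1) → Module.Dual ℂ (Fin (d + 1) → ℂ)) :
    Submodule ℂ (Fin (n + 1) → ℂ) := LinearMap.range (LinearMap.pi ℓ)

theorem rk_LL (ℓ : Fin (n + 1) → Module.Dual ℂ (Fin (d + 1) → ℂ)) (S : Finset (Fin (n + 1))) :
    rk (LL ℓ) S = rankFn ℓ S := by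
  let g := (resP ℂ (fun i => i ∈ S)).comp (LinearMap.pi ℓ)
  have h1 : Lres (fun i => i ∈ S) (LL ℓ) = LinearMap.range g := by
    unfold Lres LL
    exact (LinearMap.range_comp _ _).symm
  have h2 : LinearMap.ker g =
      (Submodule.span ℂ (ℓ '' (S : Set (Fin (n + 1))))).dualCoannihilator := by
    ext t
    rw [Submodule.mem_dualCoannihilator]
    constructor
    · intro h φ hφ
      induction hφ using Submodule.span_induction with
      | mem z hz =>
        obtain ⟨i, hi, rfl⟩ := hz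
        exact congrFun h ⟨i, hi⟩
      | zero => simp
      | add a b _ _ ha hb => simp [ha, hb]
      | smul c a _ ha => simp [ha]
    · intro h
      rw [LinearMap.mem_ker]
      funext i
      exact h (ℓ i.1) (Submodule.subset_span ⟨i.1, i.2, rfl⟩)
  have h3 := LinearMap.finrank_range_add_finrank_ker g
  have h4 := Subspace.finrank_add_finrank_dualCoannihilator_eq
    (Submodule.span ℂ (ℓ '' (S : Set (Fin (n + 1)))))
  unfold rk rankFn
  rw [h1]
  rw [h2] at h3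
  omega

theorem finrank_LL {ℓ : Fin (n + 1) → Module.Dual ℂ (Fin (d + 1) → ℂ)}
    (hℓ : Submodule.span ℂ (Set.range ℓ) = ⊤) : Module.finrank ℂ (LL ℓ) = d + 1 := by
  rw [← rk_univ, rk_LL]
  unfold rankFn
  rw [Finset.coe_univ, Set.image_univ, hℓ, finrank_top, Subspace.dual_finrank_eq]
  simp

theorem good_LL {ℓ : Fin (n + 1) → Module.Dual ℂ (Fin (d + 1) → ℂ)}
    (hℓ : Submodule.span ℂ (Set.range ℓ) = ⊤) (hc : MatroidConnected ℓ) : Good (LL ℓ) := by
  refine ⟨?_, ?_⟩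
  · intro S hS hS'
    have h1 := hc S hS hS'
    rw [← rk_LL, ← rk_LL, ← rk_LL, rk_univ] at h1
    have h2 := rk_submod (LL ℓ) S Sᶜ
    rw [Finset.union_compl, rk_univ] at h2
    omega
  · intro h
    have h1 := finrank_LL hℓ
    rw [h, finrank_bot] at h1
    omega

theorem beta_LL (ℓ : Fin (n + 1) → Module.Dual ℂ (Fin (d + 1) → ℂ)) :
    beta (LL ℓ) = betaInv ℓ := by
  unfold beta betaInv
  rw [← rk_univ, rk_LL]
  simp only [rk_LL]

theorem recip_LL (ℓ : Fin (n + 1) → Module.Dual ℂ (Fin (d + 1) → ℂ)) :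
    recipSpace ℓ = zclosure (S0 (LL ℓ)) := by
  unfold recipSpace
  congr 1
  ext p
  constructor
  · rintro ⟨t, h, ht, rfl⟩
    rw [mk_mem_S0]
    refine ⟨fun i => inv_ne_zero (ht i), t, ?_⟩
    funext i
    simp
  · rintro ⟨h1, t, ht⟩
    have h2 : ∀ i, ℓ i t = (p.rep i)⁻¹ := fun i => congrFun ht i
    have h3 : (fun i => (ℓ i t)⁻¹) = p.rep := by
      funext i
      rw [h2, inv_inv]
    refine ⟨t, by rw [h3]; exact p.rep_nonzero, fun i => ?_, ?_⟩
    · rw [h2]; exact inv_ne_zero (h1 i)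
    · conv_lhs => rw [← p.mk_rep]
      congr 1
      exact h3.symm

/-- the main theorem -/
theorem main {ℓ : Fin (n + 1) → Module.Dual ℂ (Fin (d + 1) → ℂ)}
    (hℓ : Submodule.span ℂ (Set.range ℓ) = ⊤) (hc : MatroidConnected ℓ) :
    ∃ F : MvPolynomial (Fin (n + 1)) ℂ, Irreducible F ∧ F.IsHomogeneous F.totalDegree ∧
      (F.totalDegree : ℤ) = 2 ^ d * betaInv ℓ ∧
      dualVariety (recipSpace ℓ) = {u : PP n | eval u.rep F = 0} ∧
      (∀ (m : ℕ) (G : MvPolynomial (Fin (n + 1)) ℂ), 0 < m → G.IsHomogeneous m →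
        (∀ u ∈ dualVariety (recipSpace ℓ), eval u.rep G = 0) → F ∣ G) ∧
      (∀ p : PP n, IsSmoothPt (recipSpace ℓ) p ↔ p ∈ recipSpace ℓ ∧
        Module.finrank ℂ (tangentSpace (recipSpace ℓ) p) = d + 1) := by
  have hL := good_LL hℓ hc
  obtain ⟨F, hF⟩ := exists_gen hL
  refine ⟨F, hF.irr, hF.hom, ?_, ?_, ?_, ?_⟩
  · rw [← dg_eq hL hF, dg_eq_beta _ _ rfl (LL ℓ) hL, beta_LL, finrank_LL hℓ, Nat.add_sub_cancel]
  · rw [recip_LL]
    exact dual_eq hL hF
  · intro m G hm hG h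
    rw [recip_LL] at h
    exact gen_dvd_of_vanish hL hF hm hG (fun u hu => h u (subset_zclosure _ hu))
  · intro p
    rw [recip_LL, smooth_iff hL, finrank_LL hℓ]

end link

end Pool.Agent.W476
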