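import Pool.Agent.W476.Minor

/-!
The generic point of `L₁ × L₂`, and the bound for the number of algebraically independent
elements `x_i² y_i`.
-/

set_option autoImplicit false

namespace Pool.Agent.W476

open Finset MvPolynomial

variable {k : Type*} [Field k] {E : Type*} [Fintype E]

/-- coordinate ring of `L₁ × L₂` -/
abbrev GR (L1 L2 : Submodule k (E → k)) : Type _ :=
  MvPolynomial (Fin (Module.finrank k L1) ⊕ Fin (Module.finrank k L2)) k

/-- generic point of `L₁` -/
noncomputable def gX (L1 L2 : Submodule k (E → k)) (i : E) : GR L1 L2 :=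
  ∑ j, C (cB L1 i j) * X (Sum.inl j)

/-- generic point of `L₂` -/
noncomputable def gY (L1 L2 : Submodule k (E → k)) (i : E) : GR L1 L2 :=
  ∑ j, C (cB L2 i j) * X (Sum.inr j)

theorem pt_gX (L1 L2 : Submodule k (E → k)) : Pt L1 (C : k →+* GR L1 L2) (gX L1 L2) := by
  intro a ha
  unfold gX
  simp only [Finset.mul_sum]
  rw [Finset.sum_comm]
  apply Finset.sum_eq_zero
  intro j _
  have h1 := ha _ (cB_mem L1 j)
  have h2 : ∀ i, (C (a i) : GR L1 L2) * (C (cB L1 i j) * X (Sum.inl j)) =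
      C (a i * cB L1 i j) * X (Sum.inl j) := by
    intro i; rw [C_mul]; ring
  simp only [h2, ← Finset.sum_mul, ← map_sum, h1, map_zero, zero_mul]

theorem pt_gY (L1 L2 : Submodule k (E → k)) : Pt L2 (C : k →+* GR L1 L2) (gY L1 L2) := by
  intro a ha
  unfold gY
  simp only [Finset.mul_sum]
  rw [Finset.sum_comm]
  apply Finset.sum_eq_zero
  intro j _
  have h1 := ha _ (cB_mem L2 j)
  have h2 : ∀ i, (C (a i) : GR L1 L2) * (C (cB L2 i j) * X (Sum.inr j)) =
      C (a i * cB L2 i j) * X (Sum.inr j) := by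
    intro i; rw [C_mul]; ring
  simp only [h2, ← Finset.sum_mul, ← map_sum, h1, map_zero, zero_mul]

variable {Ω : Type*} [CommRing Ω] {ρ : k →+* Ω}

theorem exists_ev {L1 L2 : Submodule k (E → k)} {x y : E → Ω} (hx : Pt L1 ρ x)
    (hy : Pt L2 ρ y) : ∃ f : GR L1 L2 →+* Ω, f.comp C = ρ ∧ (∀ i, f (gX L1 L2 i) = x i) ∧
      (∀ i, f (gY L1 L2 i) = y i) := by
  refine ⟨eval₂Hom ρ (Sum.elim (fun j => ∑ l, ρ (cC L1 j l) * x l)
    (fun j => ∑ l, ρ (cC L2 j l) * y l)), ?_, ?_, ?_⟩
  · ext a; simp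
  · intro i
    rw [hx.coord i]
    simp [gX]
  · intro i
    rw [hy.coord i]
    simp [gY]

/-- algebraic independence along a ring homomorphism -/
def Indep {I : Type*} (ρ : k →+* Ω) (u : I → Ω) : Prop :=
  ∀ Q : MvPolynomial I k, Q.eval₂ ρ u = 0 → Q = 0

theorem Indep.comp {I J : Type*} {u : I → Ω} (h : Indep ρ u) (f : J → I)
    (hf : Function.Injective f) : Indep ρ (u ∘ f) := by
  intro Q hQ
  have h1 := h (rename f Q) (by rw [eval₂_rename]; exact hQ)
  exact (rename_injective f hf) (by rw [h1, map_zero])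

theorem Indep.of_map {I : Type*} {Ω' : Type*} [CommRing Ω'] {u : I → Ω} (f : Ω →+* Ω')
    (h : Indep (f.comp ρ) (fun i => f (u i))) : Indep ρ u := by
  intro Q hQ
  apply h
  have := congrArg f hQ
  rw [map_zero, hom_eval₂] at this
  exact this

theorem Indep.ne_zero [Nontrivial Ω] {I : Type*} {u : I → Ω} (h : Indep ρ u) (i : I) :
    u i ≠ 0 := by
  intro h0
  have := h (X i) (by simp [h0])
  exact X_ne_zero i this

/-- the basic count -/
theorem lemT {K : Type*} [Field K] {ρ : k →+* K} {L1 L2 : Submodule k (E → k)}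
    {I : Type*} [Fintype I] (idx : I → E) {x y : E → K} (hx : Pt L1 ρ x) (hy : Pt L2 ρ y)
    (hx0 : x ≠ 0)
    (hcard : Module.finrank k L1 + Module.finrank k L2 ≤ Fintype.card I)
    (hind : Indep ρ (fun i : I => x (idx i) ^ 2 * y (idx i))) : False := by
  classical
  have hpos : 0 < Module.finrank k L1 := by
    rcases Nat.eq_zero_or_pos (Module.finrank k L1) with h | h
    · exact absurd (pt_bot h hx) hx0
    · exact h
  obtain ⟨f, hf, hfx, hfy⟩ := exists_ev hx hy
  have hU : Indep (C : k →+* GR L1 L2) (fun i : I => gX L1 L2 (idx i) ^ 2 * gY L1 L2 (idx i)) := by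
    apply Indep.of_map f
    rw [hf]
    simpa [hfx, hfy] using hind
  let v0 : Fin (Module.finrank k L1) ⊕ Fin (Module.finrank k L2) := Sum.inl ⟨0, hpos⟩
  let ψ : GR L1 L2 →ₐ[k] MvPolynomial
      {v : Fin (Module.finrank k L1) ⊕ Fin (Module.finrank k L2) // v ≠ v0} k :=
    aeval (fun v => if h : v ≠ v0 then X ⟨v, h⟩ else 1)
  obtain ⟨K', _, ι, hι⟩ : ∃ (K' : Type _) (_ : Field K') (ι : GR L1 L2 →+* K'),
      Function.Injective ι :=
    ⟨FractionRing (GR L1 L2), inferInstance, algebraMap _ _, IsFractionRing.injective _ _⟩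
  obtain ⟨s0, hs0'⟩ : ∃ s0 : K', s0 = ι (X v0) := ⟨_, rfl⟩
  have hs0 : s0 ≠ 0 := by
    rw [hs0']
    intro h
    exact X_ne_zero v0 (hι (by rw [map_zero]; exact h))
  let θ : MvPolynomial
      {v : Fin (Module.finrank k L1) ⊕ Fin (Module.finrank k L2) // v ≠ v0} k →+* K' :=
    eval₂Hom (ι.comp C) (fun v => Sum.elim
      (fun j => ι (X (Sum.inl j)) / s0) (fun j => s0 ^ 2 * ι (X (Sum.inr j))) v.1)
  have h1 : ∀ j, θ (ψ (X (Sum.inl j))) = ι (X (Sum.inl j)) / s0 := by
    intro j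
    by_cases h : (Sum.inl j : Fin (Module.finrank k L1) ⊕ Fin (Module.finrank k L2)) ≠ v0
    · have e1 : ψ (X (Sum.inl j)) = X ⟨_, h⟩ := by simp [ψ, h]
      rw [e1]
      simp [θ]
    · rw [not_not] at h
      have : ψ (X (Sum.inl j)) = 1 := by simp [ψ, h]
      rw [this, map_one, h, hs0', div_self (by rw [← hs0']; exact hs0)]
  have h2 : ∀ j, θ (ψ (X (Sum.inr j))) = s0 ^ 2 * ι (X (Sum.inr j)) := by
    intro j
    have h : (Sum.inr j : Fin (Module.finrank k L1) ⊕ Fin (Module.finrank k L2)) ≠ v0 := by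
      simp [v0]
    have e1 : ψ (X (Sum.inr j)) = X ⟨_, h⟩ := by simp [ψ, h]
    rw [e1]
    simp [θ]
  have hC : ∀ a, θ (ψ (C a)) = ι (C a) := by
    intro a
    have : ψ (C a) = C a := by
      rw [← algebraMap_eq, AlgHom.commutes]; rfl
    rw [this]
    simp [θ]
  have hX : ∀ i, θ (ψ (gX L1 L2 i)) = ι (gX L1 L2 i) / s0 := by
    intro i
    simp only [gX, map_sum, map_mul, h1, hC, Finset.sum_div]
    apply Finset.sum_congr rfl
    intro j _
    ring
  have hY : ∀ i, θ (ψ (gY L1 L2 i)) = s0 ^ 2 * ι (gY L1 L2 i) := by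
    intro i
    simp only [gY, map_sum, map_mul, h2, hC, Finset.mul_sum]
    apply Finset.sum_congr rfl
    intro j _
    ring
  have hUU : ∀ i, θ (ψ (gX L1 L2 i ^ 2 * gY L1 L2 i)) = ι (gX L1 L2 i ^ 2 * gY L1 L2 i) := by
    intro i
    simp only [map_mul, map_pow, hX, hY]
    field_simp
  have hind' : AlgebraicIndependent k (fun i : I => ψ (gX L1 L2 (idx i) ^ 2 * gY L1 L2 (idx i))) := by
    rw [algebraicIndependent_iff]
    intro Q hQ
    apply hU
    apply hι
    rw [map_zero, hom_eval₂]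
    have h5 := congrArg θ hQ
    rw [map_zero, aeval_def, hom_eval₂] at h5
    have h6 : θ.comp (algebraMap k _) = ι.comp C := by
      ext a
      simp [θ, algebraMap_eq]
    rw [h6] at h5
    have h7 : (fun i : I => ι (gX L1 L2 (idx i) ^ 2 * gY L1 L2 (idx i))) =
        (fun i : I => θ (ψ (gX L1 L2 (idx i) ^ 2 * gY L1 L2 (idx i)))) := by
      ext i; rw [hUU]
    exact (congrArg (fun w => eval₂ (ι.comp C) w Q) h7).trans h5
  have hc := hind'.lift_cardinalMk_le_trdeg
  rw [MvPolynomial.trdeg_of_isDomain] at hc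
  simp only [Cardinal.mk_fintype, Cardinal.lift_natCast, Nat.cast_le] at hc
  have hcard2 : Fintype.card {v : Fin (Module.finrank k L1) ⊕ Fin (Module.finrank k L2) // v ≠ v0}
      = Module.finrank k L1 + Module.finrank k L2 - 1 := by
    simp
  omega

/-- no point of `N × N^⊥` with independent products `x_i² y_i` -/
theorem noPoint {G : Type*} [Fintype G] [Nonempty G] (N : Submodule k (G → k)) {K : Type*}
    [Field K] {ρ : k →+* K} {x y : G → K} (hx : Pt N ρ x) (hy : Pt (perp N) ρ y)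
    (hind : Indep ρ (fun i => x i ^ 2 * y i)) : False := by
  have hx0 : x ≠ 0 := by
    intro h
    obtain ⟨i⟩ := ‹Nonempty G›
    have := hind.ne_zero i
    simp [h] at this
  exact lemT (fun i : G => i) hx hy hx0 (le_of_eq (finrank_perp N)) hind

/-- version for a subspace of `E → k` and a subset of the coordinates -/
theorem noPoint_res (p : E → Prop) [DecidablePred p] [Nonempty {i // p i}]
    (N : Submodule k (E → k)) {K : Type*}
    [Field K] {ρ : k →+* K} {x : E → K} {y : {i // p i} → K} (hx : Pt N ρ x)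
    (hy : ∀ z ∈ N, ∑ j : {i // p i}, ρ (z j.1) * y j = 0)
    (hind : Indep ρ (fun j : {i // p i} => x j.1 ^ 2 * y j)) : False :=
  noPoint (Lres p N) hx.res (pt_perp_Lres hy) hind

theorem noPoint_res' (p : E → Prop) [DecidablePred p] [Nonempty {i // p i}]
    (N : Submodule k (E → k)) {K : Type*}
    [Field K] {ρ : k →+* K} {y : E → K} {x : {i // p i} → K} (hy : Pt N ρ y)
    (hx : ∀ z ∈ N, ∑ j : {i // p i}, ρ (z j.1) * x j = 0)
    (hind : Indep ρ (fun j : {i // p i} => x j ^ 2 * y j.1)) : False := by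
  apply noPoint (perp (Lres p N)) (pt_perp_Lres hx) _ hind
  rw [perp_perp]
  exact hy.res

end Pool.Agent.W476
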