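import Pool.Agent.W476.Gen

/-!
The Gauss map: along the generic point, `x_i ∂_i F` does not depend on `i`.
-/

set_option autoImplicit false

namespace Pool.Agent.W476

open Finset MvPolynomial

universe u v

theorem deriv_eq_zero_of_algebraic {k R : Type*} [Field k] [CommRing R] [IsDomain R] [CharZero R]
    [Algebra k R] (s : Set R) [Algebra.IsAlgebraic (Algebra.adjoin k s) R]
    (D : Derivation k R R) (hD : ∀ a ∈ s, D a = 0) (r : R) : D r = 0 := by
  classical
  have hS : ∀ a ∈ Algebra.adjoin k s, D a = 0 := by
    intro a ha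
    have : Set.EqOn D (0 : Derivation k R R) (Algebra.adjoin k s) := by
      apply Derivation.eqOn_adjoin
      intro a ha
      simp [hD a ha]
    simpa using this ha
  let D' : Derivation (Algebra.adjoin k s) R R := Derivation.mk'
    { toFun := D
      map_add' := fun a b => map_add D a b
      map_smul' := by
        intro c a
        rw [Algebra.smul_def, D.leibniz]
        have : D (algebraMap (Algebra.adjoin k s) R c) = 0 := hS _ c.2
        rw [this]
        simp [Algebra.smul_def] } (by
        intro a b
        simp [D.leibniz])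
  have hex : ∃ n : ℕ, ∃ P : Polynomial (Algebra.adjoin k s), P ≠ 0 ∧ P.natDegree = n ∧
      Polynomial.aeval r P = 0 := by
    obtain ⟨P, hP, hP0⟩ := Algebra.IsAlgebraic.isAlgebraic (R := Algebra.adjoin k s) r
    exact ⟨_, P, hP, rfl, hP0⟩
  obtain ⟨P, hP, hPn, hP0⟩ := Nat.find_spec hex
  have hmin := fun m hm => Nat.find_min hex (m := m) hm
  have h1 : Polynomial.aeval r (Polynomial.derivative P) • D' r = 0 := by
    rw [← D'.map_aeval, hP0, map_zero]
  have hinj : Function.Injective (algebraMap (Algebra.adjoin k s) R) := Subtype.val_injective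
  have hnd : P.natDegree ≠ 0 := by
    intro h0
    rw [Polynomial.eq_C_of_natDegree_eq_zero h0, Polynomial.aeval_C] at hP0
    apply hP
    rw [Polynomial.eq_C_of_natDegree_eq_zero h0, (map_eq_zero_iff _ hinj).mp hP0, map_zero]
  have hcz : CharZero (Algebra.adjoin k s) := by
    refine ⟨fun a b hab => ?_⟩
    have := congrArg (algebraMap (Algebra.adjoin k s) R) hab
    simpa using this
  have h2 : Polynomial.derivative P ≠ 0 := by
    intro h0
    exact hnd (Polynomial.derivative_eq_zero.mp h0)
  have h3 : (Polynomial.derivative P).natDegree < P.natDegree :=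
    Polynomial.natDegree_derivative_lt hnd
  have h4 : Polynomial.aeval r (Polynomial.derivative P) ≠ 0 := by
    intro h0
    exact hmin _ (by rw [← hPn]; exact h3) ⟨_, h2, rfl, h0⟩
  rw [smul_eq_mul] at h1
  exact (mul_eq_zero.mp h1).resolve_left h4

variable {k : Type u} [Field k] {E : Type v} [Fintype E]

theorem exists_derivation {L1 L2 : Submodule k (E → k)} {ξ η : E → GR L1 L2}
    (hξ : Pt L1 (C : k →+* GR L1 L2) ξ) (hη : Pt L2 (C : k →+* GR L1 L2) η) :
    ∃ D : Derivation k (GR L1 L2) (GR L1 L2), (∀ i, D (gX L1 L2 i) = ξ i) ∧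
      (∀ i, D (gY L1 L2 i) = η i) := by
  have hC : ∀ (D : Derivation k (GR L1 L2) (GR L1 L2)) (a : k) (b : GR L1 L2),
      D (C a * b) = C a * D b := by
    intro D a b
    rw [← algebraMap_eq, ← Algebra.smul_def, D.map_smul, Algebra.smul_def]
  refine ⟨mkDerivation k (Sum.elim (fun j => ∑ l, C (cC L1 j l) * ξ l)
    (fun j => ∑ l, C (cC L2 j l) * η l)), ?_, ?_⟩
  · intro i
    rw [hξ.coord i]
    simp only [gX, map_sum, hC, mkDerivation_X, Sum.elim_inl]
  · intro i
    rw [hη.coord i]
    simp only [gY, map_sum, hC, mkDerivation_X, Sum.elim_inr]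

theorem chain_rule {σ τ : Type*} [Fintype σ] (D : Derivation k (MvPolynomial τ k) (MvPolynomial τ k))
    (U : σ → MvPolynomial τ k) (p : MvPolynomial σ k) :
    D (eval₂ C U p) = ∑ i, eval₂ C U (pderiv i p) * D (U i) := by
  classical
  induction p using MvPolynomial.induction_on with
  | C a =>
    simp only [eval₂_C, pderiv_C, eval₂_zero, zero_mul, Finset.sum_const_zero]
    rw [← algebraMap_eq, D.map_algebraMap]
  | add p q hp hq =>
    simp only [eval₂_add, map_add, hp, hq, add_mul, Finset.sum_add_distrib]
  | mul_X p j hp =>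
    simp only [eval₂_mul, eval₂_X, D.leibniz, hp, pderiv_mul, eval₂_add, add_mul,
      Finset.sum_add_distrib, smul_eq_mul]
    rw [add_comm]
    congr 1
    · rw [Finset.mul_sum]
      apply Finset.sum_congr rfl
      intro i _
      ring
    · rw [Finset.sum_eq_single j]
      · simp
      · intro i _ hi
        rw [pderiv_X_of_ne (Ne.symm hi)]
        simp
      · intro h; exact absurd (Finset.mem_univ j) h

/-- rescaling of the generic point -/
theorem exists_scale (L : Submodule k (E → k)) {t : k} (ht : t ≠ 0) :
    ∃ f : GR L (perp L) →+* GR L (perp L), (∀ a, f (C a) = C a) ∧ (∀ i, f (UU L i) = UU L i) ∧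
      ∀ i, f (gX L (perp L) i) = C t * gX L (perp L) i := by
  obtain ⟨f, hf, hfx, hfy⟩ := exists_ev ((pt_gX L (perp L)).smul (C t))
    ((pt_gY L (perp L)).smul (C (t⁻¹ ^ 2)))
  refine ⟨f, fun a => congrArg (fun g => g a) hf, ?_, hfx⟩
  intro i
  unfold UU
  rw [map_mul, map_pow, hfx, hfy]
  have : (C t : GR L (perp L)) ^ 2 * C (t⁻¹ ^ 2) = 1 := by
    rw [← C_pow, ← C_mul, ← mul_pow, mul_inv_cancel₀ ht, one_pow, C_1]
  linear_combination (gX L (perp L) i ^ 2 * gY L (perp L) i) * this

variable [DecidableEq E]

theorem indep_option [CharZero k] {L : Submodule k (E → k)} (hL : Good L) (i0 j : E) :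
    AlgebraicIndependent k (fun o : Option {i // i ≠ i0} =>
      o.elim (gX L (perp L) j) (fun i => UU L i.1)) := by
  have hd := dom (k := k) _ E rfl L hL i0
  have hinj := inj_of_indep hd
  rw [algebraicIndependent_iff]
  intro Q hQ
  set φ := eval₂Hom (C : k →+* GR L (perp L)) (fun i : {i // i ≠ i0} => UU L i.1) with hφ
  -- the relation as a polynomial in `x_j`
  have h1 : ∀ w : GR L (perp L), Polynomial.eval₂ φ w (optionEquivLeft k {i // i ≠ i0} Q) =
      aeval (fun o : Option {i // i ≠ i0} => o.elim w (fun i => UU L i.1)) Q := by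
    intro w
    have h : ((Polynomial.eval₂RingHom φ w).comp
        (optionEquivLeft k {i // i ≠ i0} : MvPolynomial (Option {i // i ≠ i0}) k →+* _)) =
        (aeval (fun o : Option {i // i ≠ i0} => o.elim w (fun i => UU L i.1)) :
          MvPolynomial (Option {i // i ≠ i0}) k →ₐ[k] GR L (perp L)).toRingHom := by
      apply MvPolynomial.ringHom_ext
      · intro a
        simp [hφ, algebraMap_eq]
      · intro o
        cases o with
        | none => simp
        | some i => simp [hφ]
    exact congrArg (fun f => f Q) h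
  have hx : gX L (perp L) j ≠ 0 := gX_ne_zero (hL.not_loop j)
  have h2 : ((optionEquivLeft k {i // i ≠ i0} Q).map φ) = 0 := by
    apply Polynomial.eq_zero_of_infinite_isRoot
    have h3 : ∀ t : k, t ≠ 0 → Polynomial.IsRoot ((optionEquivLeft k {i // i ≠ i0} Q).map φ)
        (C t * gX L (perp L) j) := by
      intro t ht
      obtain ⟨f, hfC, hfU, hfX⟩ := exists_scale L ht
      rw [Polynomial.IsRoot, Polynomial.eval_map, h1, ← hfX]
      have h4 := congrArg f hQ
      rw [map_zero, aeval_def, hom_eval₂] at h4
      rw [aeval_def, ← h4]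
      have h5 : f.comp (algebraMap k (GR L (perp L))) = algebraMap k (GR L (perp L)) := by
        ext a
        simp [algebraMap_eq, hfC]
      rw [h5]
      congr 1
      funext o
      cases o with
      | none => rfl
      | some i => simp [hfU]
    apply Set.infinite_of_injective_forall_mem
      (f := fun n : ℕ => (C ((n : k) + 1) * gX L (perp L) j : GR L (perp L)))
    · intro a b hab
      have := mul_right_cancel₀ hx hab
      have := C_injective _ _ this
      simpa using this
    · intro n
      exact h3 _ (Nat.cast_add_one_ne_zero n)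
  have h6 := (Polynomial.map_eq_zero_iff hinj).mp h2
  exact (map_eq_zero_iff _ (optionEquivLeft k {i // i ≠ i0}).injective).mp h6

theorem gauss [CharZero k] {L : Submodule k (E → k)} (hL : Good L) {F : MvPolynomial E k}
    (hF : KerP L F) (i j : E) :
    gX L (perp L) i * eval₂ C (UU L) (pderiv i F) =
      gX L (perp L) j * eval₂ C (UU L) (pderiv j F) := by
  set x := gX L (perp L) with hx
  set y := gY L (perp L) with hy
  set g : E → GR L (perp L) := fun i => eval₂ C (UU L) (pderiv i F) with hg
  have hder : ∀ D : Derivation k (GR L (perp L)) (GR L (perp L)), ∀ i,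
      D (UU L i) = 2 * x i * y i * D (x i) + x i ^ 2 * D (y i) := by
    intro D i
    unfold UU
    rw [D.leibniz, D.leibniz_pow]
    simp only [smul_eq_mul, nsmul_eq_mul]
    push_cast
    ring
  have hch : ∀ D : Derivation k (GR L (perp L)) (GR L (perp L)),
      ∑ i, g i * (2 * x i * y i * D (x i) + x i ^ 2 * D (y i)) = 0 := by
    intro D
    have h1 := chain_rule D (UU L) F
    have h2 : eval₂ C (UU L) F = 0 := hF
    rw [h2, map_zero] at h1
    rw [h1]
    simp only [hder]
    rfl
  -- first order conditions
  have h1 : Pt (perp L) (C : k →+* GR L (perp L)) (fun i => g i * x i * y i) := by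
    intro z hz
    rw [perp_perp] at hz
    obtain ⟨D, hDx, hDy⟩ := exists_derivation (pt_of_mem (C : k →+* GR L (perp L)) hz)
      (Pt.zero (L := perp L) (ρ := (C : k →+* GR L (perp L))))
    have := hch D
    simp only [x, y, hDx, hDy] at this
    have h2 : (2 : GR L (perp L)) ≠ 0 := two_ne_zero
    apply mul_left_cancel₀ h2
    rw [mul_zero, ← this, Finset.mul_sum]
    apply Finset.sum_congr rfl
    intro i _
    ring
  have h2 : Pt L (C : k →+* GR L (perp L)) (fun i => g i * x i * x i) := by
    intro w hw
    obtain ⟨D, hDx, hDy⟩ := exists_derivation (Pt.zero (L := L) (ρ := (C : k →+* GR L (perp L))))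
      (pt_of_mem (C : k →+* GR L (perp L)) hw)
    have := hch D
    simp only [x, y, hDx, hDy] at this
    rw [← this]
    apply Finset.sum_congr rfl
    intro i _
    ring
  obtain ⟨D1, hD1x, hD1y⟩ := exists_derivation h2 (h1.smul (-2))
  obtain ⟨D2, hD2x, hD2y⟩ := exists_derivation (pt_gX L (perp L)) ((pt_gY L (perp L)).smul (-2))
  let D := D1 - (g j * x j) • D2
  have hDU : ∀ i, D (UU L i) = 0 := by
    intro i
    rw [hder]
    simp only [D, Derivation.sub_apply, Derivation.smul_apply, smul_eq_mul]
    simp only [x, y, hD1x, hD1y, hD2x, hD2y]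
    ring
  have hDx : D (x j) = 0 := by
    simp only [D, Derivation.sub_apply, Derivation.smul_apply, smul_eq_mul]
    simp only [x, hD1x, hD2x]
    ring
  have hb := (indep_option hL i j).isTranscendenceBasis_of_lift_trdeg_le_of_finite (by
    rw [MvPolynomial.trdeg_of_isDomain]
    simp only [Cardinal.mk_fintype, Cardinal.lift_natCast, Nat.cast_le, Fintype.card_option,
      Fintype.card_sum, Fintype.card_fin, ne_eq, Fintype.card_subtype_compl, Fintype.card_unique]
    have h3 := finrank_perp L
    have h4 : 0 < Fintype.card E := Fintype.card_pos_iff.mpr ⟨i⟩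
    omega)
  have halg := hb.isAlgebraic
  have hkill : ∀ a ∈ Set.range (fun o : Option {i' // i' ≠ i} =>
      o.elim (gX L (perp L) j) (fun i' => UU L i'.1)), D a = 0 := by
    rintro _ ⟨o, rfl⟩
    cases o with
    | none => exact hDx
    | some i => exact hDU i.1
  have hzero := deriv_eq_zero_of_algebraic _ D hkill (x i)
  have hxi : x i ≠ 0 := gX_ne_zero (hL.not_loop i)
  simp only [D, Derivation.sub_apply, Derivation.smul_apply, smul_eq_mul] at hzero
  simp only [x, hD1x, hD2x] at hzero
  apply mul_right_cancel₀ hxi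
  simp only [x, g] at hzero ⊢
  linear_combination hzero

end Pool.Agent.W476
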