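import Pool.Agent.W476.Integral

/-!
The generator of the ideal of relations between the products `x_i² y_i`.
-/

set_option autoImplicit false

namespace Pool.Agent.W476

open Finset MvPolynomial

universe u v

/-- minimal polynomial along an injective ring homomorphism -/
theorem exists_minpoly {A B : Type*} [CommRing A] [IsDomain A] [IsIntegrallyClosed A]
    [CommRing B] [IsDomain B] (φ : A →+* B) (hφ : Function.Injective φ) {b : B}
    (hb : φ.IsIntegralElem b) : ∃ f : Polynomial A, f.Monic ∧ Irreducible f ∧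
      f.eval₂ φ b = 0 ∧ ∀ g : Polynomial A, g.eval₂ φ b = 0 → f ∣ g := by
  let _ : Algebra A B := φ.toAlgebra
  have : Module.IsTorsionFree A B := by
    rw [Module.isTorsionFree_iff_algebraMap_injective]
    exact hφ
  have hi : IsIntegral A b := hb
  refine ⟨minpoly A b, minpoly.monic hi, minpoly.irreducible hi, minpoly.aeval A b, ?_⟩
  intro g hg
  exact minpoly.isIntegrallyClosed_dvd hi hg

theorem dvd_of_root {A B : Type*} [CommRing A] [IsDomain A] [IsIntegrallyClosed A]
    [CommRing B] [IsDomain B] (φ : A →+* B) (hφ : Function.Injective φ) {b : B}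
    {f : Polynomial A} (hf : f.Monic) (hirr : Irreducible f) (h0 : f.eval₂ φ b = 0)
    (g : Polynomial A) (hg : g.eval₂ φ b = 0) : f ∣ g := by
  obtain ⟨f', hf', hirr', h0', hd⟩ := exists_minpoly φ hφ ⟨f, hf, h0⟩
  have h1 := hd f h0
  have h2 : Associated f' f := hirr'.associated_of_dvd hirr h1
  exact h2.symm.dvd.trans (hd g hg)

section phi

variable {k : Type u} [Field k] {E : Type v} [DecidableEq E]

/-- polynomials as polynomials in one distinguished variable -/
noncomputable def Phi (k : Type u) [Field k] {E : Type v} [DecidableEq E] (i0 : E) :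
    MvPolynomial E k ≃ₐ[k] Polynomial (MvPolynomial {i // i ≠ i0} k) :=
  (renameEquiv k (Equiv.optionSubtypeNe i0).symm).trans (optionEquivLeft k {i // i ≠ i0})

theorem Phi_C (i0 : E) (a : k) : Phi k i0 (C a) = Polynomial.C (C a) := by
  simp [Phi]

theorem Phi_self (i0 : E) : Phi k i0 (X i0) = Polynomial.X := by
  simp [Phi]

theorem Phi_X (i0 : E) (j : {i // i ≠ i0}) : Phi k i0 (X j.1) = Polynomial.C (X j) := by
  simp [Phi, Equiv.optionSubtypeNe_symm_of_ne j.2]

theorem Phi_eval {Ω : Type*} [CommRing Ω] (ρ : k →+* Ω) (p : E → Ω) (i0 : E)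
    (Q : MvPolynomial E k) :
    Polynomial.eval₂ (eval₂Hom ρ (fun j : {i // i ≠ i0} => p j.1)) (p i0) (Phi k i0 Q) =
      eval₂ ρ p Q := by
  have h : (Polynomial.eval₂RingHom (eval₂Hom ρ (fun j : {i // i ≠ i0} => p j.1)) (p i0)).comp
      (Phi k i0 : MvPolynomial E k →+* _) = eval₂Hom ρ p := by
    apply MvPolynomial.ringHom_ext
    · intro a
      simp [Phi_C]
    · intro i
      by_cases hi : i = i0
      · subst hi
        simp [Phi_self]
      · have := Phi_X (k := k) i0 ⟨i, hi⟩
        simp only at this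
        simp [this]
  exact congrArg (fun f => f Q) h

end phi

variable {k : Type u} [Field k] {E : Type v} [Fintype E]

theorem gX_hom (L1 L2 : Submodule k (E → k)) (i : E) : (gX L1 L2 i).IsHomogeneous 1 := by
  unfold gX
  apply IsHomogeneous.sum
  intro j _
  exact isHomogeneous_C_mul_X _ _

theorem gY_hom (L1 L2 : Submodule k (E → k)) (i : E) : (gY L1 L2 i).IsHomogeneous 1 := by
  unfold gY
  apply IsHomogeneous.sum
  intro j _
  exact isHomogeneous_C_mul_X _ _

theorem UU_hom (L : Submodule k (E → k)) (i : E) : (UU L i).IsHomogeneous 3 :=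
  ((gX_hom _ _ i).pow 2).mul (gY_hom _ _ i)

theorem KerP.comp {L : Submodule k (E → k)} {Q : MvPolynomial E k} (hQ : KerP L Q) (n : ℕ) :
    KerP L (homogeneousComponent n Q) := by
  unfold KerP at hQ ⊢
  have h1 : ∀ m, ((homogeneousComponent m Q).eval₂ (C : k →+* GR L (perp L))
      (UU L)).IsHomogeneous (3 * m) := by
    intro m
    exact (homogeneousComponent_isHomogeneous m Q).eval₂ _ _ (fun r => isHomogeneous_C _ r)
      (fun i => UU_hom L i)
  by_cases hn : Q.totalDegree < n
  · rw [homogeneousComponent_eq_zero n Q hn, eval₂_zero]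
  have h2 : ∑ m ∈ Finset.range (Q.totalDegree + 1),
      (homogeneousComponent m Q).eval₂ (C : k →+* GR L (perp L)) (UU L) = 0 := by
    rw [← hQ]
    conv_rhs => rw [← sum_homogeneousComponent Q]
    rw [eval₂_sum]
  have h3 := congrArg (homogeneousComponent (3 * n)) h2
  rw [map_zero, map_sum] at h3
  rw [Finset.sum_eq_single n] at h3
  · rw [homogeneousComponent_of_mem (h1 n), if_pos rfl] at h3
    exact h3
  · intro m _ hm
    rw [homogeneousComponent_of_mem (h1 m), if_neg (by omega)]
  · intro h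
    exact absurd (Finset.mem_range.mpr (by omega)) h

variable [DecidableEq E]

/-- `F` generates the ideal of relations -/
structure Gen (L : Submodule k (E → k)) (F : MvPolynomial E k) : Prop where
  mem : KerP L F
  dvd : ∀ Q, KerP L Q → F ∣ Q
  irr : Irreducible F
  hom : F.IsHomogeneous F.totalDegree

theorem inj_of_indep {I : Type*} {Ω : Type*} [CommRing Ω] {ρ : k →+* Ω} {w : I → Ω}
    (h : Indep ρ w) : Function.Injective (eval₂Hom ρ w) := by
  rw [injective_iff_map_eq_zero]
  intro Q hQ
  exact h Q hQ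

theorem exists_gen_aux {L : Submodule k (E → k)} (hL : Good L) (i0 : E) :
    ∃ f : Polynomial (MvPolynomial {i // i ≠ i0} k), f.Monic ∧ Irreducible f ∧
      KerP L ((Phi k i0).symm f) ∧ ∀ Q, KerP L Q → f ∣ Phi k i0 Q := by
  have hd := dom (k := k) _ E rfl L hL i0
  obtain ⟨f, hf, hirr, h0, hd⟩ := exists_minpoly _ (inj_of_indep hd) (integral_UU L i0)
  refine ⟨f, hf, hirr, ?_, ?_⟩
  · unfold KerP
    rw [← Phi_eval C (UU L) i0, AlgEquiv.apply_symm_apply]
    exact h0
  · intro Q hQ
    apply hd
    rw [Phi_eval C (UU L) i0]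
    exact hQ

omit [DecidableEq E] [Fintype E] in
theorem homogeneousComponent_top_ne_zero {F : MvPolynomial E k} (hF : F ≠ 0) :
    homogeneousComponent F.totalDegree F ≠ 0 := by
  obtain ⟨m, hm, hm2⟩ := Finset.exists_mem_eq_sup F.support (support_nonempty.mpr hF)
    (fun s => s.sum fun _ e => e)
  intro h0
  have h1 := congrArg (coeff m) h0
  rw [coeff_homogeneousComponent, coeff_zero, if_pos] at h1
  · exact (mem_support_iff.mp hm) h1
  · unfold totalDegree
    rw [hm2]
    rfl

theorem exists_gen {L : Submodule k (E → k)} (hL : Good L) [Nonempty E] :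
    ∃ F, Gen L F := by
  obtain ⟨i0⟩ := ‹Nonempty E›
  obtain ⟨f, hf, hirr, hk, hd⟩ := exists_gen_aux hL i0
  have hirr2 : Irreducible ((Phi k i0).symm f) :=
    (MulEquiv.irreducible_iff (Phi k i0).symm.toMulEquiv).mpr hirr
  have hdvd : ∀ Q, KerP L Q → (Phi k i0).symm f ∣ Q := by
    intro Q hQ
    have := map_dvd (Phi k i0).symm (hd Q hQ)
    rwa [AlgEquiv.symm_apply_apply] at this
  refine ⟨(Phi k i0).symm f, hk, hdvd, hirr2, ?_⟩
  set F := (Phi k i0).symm f with hF
  have hFne : F ≠ 0 := hirr2.ne_zero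
  have h1 := hdvd _ (hk.comp F.totalDegree)
  obtain ⟨q, hq⟩ := h1
  have h2 := homogeneousComponent_top_ne_zero hFne
  have hqne : q ≠ 0 := by
    intro h0; rw [h0, mul_zero] at hq; exact h2 hq
  have h3 := (homogeneousComponent_isHomogeneous F.totalDegree F).totalDegree h2
  rw [hq, totalDegree_mul_of_isDomain hFne hqne] at h3
  have h4 : q.totalDegree = 0 := by omega
  rw [totalDegree_eq_zero_iff_eq_C] at h4
  have hc : q.coeff 0 ≠ 0 := by
    intro h0; rw [h0, map_zero] at h4; exact hqne h4
  have h5 : F = C (q.coeff 0)⁻¹ * homogeneousComponent F.totalDegree F := by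
    rw [hq, h4]
    simp only [coeff_C, if_true]
    rw [mul_comm F, ← mul_assoc, ← C_mul, inv_mul_cancel₀ hc, C_1, one_mul]
  rw [h5]
  have h6 := (homogeneousComponent_isHomogeneous F.totalDegree F).C_mul (q.coeff 0)⁻¹
  rw [← h5] at h6 ⊢
  exact h6

theorem Gen.poly {L : Submodule k (E → k)} (hL : Good L) {F : MvPolynomial E k} (hF : Gen L F)
    (i0 : E) : ∃ c : k, c ≠ 0 ∧ ∃ f : Polynomial (MvPolynomial {i // i ≠ i0} k), f.Monic ∧
      Irreducible f ∧ f.natDegree = F.totalDegree ∧
      Phi k i0 F = Polynomial.C (C c) * f := by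
  obtain ⟨f, hf, hirr, hk, hd⟩ := exists_gen_aux hL i0
  have h1 : F ∣ (Phi k i0).symm f := hF.dvd _ hk
  have h2 : (Phi k i0).symm f ∣ F := by
    have := map_dvd (Phi k i0).symm (hd F hF.mem)
    rwa [AlgEquiv.symm_apply_apply] at this
  obtain ⟨w, hw⟩ := associated_of_dvd_dvd h2 h1
  obtain ⟨c, hc, hc2⟩ := MvPolynomial.isUnit_iff_eq_C_of_isReduced.mp w.isUnit
  have hc0 : c ≠ 0 := hc.ne_zero
  have h3 : Phi k i0 F = Polynomial.C (C c) * f := by
    rw [← hw, hc2, map_mul, Phi_C, AlgEquiv.apply_symm_apply, mul_comm]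
  have h4 : ((Phi k i0).symm f).IsHomogeneous F.totalDegree := by
    have : (Phi k i0).symm f = C c⁻¹ * F := by
      rw [← hw, hc2, mul_comm, mul_assoc, ← C_mul, mul_inv_cancel₀ hc0, C_1, mul_one]
    rw [this]
    exact hF.hom.C_mul _
  refine ⟨c, hc0, f, hf, hirr, ?_, h3⟩
  have hsymm : (optionEquivLeft k {i // i ≠ i0}).symm f =
      rename (Equiv.optionSubtypeNe i0).symm ((Phi k i0).symm f) := by
    apply (optionEquivLeft k {i // i ≠ i0}).injective
    rw [AlgEquiv.apply_symm_apply]
    have := (Phi k i0).apply_symm_apply f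
    exact this.symm
  have h5 : ((optionEquivLeft k {i // i ≠ i0}).symm f).IsHomogeneous F.totalDegree := by
    rw [hsymm]
    exact h4.rename_isHomogeneous
  have h6 : f.natDegree ≤ F.totalDegree := by
    have e1 := degreeOf_eq_natDegree i0 ((Phi k i0).symm f)
    rw [← hsymm, AlgEquiv.apply_symm_apply] at e1
    rw [← e1]
    have e2 := degreeOf_le_totalDegree ((Phi k i0).symm f) i0
    have e3 := h4.totalDegree_le
    omega
  have h7 := IsHomogeneous.coeff_isHomogeneous_of_optionEquivLeft_symm h5 f.natDegree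
    (F.totalDegree - f.natDegree) (by omega)
  rw [Polynomial.Monic.coeff_natDegree hf] at h7
  have h8 := h7.inj_right (isHomogeneous_one _ _) one_ne_zero
  omega

end Pool.Agent.W476
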