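import Pool.Agent.W476.Main
import Pool.Agent.W476.DualDefs

/-!
Geometry of reciprocal linear spaces: tangent spaces, smooth points and conormal vectors.
-/

set_option autoImplicit false

namespace Pool.Agent.W476

open Finset MvPolynomial DV

theorem eval₂_scale {k σ R : Type*} [CommRing k] [CommRing R] [Fintype σ] {f : MvPolynomial σ k}
    {m : ℕ} (hf : f.IsHomogeneous m) (ρ : k →+* R) (c : R) (w : σ → R) :
    eval₂ ρ (fun i => c * w i) f = c ^ m * eval₂ ρ w f := by
  rw [eval₂_eq', eval₂_eq', Finset.mul_sum]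
  apply Finset.sum_congr rfl
  intro d hd
  have h1 : ∑ i, d i = m := by
    have := hf (mem_support_iff.mp hd)
    rw [Finsupp.weight_apply] at this
    rw [← this, Finsupp.sum_fintype]
    · simp
    · simp
  simp only [mul_pow, Finset.prod_mul_distrib, Finset.prod_pow_eq_pow_sum, h1]
  ring

theorem eval_scale {σ R : Type*} [CommRing R] [Fintype σ] {f : MvPolynomial σ R}
    {m : ℕ} (hf : f.IsHomogeneous m) (c : R) (w : σ → R) :
    eval (fun i => c * w i) f = c ^ m * eval w f :=
  eval₂_scale hf (RingHom.id R) c w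

variable {n : ℕ}

/-- cone over the reciprocals of the vectors of `L` without zero coordinates -/
def CL (L : Submodule ℂ (Fin (n + 1) → ℂ)) : Set (Fin (n + 1) → ℂ) :=
  {w | (∀ i, w i ≠ 0) ∧ (fun i => (w i)⁻¹) ∈ L}

/-- the corresponding subset of projective space -/
def S0 (L : Submodule ℂ (Fin (n + 1) → ℂ)) : Set (PP n) := {p | p.rep ∈ CL L}

theorem CL_smul {L : Submodule ℂ (Fin (n + 1) → ℂ)} {w : Fin (n + 1) → ℂ} (hw : w ∈ CL L)
    {c : ℂ} (hc : c ≠ 0) : (fun i => c * w i) ∈ CL L := by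
  refine ⟨fun i => mul_ne_zero hc (hw.1 i), ?_⟩
  have h := L.smul_mem c⁻¹ hw.2
  have h2 : (fun i => (c * w i)⁻¹) = c⁻¹ • (fun i => (w i)⁻¹) := by
    funext i
    simp only [Pi.smul_apply, smul_eq_mul, mul_inv]
  rw [h2]
  exact h

theorem CL_smul_iff {L : Submodule ℂ (Fin (n + 1) → ℂ)} {w : Fin (n + 1) → ℂ}
    {c : ℂ} (hc : c ≠ 0) : (fun i => c * w i) ∈ CL L ↔ w ∈ CL L := by
  constructor
  · intro h
    have := CL_smul h (inv_ne_zero hc)
    have h2 : (fun i => c⁻¹ * (c * w i)) = w := by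
      funext i
      rw [← mul_assoc, inv_mul_cancel₀ hc, one_mul]
    rwa [h2] at this
  · intro h
    exact CL_smul h hc

theorem rep_mk (w : Fin (n + 1) → ℂ) (hw : w ≠ 0) :
    ∃ c : ℂ, c ≠ 0 ∧ (Projectivization.mk ℂ w hw).rep = fun i => c * w i := by
  obtain ⟨a, ha⟩ := Projectivization.exists_smul_eq_mk_rep ℂ w hw
  exact ⟨a, a.ne_zero, by rw [← ha]; rfl⟩

theorem mk_mem_S0 {L : Submodule ℂ (Fin (n + 1) → ℂ)} (w : Fin (n + 1) → ℂ) (hw : w ≠ 0) :
    Projectivization.mk ℂ w hw ∈ S0 L ↔ w ∈ CL L := by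
  obtain ⟨c, hc, h⟩ := rep_mk w hw
  change (Projectivization.mk ℂ w hw).rep ∈ CL L ↔ _
  rw [h, CL_smul_iff hc]

theorem vanish_mk {m : ℕ} {f : MvPolynomial (Fin (n + 1)) ℂ} (hf : f.IsHomogeneous m)
    (w : Fin (n + 1) → ℂ) (hw : w ≠ 0) :
    eval (Projectivization.mk ℂ w hw).rep f = 0 ↔ eval w f = 0 := by
  obtain ⟨c, hc, h⟩ := rep_mk w hw
  rw [h, eval_scale hf]
  constructor
  · intro h
    exact (mul_eq_zero.mp h).resolve_left (pow_ne_zero m hc)
  · intro h
    rw [h, mul_zero]

theorem ne_zero_of_CL {L : Submodule ℂ (Fin (n + 1) → ℂ)} {w : Fin (n + 1) → ℂ} (hw : w ∈ CL L) :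
    w ≠ 0 := by
  intro h
  apply hw.1 0
  rw [h]; rfl

theorem vanish_CL {L : Submodule ℂ (Fin (n + 1) → ℂ)} {m : ℕ}
    {f : MvPolynomial (Fin (n + 1)) ℂ} (hf : f.IsHomogeneous m)
    (h : ∀ p ∈ S0 L, eval p.rep f = 0) {w : Fin (n + 1) → ℂ} (hw : w ∈ CL L) : eval w f = 0 := by
  have h1 := ne_zero_of_CL hw
  rw [← vanish_mk hf w h1]
  exact h _ ((mk_mem_S0 w h1).mpr hw)

/-- polynomials vanishing on the cone vanish on the closure -/
theorem zc_eval {L : Submodule ℂ (Fin (n + 1) → ℂ)} {G : MvPolynomial (Fin (n + 1)) ℂ}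
    (hG : ∀ w ∈ CL L, eval w G = 0) {q : PP n} (hq : q ∈ zclosure (S0 L)) :
    eval q.rep G = 0 := by
  have h1 : ∀ m, ∀ p ∈ S0 L, eval p.rep (homogeneousComponent m G) = 0 := by
    intro m p hp
    by_cases hm : G.totalDegree < m
    · rw [homogeneousComponent_eq_zero m G hm, map_zero]
    let P : Polynomial ℂ := ∑ j ∈ Finset.range (G.totalDegree + 1),
      Polynomial.C (eval p.rep (homogeneousComponent j G)) * Polynomial.X ^ j
    have hP : P = 0 := by
      apply Polynomial.eq_zero_of_infinite_isRoot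
      apply Set.infinite_of_injective_forall_mem (f := fun a : ℕ => ((a : ℂ) + 1))
      · intro a b hab
        simpa using hab
      · intro a
        have hc : ((a : ℂ) + 1) ≠ 0 := Nat.cast_add_one_ne_zero a
        have h2 := hG _ (CL_smul hp hc)
        rw [← sum_homogeneousComponent G, map_sum] at h2
        change Polynomial.eval ((a : ℂ) + 1) P = 0
        rw [Polynomial.eval_finsetSum, ← h2]
        apply Finset.sum_congr rfl
        intro j _
        rw [eval_scale (homogeneousComponent_isHomogeneous j G), Polynomial.eval_mul,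
          Polynomial.eval_C, Polynomial.eval_pow, Polynomial.eval_X]
        ring
    have h3 := congrArg (fun R : Polynomial ℂ => R.coeff m) hP
    simp only [P, Polynomial.finsetSum_coeff, Polynomial.coeff_C_mul, Polynomial.coeff_X_pow,
      Polynomial.coeff_zero] at h3
    rw [Finset.sum_eq_single m] at h3
    · simpa using h3
    · intro j _ hj
      rw [if_neg (Ne.symm hj), mul_zero]
    · intro h
      exact absurd (Finset.mem_range.mpr (by omega)) h
  rw [← sum_homogeneousComponent G, map_sum]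
  apply Finset.sum_eq_zero
  intro m _
  exact hq m _ (homogeneousComponent_isHomogeneous m G) (h1 m)

/-- density of the complex points -/
theorem density {L : Submodule ℂ (Fin (n + 1) → ℂ)} (hL : Good L) {Q : GR L (perp L)}
    (h : ∀ φ : GR L (perp L) →+* ℂ, φ.comp C = RingHom.id ℂ →
      (fun i => φ (gX L (perp L) i)) ∈ L → (fun i => φ (gY L (perp L) i)) ∈ perp L →
      (∀ i, φ (gX L (perp L) i) ≠ 0) → φ Q = 0) : Q = 0 := by
  have h1 : Q * ∏ i, gX L (perp L) i = 0 := by
    apply MvPolynomial.funext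
    intro v
    rw [map_zero, map_mul, map_prod]
    by_cases hv : ∀ i, eval v (gX L (perp L) i) ≠ 0
    · rw [h (eval v) ?_ ?_ ?_ hv, zero_mul]
      · ext a; simp
      · have h2 := (pt_gX L (perp L)).map (eval v)
        have h3 : (eval v).comp (C : ℂ →+* GR L (perp L)) = RingHom.id ℂ := by
          ext a; simp
        rw [h3, pt_id] at h2
        exact h2
      · have h2 := (pt_gY L (perp L)).map (eval v)
        have h3 : (eval v).comp (C : ℂ →+* GR L (perp L)) = RingHom.id ℂ := by
          ext a; simp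
        rw [h3, pt_id] at h2
        exact h2
    · push Not at hv
      obtain ⟨i, hi⟩ := hv
      rw [Finset.prod_eq_zero (Finset.mem_univ i) hi, mul_zero]
  refine (mul_eq_zero.mp h1).resolve_right ?_
  exact Finset.prod_ne_zero_iff.mpr (fun i _ => gX_ne_zero (hL.not_loop i))

/-- there is a vector of `L` without zero coordinates -/
theorem exists_torus {L : Submodule ℂ (Fin (n + 1) → ℂ)} (hL : Good L) :
    ∃ x ∈ L, ∀ i, x i ≠ 0 := by
  by_contra hcon
  push Not at hcon
  have : (1 : GR L (perp L)) = 0 := by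
    apply density hL
    intro φ _ hx _ hx0
    obtain ⟨i, hi⟩ := hcon _ hx
    exact absurd hi (hx0 i)
  exact one_ne_zero this

theorem exists_CL {L : Submodule ℂ (Fin (n + 1) → ℂ)} (hL : Good L) : ∃ w, w ∈ CL L := by
  obtain ⟨x, hx, hx0⟩ := exists_torus hL
  refine ⟨fun i => (x i)⁻¹, fun i => inv_ne_zero (hx0 i), ?_⟩
  simpa using hx

theorem exists_S0 {L : Submodule ℂ (Fin (n + 1) → ℂ)} (hL : Good L) : ∃ p, p ∈ S0 L := by
  obtain ⟨w, hw⟩ := exists_CL hL
  exact ⟨_, (mk_mem_S0 w (ne_zero_of_CL hw)).mpr hw⟩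

open DualNumber in
/-- differentials of the equations kill `w² L` -/
theorem tangent1 {L : Submodule ℂ (Fin (n + 1) → ℂ)} (hL : Good L) {m : ℕ}
    {f : MvPolynomial (Fin (n + 1)) ℂ} (hf : f.IsHomogeneous m)
    (hv : ∀ w ∈ CL L, eval w f = 0) {w : Fin (n + 1) → ℂ} (hw : w ∈ CL L)
    {z : Fin (n + 1) → ℂ} (hz : z ∈ L) : ∑ i, eval w (pderiv i f) * (w i ^ 2 * z i) = 0 := by
  classical
  have h0 : f.eval₂ C (fun i => ∏ j ∈ Finset.univ.erase i, gX L (perp L) j) = 0 := by
    apply density hL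
    intro φ hφ hx hy hx0
    rw [hom_eval₂, hφ]
    have h1 : (fun i => (φ (gX L (perp L) i))⁻¹) ∈ CL L :=
      ⟨fun i => inv_ne_zero (hx0 i), by simpa using hx⟩
    have h2 := hv _ h1
    have h3 : (fun i => φ (∏ j ∈ Finset.univ.erase i, gX L (perp L) j)) =
        (fun i => (∏ j, φ (gX L (perp L) j)) * (φ (gX L (perp L) i))⁻¹) := by
      funext i
      simp only [map_prod]
      rw [← Finset.mul_prod_erase Finset.univ (fun j => φ (gX L (perp L) j)) (Finset.mem_univ i)]
      have := hx0 i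
      field_simp
    rw [h3]
    have h4 := eval_scale hf (∏ j, φ (gX L (perp L) j)) (fun i => (φ (gX L (perp L) i))⁻¹)
    rw [h2, mul_zero] at h4
    exact h4
  set ι := algebraMap ℂ (DualNumber ℂ) with hι
  have hε : (ε : DualNumber ℂ) * ε = 0 := DualNumber.eps_mul_eps
  have hX : Pt L ι (fun i => ι ((w i)⁻¹) + ι (z i) * ε) := by
    have h1 := (pt_id.mpr hw.2).map ι
    have h2 := ((pt_id.mpr hz).map ι).smul ε
    rw [RingHom.comp_id] at h1 h2
    intro a ha
    rw [← (h1.add h2) a ha]
    apply Finset.sum_congr rfl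
    intro i _
    ring
  obtain ⟨φ, hφ, hφX, _⟩ := exists_ev hX (Pt.zero (L := perp L) (ρ := ι))
  have h5 := congrArg φ h0
  rw [map_zero, hom_eval₂, hφ] at h5
  have hinv : ∀ i, (ι ((w i)⁻¹) + ι (z i) * ε) * (ι (w i) + ι (-(w i ^ 2 * z i)) * ε) = 1 := by
    intro i
    have h6 : ι ((w i)⁻¹) * ι (w i) = 1 := by
      rw [← map_mul, inv_mul_cancel₀ (hw.1 i), map_one]
    simp only [map_neg, map_mul, map_pow]
    linear_combination (1 - ι (w i) * ι (z i) * ε) * h6 - (ι (z i) ^ 2 * ι (w i) ^ 2) * hε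
  have h6 : (fun i => φ (∏ j ∈ Finset.univ.erase i, gX L (perp L) j)) =
      (fun i => (∏ j, (ι ((w j)⁻¹) + ι (z j) * ε)) * (ι (w i) + ι (-(w i ^ 2 * z i)) * ε)) := by
    funext i
    simp only [map_prod, hφX]
    rw [← Finset.mul_prod_erase Finset.univ (fun j => (ι ((w j)⁻¹) + ι (z j) * ε))
      (Finset.mem_univ i)]
    linear_combination (-(∏ j ∈ Finset.univ.erase i, (ι ((w j)⁻¹) + ι (z j) * ε))) * hinv i
  rw [h6, eval₂_scale hf] at h5
  have h7 : (∏ j, (ι ((w j)⁻¹) + ι (z j) * ε)) * (∏ j, (ι (w j) + ι (-(w j ^ 2 * z j)) * ε)) = 1 := by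
    rw [← Finset.prod_mul_distrib]
    exact Finset.prod_eq_one (fun i _ => hinv i)
  have h8 : eval₂ ι (fun i => ι (w i) + ι (-(w i ^ 2 * z i)) * ε) f = 0 := by
    have h9 : (∏ j, (ι (w j) + ι (-(w j ^ 2 * z j)) * ε)) ^ m *
        ((∏ j, (ι ((w j)⁻¹) + ι (z j) * ε)) ^ m *
          eval₂ ι (fun i => ι (w i) + ι (-(w i ^ 2 * z i)) * ε) f) = 0 := by
      rw [h5, mul_zero]
    rw [← mul_assoc, ← mul_pow, mul_comm (∏ j, (ι (w j) + ι (-(w j ^ 2 * z j)) * ε)), h7,
      one_pow, one_mul] at h9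
    exact h9
  have h10 := eval₂_dual (RingHom.id ℂ) w (fun i => -(w i ^ 2 * z i)) f
  rw [RingHom.comp_id] at h10
  rw [h10] at h8
  have h11 := (dual_inj h8).2
  have h12 : ∑ i, eval₂ (RingHom.id ℂ) w (pderiv i f) * -(w i ^ 2 * z i) =
      - ∑ i, eval w (pderiv i f) * (w i ^ 2 * z i) := by
    rw [← Finset.sum_neg_distrib]
    apply Finset.sum_congr rfl
    intro i _
    rw [eval₂_id]
    ring
  rw [h12, neg_eq_zero] at h11
  exact h11

theorem pderiv_prod_mul {k σ : Type*} [CommRing k] [DecidableEq σ] (s : Finset σ) (j : σ) :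
    pderiv j (∏ l ∈ s, X l : MvPolynomial σ k) * X j = if j ∈ s then ∏ l ∈ s, X l else 0 := by
  induction s using Finset.induction_on with
  | empty => simp
  | insert a s ha ih =>
    rw [Finset.prod_insert ha, pderiv_mul, add_mul]
    by_cases hj : j = a
    · subst hj
      rw [if_neg ha] at ih
      rw [pderiv_X_self, if_pos (Finset.mem_insert_self _ _), mul_assoc (X j), ih]
      ring
    · rw [pderiv_X_of_ne (Ne.symm hj), zero_mul, zero_mul, zero_add, mul_assoc, ih]
      by_cases hjs : j ∈ s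
      · rw [if_pos hjs, if_pos (Finset.mem_insert_of_mem hjs)]
      · rw [if_neg hjs, if_neg (by simp [hj, hjs]), mul_zero]

/-- the equation of the reciprocal linear space attached to a linear form vanishing on `L` -/
noncomputable def fa (a : Fin (n + 1) → ℂ) : MvPolynomial (Fin (n + 1)) ℂ :=
  ∑ i, C (a i) * ∏ j ∈ Finset.univ.erase i, X j

theorem fa_hom (a : Fin (n + 1) → ℂ) : (fa a).IsHomogeneous n := by
  unfold fa
  apply IsHomogeneous.sum
  intro i _
  have h1 := IsHomogeneous.prod (Finset.univ.erase i) (fun j => (X j : MvPolynomial (Fin (n + 1)) ℂ))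
    (fun _ => 1) (fun j _ => isHomogeneous_X ℂ j)
  simp only [Finset.sum_const, smul_eq_mul, mul_one, Finset.card_erase_of_mem (Finset.mem_univ i),
    Finset.card_univ, Fintype.card_fin, Nat.add_sub_cancel] at h1
  exact h1.C_mul (a i)

theorem fa_eval (a : Fin (n + 1) → ℂ) (w : Fin (n + 1) → ℂ) (hw : ∀ i, w i ≠ 0) :
    eval w (fa a) = (∏ j, w j) * ∑ i, a i * (w i)⁻¹ := by
  unfold fa
  rw [map_sum, Finset.mul_sum]
  apply Finset.sum_congr rfl
  intro i _
  rw [map_mul, eval_C, map_prod, ← Finset.mul_prod_erase Finset.univ w (Finset.mem_univ i)]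
  simp only [eval_X]
  have := hw i
  field_simp

theorem fa_deriv (a : Fin (n + 1) → ℂ) (w : Fin (n + 1) → ℂ)
    (j : Fin (n + 1)) : eval w (pderiv j (fa a)) * w j = eval w (fa a) -
      a j * ∏ l ∈ Finset.univ.erase j, w l := by
  have h1 : pderiv j (fa a) * X j = fa a - C (a j) * ∏ l ∈ Finset.univ.erase j, X l := by
    unfold fa
    rw [map_sum, Finset.sum_mul, ← Finset.sum_erase_eq_sub (Finset.mem_univ j),
      ← Finset.add_sum_erase _ _ (Finset.mem_univ j)]
    have h2 : ∀ i, pderiv j (C (a i) * ∏ l ∈ Finset.univ.erase i, X l) * X j =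
        C (a i) * (if j ∈ Finset.univ.erase i then ∏ l ∈ Finset.univ.erase i,
          (X l : MvPolynomial (Fin (n + 1)) ℂ) else 0) := by
      intro i
      rw [pderiv_C_mul, mul_assoc, pderiv_prod_mul]
    rw [h2, if_neg (by simp), mul_zero, zero_add]
    apply Finset.sum_congr rfl
    intro i hi
    rw [h2, if_pos (by
      rw [Finset.mem_erase] at hi ⊢
      exact ⟨Ne.symm hi.1, Finset.mem_univ _⟩)]
  have h2 := congrArg (eval w) h1
  rw [map_mul, map_sub, map_mul, eval_X, eval_C, map_prod] at h2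
  simpa using h2

theorem mem_zclosure_vanish {S : Set (PP n)} {m : ℕ} {f : MvPolynomial (Fin (n + 1)) ℂ}
    (hf : f.IsHomogeneous m) : (∀ q ∈ zclosure S, eval q.rep f = 0) ↔ ∀ q ∈ S, eval q.rep f = 0 :=
  ⟨fun h q hq => h q (fun _ _ _ h2 => h2 q hq), fun h _ hq => hq m f hf h⟩

theorem subset_zclosure (S : Set (PP n)) : S ⊆ zclosure S := fun q hq _ _ _ h => h q hq

/-- tangent space at a point of the torus -/
theorem tangent_iff {L : Submodule ℂ (Fin (n + 1) → ℂ)} (hL : Good L) {p : PP n} (hp : p ∈ S0 L)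
    (v : Fin (n + 1) → ℂ) :
    v ∈ tangentSpace (zclosure (S0 L)) p ↔ ∃ z ∈ L, v = fun i => p.rep i ^ 2 * z i := by
  have hp' : p.rep ∈ CL L := hp
  constructor
  · intro h
    refine ⟨fun i => v i * ((p.rep i)⁻¹) ^ 2, ?_, ?_⟩
    · rw [← perp_perp L]
      intro a ha
      have h1 : ∀ q ∈ zclosure (S0 L), eval q.rep (fa a) = 0 := by
        rw [mem_zclosure_vanish (fa_hom a)]
        intro q hq
        rw [fa_eval a _ hq.1]
        have := ha _ hq.2
        rw [this, mul_zero]
      have h2 := h n (fa a) (fa_hom a) h1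
      have h3 : ∀ j, eval p.rep (pderiv j (fa a)) =
          -((∏ l, p.rep l) * (a j * ((p.rep j)⁻¹) ^ 2)) := by
        intro j
        have h4 := fa_deriv a p.rep j
        rw [fa_eval a _ hp'.1, ha _ hp'.2, mul_zero, zero_sub] at h4
        have h5 := hp'.1 j
        rw [← Finset.mul_prod_erase Finset.univ p.rep (Finset.mem_univ j)]
        field_simp
        linear_combination h4
      have h6 : (∏ l, p.rep l) ≠ 0 := Finset.prod_ne_zero_iff.mpr (fun i _ => hp'.1 i)
      apply mul_left_cancel₀ h6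
      rw [mul_zero, ← neg_eq_zero, ← h2, Finset.mul_sum, ← Finset.sum_neg_distrib]
      apply Finset.sum_congr rfl
      intro i _
      rw [h3 i]
      ring
    · funext i
      have := hp'.1 i
      field_simp
  · rintro ⟨z, hz, rfl⟩
    intro m f hf hX
    rw [mem_zclosure_vanish hf] at hX
    exact tangent1 hL hf (fun w hw => vanish_CL hf hX hw) hp' hz

theorem tangent_eq_map {L : Submodule ℂ (Fin (n + 1) → ℂ)} (hL : Good L) {p : PP n}
    (hp : p ∈ S0 L) : tangentSpace (zclosure (S0 L)) p =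
      L.map (LinearMap.mulLeft ℂ (fun i => p.rep i ^ 2)) := by
  ext v
  rw [tangent_iff hL hp]
  constructor
  · rintro ⟨z, hz, rfl⟩
    exact ⟨z, hz, rfl⟩
  · rintro ⟨z, hz, rfl⟩
    exact ⟨z, hz, rfl⟩

theorem finrank_map_mul {L : Submodule ℂ (Fin (n + 1) → ℂ)} {w : Fin (n + 1) → ℂ}
    (hw : ∀ i, w i ≠ 0) :
    Module.finrank ℂ (L.map (LinearMap.mulLeft ℂ (fun i => w i ^ 2))) = Module.finrank ℂ L := by
  apply finrank_map_of_inj
  intro z _ h0
  funext i
  have := congrFun h0 i
  exact (mul_eq_zero.mp this).resolve_left (pow_ne_zero 2 (hw i))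

theorem finrank_tangent {L : Submodule ℂ (Fin (n + 1) → ℂ)} (hL : Good L) {p : PP n}
    (hp : p ∈ S0 L) :
    Module.finrank ℂ (tangentSpace (zclosure (S0 L)) p) = Module.finrank ℂ L := by
  rw [tangent_eq_map hL hp]
  exact finrank_map_mul hp.1

/-- differentials at `q` of the equations of `X` -/
def diffs (X : Set (PP n)) (q : PP n) : Set (Fin (n + 1) → ℂ) :=
  {g | ∃ (m : ℕ) (f : MvPolynomial (Fin (n + 1)) ℂ), f.IsHomogeneous m ∧
    (∀ q' ∈ X, eval q'.rep f = 0) ∧ g = fun i => eval q.rep (pderiv i f)}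

theorem tangent_eq_perp (X : Set (PP n)) (q : PP n) :
    tangentSpace X q = perp (Submodule.span ℂ (diffs X q)) := by
  ext v
  constructor
  · intro h z hz
    induction hz using Submodule.span_induction with
    | mem z hz =>
      obtain ⟨m, f, hf, hX, rfl⟩ := hz
      rw [← h m f hf hX]
      exact Finset.sum_congr rfl (fun i _ => mul_comm _ _)
    | zero => simp
    | add a b _ _ ha hb =>
      simp only [Pi.add_apply, mul_add, Finset.sum_add_distrib, ha, hb, add_zero]
    | smul c a _ ha =>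
      have h2 : ∀ i, v i * (c • a) i = c * (v i * a i) := by
        intro i
        simp only [Pi.smul_apply, smul_eq_mul]
        ring
      simp only [h2, ← Finset.mul_sum, ha, mul_zero]
  · intro h m f hf hX
    have := h _ (Submodule.subset_span ⟨m, f, hf, hX, rfl⟩)
    rw [← this]
    exact Finset.sum_congr rfl (fun i _ => mul_comm _ _)

/-- the tangent spaces at the other points are not smaller -/
theorem le_finrank {L : Submodule ℂ (Fin (n + 1) → ℂ)} (hL : Good L) {q : PP n}
    (hq : q ∈ zclosure (S0 L)) :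
    Module.finrank ℂ L ≤ Module.finrank ℂ (tangentSpace (zclosure (S0 L)) q) := by
  classical
  by_contra hlt
  rw [not_le, tangent_eq_perp] at hlt
  have h1 := finrank_perp (Submodule.span ℂ (diffs (zclosure (S0 L)) q))
  obtain ⟨b, hb, hbs, hbi⟩ := exists_linearIndependent ℂ (diffs (zclosure (S0 L)) q)
  have : Finite b := hbi.setFinite
  have : Fintype b := Fintype.ofFinite b
  have h2 : Fintype.card b = Module.finrank ℂ (Submodule.span ℂ (diffs (zclosure (S0 L)) q)) := by
    rw [← hbs, finrank_span_set_eq_card hbi, Set.toFinset_card]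
  have h3 : ∀ g : b, ∃ (m : ℕ) (f : MvPolynomial (Fin (n + 1)) ℂ), f.IsHomogeneous m ∧
    (∀ q' ∈ zclosure (S0 L), eval q'.rep f = 0) ∧
    (g : Fin (n + 1) → ℂ) = fun i => eval q.rep (pderiv i f) := fun g => hb g.2
  choose m f hf hfX hfg using h3
  obtain ⟨T, hT⟩ := LinearMap.exists_leftInverse_of_injective
    (Finsupp.linearCombination ℂ (fun g : b => (g : Fin (n + 1) → ℂ))) (LinearMap.ker_eq_bot.mpr hbi)
  let φ : b → Fin (n + 1) → ℂ := fun i l => T (Pi.single l 1) i
  have hφ : ∀ i j : b, ∑ l, φ i l * (j : Fin (n + 1) → ℂ) l = if i = j then 1 else 0 := by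
    intro i j
    have h4 : T (j : Fin (n + 1) → ℂ) = Finsupp.single j 1 := by
      have := congrArg (fun g => g (Finsupp.single j 1)) hT
      simpa using this
    have h5 : (j : Fin (n + 1) → ℂ) = ∑ l, (j : Fin (n + 1) → ℂ) l • (Pi.single l (1 : ℂ) :
        Fin (n + 1) → ℂ) := by
      ext i
      simp [Finset.sum_apply, Pi.single_apply]
    have h6 : T (j : Fin (n + 1) → ℂ) i = ∑ l, φ i l * (j : Fin (n + 1) → ℂ) l := by
      conv_lhs => rw [h5]
      simp only [map_sum, map_smul, Finsupp.finsetSum_apply, Finsupp.smul_apply, smul_eq_mul, φ]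
      exact Finset.sum_congr rfl (fun l _ => mul_comm _ _)
    rw [← h6, h4, Finsupp.single_apply]
    simp only [eq_comm]
  let M : Matrix b b (MvPolynomial (Fin (n + 1)) ℂ) :=
    Matrix.of (fun i j => ∑ l, C (φ i l) * pderiv l (f j))
  have hM : ∀ w : Fin (n + 1) → ℂ, eval w M.det =
      (Matrix.of (fun i j : b => ∑ l, φ i l * eval w (pderiv l (f j)))).det := by
    intro w
    rw [RingHom.map_det]
    congr 1
    ext i j
    simp [M]
  have h7 : eval q.rep M.det = 1 := by
    rw [hM]
    have : (Matrix.of (fun i j : b => ∑ l, φ i l * eval q.rep (pderiv l (f j)))) = 1 := by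
      ext i j
      rw [Matrix.of_apply, Matrix.one_apply, ← hφ i j]
      apply Finset.sum_congr rfl
      intro l _
      rw [hfg j]
    rw [this, Matrix.det_one]
  have h8 : eval q.rep M.det = 0 := by
    refine zc_eval (L := L) ?_ hq
    intro w hw
    rw [hM, ← Matrix.exists_mulVec_eq_zero_iff]
    -- the differentials at `w` lie in a small space
    let u : b → perp (L.map (LinearMap.mulLeft ℂ (fun i => w i ^ 2))) := fun j =>
      ⟨fun l => eval w (pderiv l (f j)), by
        rintro _ ⟨z, hz, rfl⟩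
        exact tangent1 hL (hf j) (fun w hw => vanish_CL (hf j)
          ((mem_zclosure_vanish (hf j)).mp (hfX j)) hw) hw hz⟩
    have h9 : ¬ LinearIndependent ℂ u := by
      intro h
      have h10 := h.fintype_card_le_finrank
      have h11 := finrank_perp (L.map (LinearMap.mulLeft ℂ (fun i => w i ^ 2)))
      rw [finrank_map_mul hw.1] at h11
      omega
    rw [Fintype.not_linearIndependent_iff] at h9
    obtain ⟨e, he, i0, hi0⟩ := h9
    refine ⟨e, ?_, ?_⟩
    · intro h
      apply hi0
      rw [h]; rfl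
    · funext i
      simp only [Matrix.mulVec, dotProduct, Matrix.of_apply, Pi.zero_apply]
      have h12 : ∀ l, ∑ j, e j * eval w (pderiv l (f j)) = 0 := by
        intro l
        have h13 := congrFun (congrArg Subtype.val he) l
        simpa [u] using h13
      calc ∑ j, (∑ l, φ i l * eval w (pderiv l (f j))) * e j
          = ∑ l, φ i l * ∑ j, e j * eval w (pderiv l (f j)) := by
            simp only [Finset.sum_mul, Finset.mul_sum]
            rw [Finset.sum_comm]
            apply Finset.sum_congr rfl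
            intro l _
            apply Finset.sum_congr rfl
            intro j _
            ring
        _ = 0 := by simp only [h12, mul_zero, Finset.sum_const_zero]
  rw [h7] at h8
  exact one_ne_zero h8

/-- smooth points -/
theorem smooth_iff {L : Submodule ℂ (Fin (n + 1) → ℂ)} (hL : Good L) (p : PP n) :
    IsSmoothPt (zclosure (S0 L)) p ↔ p ∈ zclosure (S0 L) ∧
      Module.finrank ℂ (tangentSpace (zclosure (S0 L)) p) = Module.finrank ℂ L := by
  obtain ⟨p0, hp0⟩ := exists_S0 hL
  constructor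
  · rintro ⟨hp, h⟩
    refine ⟨hp, le_antisymm ?_ (le_finrank hL hp)⟩
    rw [← finrank_tangent hL hp0]
    exact h p0 (subset_zclosure _ hp0)
  · rintro ⟨hp, h⟩
    refine ⟨hp, fun q hq => ?_⟩
    rw [h]
    exact le_finrank hL hq

/-- conormal vectors at arbitrary points are limits of conormal vectors at torus points -/
theorem conormal {L : Submodule ℂ (Fin (n + 1) → ℂ)} (hL : Good L)
    {g : MvPolynomial (Fin (n + 1)) ℂ}
    (hg : ∀ x ∈ L, (∀ i, x i ≠ 0) → ∀ y ∈ perp L, eval (fun i => x i ^ 2 * y i) g = 0)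
    {q : PP n} (hq : q ∈ zclosure (S0 L)) {w : Fin (n + 1) → ℂ}
    (hw : ∀ v ∈ tangentSpace (zclosure (S0 L)) q, ∑ i, w i * v i = 0) : eval w g = 0 := by
  have h1 : w ∈ Submodule.span ℂ (diffs (zclosure (S0 L)) q) := by
    rw [← perp_perp (Submodule.span ℂ (diffs (zclosure (S0 L)) q)), ← tangent_eq_perp]
    exact hw
  obtain ⟨N, c, s, hs⟩ := Submodule.mem_span_set'.mp h1
  have h3 : ∀ j : Fin N, ∃ (m : ℕ) (f : MvPolynomial (Fin (n + 1)) ℂ), f.IsHomogeneous m ∧
    (∀ q' ∈ zclosure (S0 L), eval q'.rep f = 0) ∧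
    (s j : Fin (n + 1) → ℂ) = fun i => eval q.rep (pderiv i f) := fun j => (s j).2
  choose m f hf hfX hfg using h3
  let G : MvPolynomial (Fin (n + 1)) ℂ := bind₁ (fun i => ∑ j, C (c j) * pderiv i (f j)) g
  have hG : ∀ w' : Fin (n + 1) → ℂ, eval w' G =
      eval (fun i => ∑ j, c j * eval w' (pderiv i (f j))) g := by
    intro w'
    simp only [G]
    rw [eval, eval₂Hom_bind₁]
    congr 2
    funext i
    simp
  have h4 : eval q.rep G = 0 := by
    refine zc_eval (L := L) ?_ hq
    intro w' hw'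
    rw [hG]
    have h5 := hg _ hw'.2 (fun i => inv_ne_zero (hw'.1 i))
      (fun i => (∑ j, c j * eval w' (pderiv i (f j))) * w' i ^ 2) ?_
    · rw [← h5]
      congr 2
      funext i
      have := hw'.1 i
      field_simp
    · intro z hz
      have h6 : ∀ j, ∑ i, eval w' (pderiv i (f j)) * (w' i ^ 2 * z i) = 0 := fun j =>
        tangent1 hL (hf j) (fun w hw => vanish_CL (hf j)
          ((mem_zclosure_vanish (hf j)).mp (hfX j)) hw) hw' hz
      calc ∑ i, (∑ j, c j * eval w' (pderiv i (f j))) * w' i ^ 2 * z i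
          = ∑ j, c j * ∑ i, eval w' (pderiv i (f j)) * (w' i ^ 2 * z i) := by
            simp only [Finset.sum_mul, Finset.mul_sum]
            rw [Finset.sum_comm]
            apply Finset.sum_congr rfl
            intro l _
            apply Finset.sum_congr rfl
            intro j _
            ring
        _ = 0 := by simp only [h6, mul_zero, Finset.sum_const_zero]
  rw [hG] at h4
  rw [← h4]
  congr 2
  rw [← hs]
  funext i
  simp [hfg]

end Pool.Agent.W476
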