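import Pool.Agent.W476.Dom

/-!
Each generic product `x_i² y_i` is integral over the others.
-/

set_option autoImplicit false

namespace Pool.Agent.W476

open Finset MvPolynomial

universe u v

theorem isIntegralElem_of_valuation {A : Type*} {K : Type*} [CommRing A] [Field K] (φ : A →+* K)
    (x : K) (h : ∀ V : ValuationSubring K, (∀ a, φ a ∈ V) → x ∈ V) : φ.IsIntegralElem x := by
  have h1 : x ∈ (⨅ V : {V : ValuationSubring K // Set.range φ ⊆ V.toSubring},
      V.1.toSubring) := by
    rw [Subring.mem_iInf]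
    rintro ⟨V, hV⟩
    exact h V (fun a => hV ⟨a, rfl⟩)
  rw [iInf_valuationSubring_superset] at h1
  have h2 : IsIntegral (Subring.closure (Set.range φ)) x := h1
  have h3 : Subring.closure (Set.range φ) = φ.range := by
    have : Set.range φ = (φ.range : Set K) := rfl
    rw [this, Subring.closure_eq]
  rw [h3] at h2
  obtain ⟨p, hp, hpx⟩ := h2
  have hl : p ∈ Polynomial.lifts φ.rangeRestrict := by
    rw [Polynomial.mem_lifts]
    exact Polynomial.map_surjective _ φ.rangeRestrict_surjective p
  obtain ⟨q, hq, _, hqm⟩ := Polynomial.lifts_and_natDegree_eq_and_monic hl hp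
  refine ⟨q, hqm, ?_⟩
  rw [← hq, Polynomial.eval₂_map] at hpx
  exact hpx

variable {k : Type u} [Field k] {E : Type v} [Fintype E]

theorem flat_alt (L : Submodule k (E → k)) (F : E → Prop) [DecidablePred F] (i0 : E)
    (hi0 : ¬ F i0) :
    (∃ z ∈ L, (∀ i, F i → z i = 0) ∧ z i0 ≠ 0) ∨
    (∃ a ∈ perp L, a i0 = 1 ∧ ∀ i, ¬ F i → i ≠ i0 → a i = 0) := by
  classical
  by_cases h : ∃ w ∈ Lcon (fun i => ¬ F i) L, w ⟨i0, hi0⟩ ≠ 0
  · left
    obtain ⟨w, hw, hw0⟩ := h
    rw [mem_Lcon] at hw
    refine ⟨_, hw, fun i hi => extP_of_not _ _ (by simpa using hi), ?_⟩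
    have := extP_val (k := k) (fun i => ¬ F i) w ⟨i0, hi0⟩
    simp only at this
    rw [this]
    exact hw0
  · right
    push Not at h
    have h1 : (Pi.single (⟨i0, hi0⟩ : {i // ¬ F i}) (1 : k)) ∈ perp (Lcon (fun i => ¬ F i) L) := by
      intro z hz
      simp [Pi.single_apply, h z hz]
    rw [perp_Lcon] at h1
    obtain ⟨a, ha, ha2⟩ := h1
    refine ⟨a, ha, ?_, ?_⟩
    · have := congrFun ha2 ⟨i0, hi0⟩
      simpa using this
    · intro i hi hne
      have := congrFun ha2 ⟨i, hi⟩
      rw [resP_apply] at this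
      rw [this, Pi.single_apply, if_neg]
      intro hh
      exact hne (congrArg Subtype.val hh)

theorem val_bound {K : Type*} [Field K] {ρ : k →+* K} {L : Submodule k (E → k)} {x y : E → K}
    (hx : Pt L ρ x) (hy : Pt (perp L) ρ y) (V : ValuationSubring K) (hk : ∀ a, ρ a ∈ V) (i0 : E)
    (hV : ∀ i, i ≠ i0 → x i ^ 2 * y i ∈ V) : x i0 ^ 2 * y i0 ∈ V := by
  classical
  let w := V.valuation
  have hk1 : ∀ a, w (ρ a) ≤ 1 := fun a => (V.valuation_le_one_iff _).mpr (hk a)
  by_cases hx0 : x i0 = 0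
  · rw [hx0]; simp
  have hwx : w (x i0) ≠ 0 := (Valuation.ne_zero_iff w).mpr hx0
  rcases flat_alt L (fun i => w (x i) < w (x i0)) i0 (lt_irrefl _) with h | h
  · obtain ⟨z, hz, hz1, hz0⟩ := h
    have h1 := hy.pair hz
    have hzz : w (ρ (z i0)) = 1 := by
      apply le_antisymm (hk1 _)
      have h2 := hk1 (z i0)⁻¹
      rw [map_inv₀, map_inv₀] at h2
      have h3 : w (ρ (z i0)) ≠ 0 := by
        rw [Valuation.ne_zero_iff]
        exact (map_ne_zero ρ).mpr hz0
      exact (inv_le_one₀ (zero_lt_iff.mpr h3)).mp h2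
    -- bound of `y i0`
    have h4 : ρ (z i0) * y i0 = - ∑ i ∈ Finset.univ.erase i0, ρ (z i) * y i := by
      rw [← Finset.add_sum_erase _ _ (Finset.mem_univ i0)] at h1
      linear_combination h1
    rw [← V.valuation_le_one_iff]
    have h5 : w (x i0 ^ 2 * y i0) = w (∑ i ∈ Finset.univ.erase i0, x i0 ^ 2 * (ρ (z i) * y i)) := by
      rw [← Finset.mul_sum, map_mul, map_mul, ← one_mul (w (y i0)), ← hzz, ← map_mul, h4,
        Valuation.map_neg]
    change w (x i0 ^ 2 * y i0) ≤ 1
    rw [h5]
    apply Valuation.map_sum_le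
    intro i hi
    have hne : i ≠ i0 := (Finset.mem_erase.mp hi).1
    by_cases hzi : z i = 0
    · rw [hzi]; simp
    have hge : w (x i0) ≤ w (x i) := by
      by_contra hlt
      exact hzi (hz1 i (not_le.mp hlt))
    have h6 := (V.valuation_le_one_iff _).mpr (hV i hne)
    calc w (x i0 ^ 2 * (ρ (z i) * y i)) = w (x i0) ^ 2 * (w (ρ (z i)) * w (y i)) := by
          simp only [map_mul, map_pow]
      _ ≤ w (x i) ^ 2 * (1 * w (y i)) := by
          apply mul_le_mul' (pow_le_pow_left' hge 2)
          exact mul_le_mul' (hk1 _) le_rfl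
      _ = w (x i ^ 2 * y i) := by simp only [map_mul, map_pow, one_mul]
      _ ≤ 1 := h6
  · exfalso
    obtain ⟨a, ha, ha0, ha1⟩ := h
    have h1 := hx a ha
    rw [← Finset.add_sum_erase _ _ (Finset.mem_univ i0), ha0, map_one, one_mul] at h1
    have h2 : x i0 = - ∑ i ∈ Finset.univ.erase i0, ρ (a i) * x i := by linear_combination h1
    have h3 : w (x i0) < w (x i0) := by
      conv_lhs => rw [h2]
      rw [Valuation.map_neg]
      apply Valuation.map_sum_lt _ hwx
      intro i hi
      have hne : i ≠ i0 := (Finset.mem_erase.mp hi).1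
      by_cases hF : w (x i) < w (x i0)
      · rw [map_mul]
        calc w (ρ (a i)) * w (x i) ≤ 1 * w (x i) := mul_le_mul' (hk1 _) le_rfl
          _ = w (x i) := one_mul _
          _ < w (x i0) := hF
      · rw [ha1 i hF hne]
        simp only [map_zero, zero_mul]
        exact zero_lt_iff.mpr hwx
    exact lt_irrefl _ h3

/-- integrality of `U_{i0}` over the other products -/
theorem integral_UU (L : Submodule k (E → k)) (i0 : E) :
    (eval₂Hom (C : k →+* GR L (perp L)) (fun i : {i // i ≠ i0} => UU L i.1)).IsIntegralElem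
      (UU L i0) := by
  obtain ⟨K, _, ι, hι⟩ : ∃ (K : Type _) (_ : Field K) (ι : GR L (perp L) →+* K),
      Function.Injective ι :=
    ⟨FractionRing (GR L (perp L)), inferInstance, algebraMap _ _, IsFractionRing.injective _ _⟩
  have h := isIntegralElem_of_valuation
    (ι.comp (eval₂Hom (C : k →+* GR L (perp L)) (fun i : {i // i ≠ i0} => UU L i.1)))
    (ι (UU L i0)) (by
      intro V hV
      have h1 := val_bound ((pt_gX L (perp L)).map ι) ((pt_gY L (perp L)).map ι) V
        (by
          intro a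
          have := hV (C a)
          simpa using this) i0 (by
          intro i hi
          have := hV (X ⟨i, hi⟩)
          simpa [UU] using this)
      simpa [UU] using h1)
  obtain ⟨p, hp, hpx⟩ := h
  refine ⟨p, hp, ?_⟩
  apply hι
  rw [map_zero, Polynomial.hom_eval₂]
  exact hpx

end Pool.Agent.W476
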