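import Mathlib

/-!
Linear algebra in coordinates: coordinate orthogonal complements of subspaces of `E → k`,
points of a subspace over a larger ring, deletion and contraction of a coordinate.
-/

set_option autoImplicit false

namespace Pool.Agent.W476

open Finset

section perp

variable {k : Type*} [Field k] {E : Type*} [Fintype E]

/-- The orthogonal complement for the standard bilinear form. -/
def perp (L : Submodule k (E → k)) : Submodule k (E → k) where
  carrier := {a | ∀ z ∈ L, ∑ i, a i * z i = 0}
  add_mem' := by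
    intro a b ha hb z hz
    simp only [Pi.add_apply, add_mul, Finset.sum_add_distrib, ha z hz, hb z hz, add_zero]
  zero_mem' := by intro z _; simp
  smul_mem' := by
    intro c a ha z hz
    simp only [Pi.smul_apply, smul_eq_mul, mul_assoc, ← Finset.mul_sum, ha z hz, mul_zero]

theorem mem_perp {L : Submodule k (E → k)} {a : E → k} :
    a ∈ perp L ↔ ∀ z ∈ L, ∑ i, a i * z i = 0 := Iff.rfl

theorem finrank_perp (L : Submodule k (E → k)) :
    Module.finrank k L + Module.finrank k (perp L) = Fintype.card E := by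
  classical
  have h : perp L = (L.dualAnnihilator).comap (dotProductEquiv k E : (E → k) →ₗ[k] _) := by
    ext a
    rw [mem_perp, Submodule.mem_comap, Submodule.mem_dualAnnihilator]
    rfl
  have h2 : Module.finrank k (perp L) = Module.finrank k L.dualAnnihilator := by
    rw [h, Submodule.comap_equiv_eq_map_symm]
    exact LinearEquiv.finrank_map_eq _ _
  rw [h2, Subspace.finrank_add_finrank_dualAnnihilator_eq]
  simp

theorem le_perp_perp (L : Submodule k (E → k)) : L ≤ perp (perp L) := by
  intro z hz a ha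
  have := ha z hz
  simpa [mul_comm] using this

theorem perp_perp (L : Submodule k (E → k)) : perp (perp L) = L := by
  symm
  apply Submodule.eq_of_le_of_finrank_eq (le_perp_perp L)
  have h1 := finrank_perp L
  have h2 := finrank_perp (perp L)
  omega

end perp

section pt

variable {k : Type*} [Field k] {E : Type*} [Fintype E]

/-- `x` lies in the extension of scalars of `L` along `ρ`. -/
def Pt (L : Submodule k (E → k)) {Ω : Type*} [CommRing Ω] (ρ : k →+* Ω) (x : E → Ω) : Prop :=
  ∀ a ∈ perp L, ∑ i, ρ (a i) * x i = 0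

theorem Pt.map {L : Submodule k (E → k)} {Ω Ω' : Type*} [CommRing Ω] [CommRing Ω']
    {ρ : k →+* Ω} {x : E → Ω} (h : Pt L ρ x) (f : Ω →+* Ω') :
    Pt L (f.comp ρ) (fun i => f (x i)) := by
  intro a ha
  have := congrArg f (h a ha)
  simpa using this

theorem Pt.of_map {L : Submodule k (E → k)} {Ω Ω' : Type*} [CommRing Ω] [CommRing Ω']
    {ρ : k →+* Ω} {x : E → Ω} (f : Ω →+* Ω') (hf : Function.Injective f)
    (h : Pt L (f.comp ρ) (fun i => f (x i))) : Pt L ρ x := by
  intro a ha
  apply hf
  have := h a ha
  simpa using this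

theorem Pt.add {L : Submodule k (E → k)} {Ω : Type*} [CommRing Ω]
    {ρ : k →+* Ω} {x y : E → Ω} (hx : Pt L ρ x) (hy : Pt L ρ y) :
    Pt L ρ (fun i => x i + y i) := by
  intro a ha
  simp only [mul_add, Finset.sum_add_distrib, hx a ha, hy a ha, add_zero]

theorem Pt.sub {L : Submodule k (E → k)} {Ω : Type*} [CommRing Ω]
    {ρ : k →+* Ω} {x y : E → Ω} (hx : Pt L ρ x) (hy : Pt L ρ y) :
    Pt L ρ (fun i => x i - y i) := by
  intro a ha
  simp only [mul_sub, Finset.sum_sub_distrib, hx a ha, hy a ha, sub_zero]

theorem Pt.smul {L : Submodule k (E → k)} {Ω : Type*} [CommRing Ω]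
    {ρ : k →+* Ω} {x : E → Ω} (hx : Pt L ρ x) (c : Ω) :
    Pt L ρ (fun i => c * x i) := by
  intro a ha
  have : ∀ i, ρ (a i) * (c * x i) = c * (ρ (a i) * x i) := fun i => by ring
  simp only [this, ← Finset.mul_sum, hx a ha, mul_zero]

theorem Pt.zero {L : Submodule k (E → k)} {Ω : Type*} [CommRing Ω]
    {ρ : k →+* Ω} : Pt L ρ (fun _ => (0 : Ω)) := by
  intro a _
  simp

theorem Pt.pair {L : Submodule k (E → k)} {Ω : Type*} [CommRing Ω]
    {ρ : k →+* Ω} {y : E → Ω} (hy : Pt (perp L) ρ y) {z : E → k} (hz : z ∈ L) :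
    ∑ i, ρ (z i) * y i = 0 := hy z (by rw [perp_perp]; exact hz)

theorem pt_of_mem {L : Submodule k (E → k)} {Ω : Type*} [CommRing Ω]
    (ρ : k →+* Ω) {z : E → k} (hz : z ∈ L) : Pt L ρ (fun i => ρ (z i)) := by
  intro a ha
  have := congrArg ρ (ha z hz)
  simpa using this

theorem pt_id {L : Submodule k (E → k)} {x : E → k} : Pt L (RingHom.id k) x ↔ x ∈ L := by
  constructor
  · intro h
    rw [← perp_perp L]
    intro a ha
    have := h a ha
    simpa [mul_comm] using this
  · intro h
    exact pt_of_mem (RingHom.id k) h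

theorem exists_coord (L : Submodule k (E → k)) :
    ∃ (B : E → Fin (Module.finrank k L) → k) (C : Fin (Module.finrank k L) → E → k),
      (∀ j, (fun i => B i j) ∈ L) ∧
      (∀ z ∈ L, ∀ i, z i = ∑ j, B i j * ∑ l, C j l * z l) := by
  classical
  obtain ⟨g, hg⟩ := LinearMap.exists_leftInverse_of_injective L.subtype (by simp)
  let b := Module.finBasis k L
  refine ⟨fun i j => (b j : E → k) i, fun j l => b.repr (g (Pi.single l 1)) j, fun j => (b j).2, ?_⟩
  intro z hz i
  have h1 : ∀ j, ∑ l, b.repr (g (Pi.single l 1)) j * z l = b.repr ⟨z, hz⟩ j := by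
    intro j
    have h2 : g z = ⟨z, hz⟩ := by
      have := congrArg (fun f => f ⟨z, hz⟩) hg
      simpa using this
    rw [← h2]
    have h3 : z = ∑ l, z l • (Pi.single l (1 : k) : E → k) := by
      ext i
      simp [Finset.sum_apply, Pi.single_apply]
    conv_rhs => rw [h3]
    simp [map_sum, Finsupp.finsetSum_apply, mul_comm]
  simp only [h1]
  have h4 := congrArg (fun w : L => (w : E → k) i) (b.sum_repr ⟨z, hz⟩)
  simp only [AddSubmonoidClass.coe_finsetSum, Finset.sum_apply, Submodule.coe_smul,
    Pi.smul_apply, smul_eq_mul] at h4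
  rw [← h4]
  exact Finset.sum_congr rfl fun j _ => mul_comm _ _

/-- matrix of a basis of `L` -/
noncomputable def cB (L : Submodule k (E → k)) : E → Fin (Module.finrank k L) → k :=
  (exists_coord L).choose

/-- coordinates with respect to the basis -/
noncomputable def cC (L : Submodule k (E → k)) : Fin (Module.finrank k L) → E → k :=
  (exists_coord L).choose_spec.choose

theorem cB_mem (L : Submodule k (E → k)) (j) : (fun i => cB L i j) ∈ L :=
  (exists_coord L).choose_spec.choose_spec.1 j

theorem cBC (L : Submodule k (E → k)) {z : E → k} (hz : z ∈ L) (i : E) :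
    z i = ∑ j, cB L i j * ∑ l, cC L j l * z l :=
  (exists_coord L).choose_spec.choose_spec.2 z hz i

theorem Pt.coord {L : Submodule k (E → k)} {Ω : Type*} [CommRing Ω] {ρ : k →+* Ω} {x : E → Ω}
    (hx : Pt L ρ x) (i : E) :
    x i = ∑ j, ρ (cB L i j) * ∑ l, ρ (cC L j l) * x l := by
  classical
  have h : (fun l => (if l = i then 1 else 0) - ∑ j, cB L i j * cC L j l) ∈ perp L := by
    intro z hz
    have h1 := cBC L hz i
    simp only [sub_mul, Finset.sum_sub_distrib, ite_mul, one_mul, zero_mul, Finset.sum_ite_eq',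
      Finset.mem_univ, if_true]
    rw [h1]
    simp only [Finset.mul_sum, Finset.sum_mul]
    rw [Finset.sum_comm]
    simp [mul_assoc]
  have h2 := hx _ h
  simp only [map_sub, map_sum, map_mul, sub_mul, Finset.sum_sub_distrib] at h2
  have h3 : ∑ l, ρ (if l = i then 1 else 0) * x l = x i := by
    simp [apply_ite ρ]
  rw [h3, sub_eq_zero] at h2
  rw [h2]
  simp only [Finset.mul_sum, Finset.sum_mul]
  rw [Finset.sum_comm]
  simp [mul_assoc]

theorem pt_bot {Ω : Type*} [CommRing Ω] {ρ : k →+* Ω} {x : E → Ω}
    {L : Submodule k (E → k)} (hL : Module.finrank k L = 0) (hx : Pt L ρ x) : x = 0 := by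
  ext i
  rw [hx.coord i]
  have : IsEmpty (Fin (Module.finrank k L)) := by rw [hL]; infer_instance
  simp

end pt

section restrict

variable {k : Type*} [Field k] {E : Type*} [Fintype E]

/-- restriction of functions to a subtype -/
def resP (k : Type*) [Field k] {E : Type*} (p : E → Prop) : (E → k) →ₗ[k] ({i // p i} → k) :=
  LinearMap.funLeft k k Subtype.val

omit [Fintype E] in
@[simp] theorem resP_apply (p : E → Prop) (z : E → k) (j : {i // p i}) :
    resP k p z j = z j.1 := rfl

/-- extension by zero -/
def extP (k : Type*) [Field k] {E : Type*} (p : E → Prop) [DecidablePred p] (a : {i // p i} → k) :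
    E → k :=
  fun i => if h : p i then a ⟨i, h⟩ else 0

omit [Fintype E] in
theorem extP_val (p : E → Prop) [DecidablePred p] (a : {i // p i} → k) (j : {i // p i}) :
    extP k p a j.1 = a j := by
  simp [extP, j.2]

omit [Fintype E] in
theorem extP_of_not (p : E → Prop) [DecidablePred p] (a : {i // p i} → k) {i : E} (h : ¬ p i) :
    extP k p a i = 0 := by
  simp [extP, h]

theorem sum_subtype_of_zero {M : Type*} [AddCommMonoid M] (p : E → Prop) [DecidablePred p]
    (f : E → M) (h : ∀ i, ¬ p i → f i = 0) : ∑ i, f i = ∑ j : {i // p i}, f j.1 := by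
  classical
  rw [← Finset.sum_subtype (Finset.univ.filter p) (by simp) f, Finset.sum_filter]
  apply Finset.sum_congr rfl
  intro i _
  split_ifs with hi
  · rfl
  · exact h i hi

/-- restriction of a subspace -/
def Lres (p : E → Prop) (L : Submodule k (E → k)) : Submodule k ({i // p i} → k) :=
  L.map (resP k p)

theorem sum_extP (p : E → Prop) [DecidablePred p] (a : {i // p i} → k) (z : E → k) :
    ∑ i, extP k p a i * z i = ∑ j, a j * z j.1 := by
  rw [sum_subtype_of_zero p]
  · simp [extP_val]
  · intro i hi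
    simp [extP_of_not p a hi]

theorem mem_perp_Lres (p : E → Prop) [DecidablePred p] (L : Submodule k (E → k))
    (a : {i // p i} → k) : a ∈ perp (Lres p L) ↔ extP k p a ∈ perp L := by
  constructor
  · intro h z hz
    rw [sum_extP]
    exact h _ ⟨z, hz, rfl⟩
  · rintro h _ ⟨z, hz, rfl⟩
    have := h z hz
    rw [sum_extP] at this
    exact this

/-- restriction of a point -/
theorem Pt.res {p : E → Prop} [DecidablePred p] {L : Submodule k (E → k)}
    {Ω : Type*} [CommRing Ω] {ρ : k →+* Ω} {x : E → Ω} (hx : Pt L ρ x) :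
    Pt (Lres p L) ρ (fun j => x j.1) := by
  intro a ha
  rw [mem_perp_Lres] at ha
  have := hx _ ha
  rw [sum_subtype_of_zero p] at this
  · simpa [extP_val] using this
  · intro i hi
    simp [extP_of_not p a hi]

/-- a point orthogonal to the restriction -/
theorem pt_perp_Lres {p : E → Prop} [DecidablePred p] {L : Submodule k (E → k)}
    {Ω : Type*} [CommRing Ω] {ρ : k →+* Ω} {y : {i // p i} → Ω}
    (hy : ∀ z ∈ L, ∑ j : {i // p i}, ρ (z j.1) * y j = 0) :
    Pt (perp (Lres p L)) ρ y := by
  intro a ha
  rw [perp_perp] at ha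
  obtain ⟨z, hz, rfl⟩ := ha
  exact hy z hz

end restrict

end Pool.Agent.W476
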