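import Pool.Agent.W476.Recip

/-!
Lower bound for the degree by deletion and contraction.
-/

set_option autoImplicit false

namespace Pool.Agent.W476

open Finset MvPolynomial

universe u v

variable {k : Type u} [Field k] {E : Type v} [Fintype E] [DecidableEq E]

theorem sp_hom {σ : Type*} [DecidableEq σ] (e : σ) {Q : MvPolynomial σ k} {n : ℕ}
    (hQ : Q.IsHomogeneous n) : (sp e Q).IsHomogeneous n := by
  have := hQ.aeval (fun i => if h : i ≠ e then (X ⟨i, h⟩ : MvPolynomial {i // i ≠ e} k) else 0)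
    (n := 1) (by
      intro i
      by_cases h : i ≠ e
      · simp only [h, not_false_eq_true, dif_pos, ne_eq]
        exact isHomogeneous_X _ _
      · simp only [h, not_false_eq_true, dif_neg]
        exact isHomogeneous_zero _ _ _)
  rw [one_mul] at this
  exact this

theorem sp_pderiv {σ : Type*} [DecidableEq σ] (e : σ) (j : {i // i ≠ e}) (Q : MvPolynomial σ k) :
    pderiv j (sp e Q) = sp e (pderiv j.1 Q) := by
  induction Q using MvPolynomial.induction_on with
  | C a => rw [sp_C, pderiv_C, pderiv_C, map_zero]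
  | add p q hp hq => simp only [map_add, hp, hq]
  | mul_X p i hp =>
    rw [map_mul, pderiv_mul, hp, pderiv_mul, map_add, map_mul, map_mul]
    congr 1
    by_cases hi : i = e
    · subst hi
      rw [sp_X_self, map_zero, pderiv_X_of_ne j.2.symm, map_zero]
    · have h1 := sp_X (k := k) e ⟨i, hi⟩
      simp only at h1
      rw [h1]
      by_cases hj : j = ⟨i, hi⟩
      · subst hj
        rw [pderiv_X_self, pderiv_X_self, map_one]
      · rw [pderiv_X_of_ne (Ne.symm hj), pderiv_X_of_ne (fun h => hj (Subtype.ext h.symm)), map_zero]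

theorem UU_ne_zero {L : Submodule k (E → k)} (hL : Good L) (hE : 2 ≤ Fintype.card E) (e : E) :
    UU L e ≠ 0 := by
  unfold UU
  apply mul_ne_zero
  · exact pow_ne_zero 2 (gX_ne_zero (hL.not_loop e))
  · apply gY_ne_zero
    rw [← isColoop_iff]
    exact hL.not_coloop hE e

theorem Gen.sp_ne_zero {L : Submodule k (E → k)} (hL : Good L) (hE : 2 ≤ Fintype.card E)
    {F : MvPolynomial E k} (hF : Gen L F) (e : E) : sp e F ≠ 0 := by
  intro h0
  obtain ⟨q, hq⟩ := dvd_of_sp_eq_zero h0
  have h1 := hF.mem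
  unfold KerP at h1
  rw [hq, eval₂_mul, eval₂_X] at h1
  have h2 : KerP L q := (mul_eq_zero.mp h1).resolve_left (UU_ne_zero hL hE e)
  obtain ⟨r, hr⟩ := hF.dvd q h2
  have hqne : q ≠ 0 := by
    intro h; rw [h, mul_zero] at hq; exact hF.irr.ne_zero hq
  have hrne : r ≠ 0 := by
    intro h; rw [h, mul_zero] at hr; exact hqne hr
  have h3 := totalDegree_mul_of_isDomain hF.irr.ne_zero hrne
  rw [← hr] at h3
  have h4 := totalDegree_mul_of_isDomain (X_ne_zero (R := k) e) hqne
  rw [← hq, totalDegree_X] at h4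
  omega

theorem KerP.eval_sp {L : Submodule k (E → k)} {F : MvPolynomial E k} (hF : KerP L F) (e : E)
    {R : Type*} [CommRing R] {ρ : k →+* R} {x y : E → R} (hx : Pt L ρ x) (hy : Pt (perp L) ρ y)
    (h0 : x e ^ 2 * y e = 0) {U : {i // i ≠ e} → R} (hU : ∀ j, U j = x j.1 ^ 2 * y j.1) :
    (sp e F).eval₂ ρ U = 0 := by
  have h1 := hF.eval hx hy
  rw [sp_eval (e := e) h0] at h1
  rw [← h1]
  congr 1
  funext j
  rw [hU]

theorem kerP_del {L : Submodule k (E → k)} {F : MvPolynomial E k} (hF : KerP L F) (e : E) :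
    KerP (del L e) (sp e F) := by
  obtain ⟨x, hx, hx2⟩ := (pt_gX (del L e) (perp (del L e))).lift
  have hy := (pt_gY (del L e) (perp (del L e))).ext0_perp
  refine hF.eval_sp e hx hy ?_ ?_
  · rw [ext0_of_not _ _ (by simp), mul_zero]
  · intro j
    rw [hx2 j, ext0_val, UU]

theorem con_pt {L : Submodule k (E → k)} (e : E) :
    ∃ x y : E → GR (con L e) (perp (con L e)), Pt L C x ∧ Pt (perp L) C y ∧ x e = 0 ∧
      (∀ j : {i // i ≠ e}, x j.1 = gX (con L e) (perp (con L e)) j) ∧
      (∀ j : {i // i ≠ e}, y j.1 = gY (con L e) (perp (con L e)) j) := by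
  obtain ⟨y, hy, hy2⟩ := (pt_gY (con L e) (perp (con L e))).lift_perp
  refine ⟨_, y, (pt_gX (con L e) (perp (con L e))).ext0, hy, ?_, ?_, hy2⟩
  · rw [ext0_of_not _ _ (by simp)]
  · intro j
    rw [ext0_val]

theorem kerP_con {L : Submodule k (E → k)} {F : MvPolynomial E k} (hF : KerP L F) (e : E) :
    KerP (con L e) (sp e F) := by
  obtain ⟨x, y, hx, hy, hxe, hx2, hy2⟩ := con_pt (L := L) e
  refine hF.eval_sp e hx hy ?_ ?_
  · rw [hxe]; ring
  · intro j
    rw [hx2 j, hy2, UU]

theorem KerP.eval_sp_pderiv [CharZero k] {L : Submodule k (E → k)} (hL : Good L)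
    {F : MvPolynomial E k} (hF : KerP L F) (e : E) (j : {i // i ≠ e})
    {R : Type*} [CommRing R] [IsDomain R] {ρ : k →+* R} {x y : E → R} (hx : Pt L ρ x)
    (hy : Pt (perp L) ρ y)
    (h0 : x e = 0) (hj : x j.1 ≠ 0) {U : {i // i ≠ e} → R} (hU : ∀ j, U j = x j.1 ^ 2 * y j.1) :
    (pderiv j (sp e F)).eval₂ ρ U = 0 := by
  have h1 := gauss_pt hL hF hx hy j.1 e
  rw [h0, zero_mul] at h1
  have h2 := (mul_eq_zero.mp h1).resolve_left hj
  rw [sp_eval (e := e) (by rw [h0]; ring), ← sp_pderiv] at h2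
  rw [← h2]
  congr 1
  funext j
  rw [hU]

theorem kerP_con_pderiv [CharZero k] {L : Submodule k (E → k)} (hL : Good L)
    {F : MvPolynomial E k} (hF : KerP L F)
    (e : E) (hc : Good (con L e)) (j : {i // i ≠ e}) :
    KerP (con L e) (pderiv j (sp e F)) := by
  obtain ⟨x, y, hx, hy, hxe, hx2, hy2⟩ := con_pt (L := L) e
  refine hF.eval_sp_pderiv hL e j hx hy hxe ?_ ?_
  · rw [hx2]
    exact gX_ne_zero (hc.not_loop j)
  · intro j
    rw [hx2 j, hy2, UU]

theorem Gen.not_dvd_pderiv [CharZero k] {L : Submodule k (E → k)} (hL : Good L)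
    {F : MvPolynomial E k} (hF : Gen L F) (i : E) : ¬ F ∣ pderiv i F := by
  rintro ⟨q, hq⟩
  have h2 := hF.pderiv_ne_zero hL i
  have h3 : q ≠ 0 := by
    intro h; rw [h, mul_zero] at hq; exact h2 hq
  have h4 := totalDegree_mul_of_isDomain hF.irr.ne_zero h3
  rw [← hq] at h4
  have h5 := totalDegree_pderiv_lt (i := i) (hF.deg_pos hL i)
  omega

theorem sq_dvd_of_con [CharZero k] {L : Submodule k (E → k)} (hL : Good L)
    {F : MvPolynomial E k} (hF : KerP L F)
    (e : E) (hc : Good (con L e)) (j : {i // i ≠ e}) {F2 : MvPolynomial {i // i ≠ e} k}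
    (hF2 : Gen (con L e) F2) : F2 ^ 2 ∣ sp e F := by
  obtain ⟨Q, hQ⟩ := hF2.dvd _ (kerP_con hF e)
  have h1 := hF2.dvd _ (kerP_con_pderiv hL hF e hc j)
  rw [hQ, pderiv_mul] at h1
  have h2 : F2 ∣ pderiv j F2 * Q := by
    have h3 : F2 ∣ F2 * pderiv j Q := dvd_mul_right _ _
    exact (dvd_add_left h3).mp h1
  rcases hF2.irr.prime.dvd_or_dvd h2 with h | h
  · exact absurd h (hF2.not_dvd_pderiv hc j)
  · rw [hQ, pow_two]
    exact mul_dvd_mul_left F2 h

theorem not_assoc [CharZero k] {L : Submodule k (E → k)} (hL : Good L)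
    (hE : 2 ≤ Fintype.card E) (e : E)
    (hd : Good (del L e)) (hc : Good (con L e)) (j : {i // i ≠ e})
    {F1 F2 : MvPolynomial {i // i ≠ e} k}
    (hF1 : Gen (del L e) F1) (hF2 : Gen (con L e) F2) : ¬ F1 ∣ F2 := by
  intro h
  have hass := hF1.irr.associated_of_dvd hF2.irr h
  have hF2' : Gen (del L e) F2 := by
    refine ⟨?_, ?_, hF2.irr, hF2.hom⟩
    · obtain ⟨w, hw⟩ := hass
      unfold KerP
      rw [← hw, eval₂_mul, hF1.mem, zero_mul]
    · intro Q hQ
      exact hass.symm.dvd.trans (hF1.dvd Q hQ)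
  have h1 := le_of_gen hd hc hF2' hF2 j
  have h2 := Submodule.finrank_mono h1
  have h3 := finrank_del (hL.not_coloop hE e)
  have h4 := finrank_con (hL.not_loop e)
  omega

open Classical in
/-- degree of the generator -/
noncomputable def dg (L : Submodule k (E → k)) : ℕ :=
  if h : Good L ∧ ∃ F, Gen L F then h.2.choose.totalDegree else 0

omit [DecidableEq E] in
theorem Gen.totalDegree_eq {L : Submodule k (E → k)} 
    {F F' : MvPolynomial E k} (hF : Gen L F) (hF' : Gen L F') :
    F.totalDegree = F'.totalDegree := by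
  have h : ∀ {A B : MvPolynomial E k}, Gen L A → Gen L B → A.totalDegree ≤ B.totalDegree := by
    intro A B hA hB
    obtain ⟨q, hq⟩ := hA.dvd B hB.mem
    have hq0 : q ≠ 0 := by
      intro h; rw [h, mul_zero] at hq; exact hB.irr.ne_zero hq
    rw [hq, totalDegree_mul_of_isDomain hA.irr.ne_zero hq0]
    omega
  exact le_antisymm (h hF hF') (h hF' hF)

theorem dg_eq {L : Submodule k (E → k)} (hL : Good L)
    {F : MvPolynomial E k} (hF : Gen L F) : dg L = F.totalDegree := by
  have h : Good L ∧ ∃ F, Gen L F := ⟨hL, F, hF⟩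
  unfold dg
  rw [dif_pos h]
  exact h.2.choose_spec.totalDegree_eq hF

theorem dg_of_not {L : Submodule k (E → k)} (hL : ¬ Good L) : dg L = 0 := by
  unfold dg
  rw [dif_neg (fun h => hL h.1)]

theorem dg_lower [CharZero k] {L : Submodule k (E → k)} (hL : Good L)
    (hE : 2 ≤ Fintype.card E) (e : E) : dg (del L e) + 2 * dg (con L e) ≤ dg L := by
  have hcard : 0 < Fintype.card {i : E // i ≠ e} := by
    simp only [ne_eq, Fintype.card_subtype_compl, Fintype.card_unique]
    omega
  obtain ⟨j⟩ := Fintype.card_pos_iff.mp hcard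
  have hne : Nonempty E := ⟨e⟩
  have hne' : Nonempty {i : E // i ≠ e} := ⟨j⟩
  obtain ⟨F, hF⟩ := exists_gen hL
  rw [dg_eq hL hF]
  have hG0 := hF.sp_ne_zero hL hE e
  have hGd : (sp e F).totalDegree = F.totalDegree := (sp_hom e hF.hom).totalDegree hG0
  rw [← hGd]
  have key : ∀ A : MvPolynomial {i // i ≠ e} k, A ∣ sp e F → A.totalDegree ≤ (sp e F).totalDegree := by
    rintro A ⟨q, hq⟩
    have hA : A ≠ 0 := by
      intro h; rw [h, zero_mul] at hq; exact hG0 hq
    have hq0 : q ≠ 0 := by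
      intro h; rw [h, mul_zero] at hq; exact hG0 hq
    rw [hq, totalDegree_mul_of_isDomain hA hq0]
    omega
  by_cases hd : Good (del L e)
  · obtain ⟨F1, hF1⟩ := exists_gen hd
    have h1 := hF1.dvd _ (kerP_del hF.mem e)
    rw [dg_eq hd hF1]
    by_cases hc : Good (con L e)
    · obtain ⟨F2, hF2⟩ := exists_gen hc
      have h2 := sq_dvd_of_con hL hF.mem e hc j hF2
      rw [dg_eq hc hF2]
      have h3 : F1 * F2 ^ 2 ∣ sp e F := by
        obtain ⟨Q, hQ⟩ := h2
        have h4 : F1 ∣ F2 ^ 2 * Q := by rw [← hQ]; exact h1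
        rcases hF1.irr.prime.dvd_or_dvd h4 with h | h
        · exact absurd (hF1.irr.prime.dvd_of_dvd_pow h) (not_assoc hL hE e hd hc j hF1 hF2)
        · obtain ⟨r, hr⟩ := h
          exact ⟨r, by rw [hQ, hr]; ring⟩
      have h5 := key _ h3
      rw [totalDegree_mul_of_isDomain hF1.irr.ne_zero (pow_ne_zero 2 hF2.irr.ne_zero), pow_two,
        totalDegree_mul_of_isDomain hF2.irr.ne_zero hF2.irr.ne_zero] at h5
      omega
    · rw [dg_of_not hc]
      have := key _ h1
      omega
  · rw [dg_of_not hd]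
    by_cases hc : Good (con L e)
    · obtain ⟨F2, hF2⟩ := exists_gen hc
      have h2 := sq_dvd_of_con hL hF.mem e hc j hF2
      rw [dg_eq hc hF2]
      have h5 := key _ h2
      rw [pow_two, totalDegree_mul_of_isDomain hF2.irr.ne_zero hF2.irr.ne_zero] at h5
      omega
    · rw [dg_of_not hc]
      omega

end Pool.Agent.W476
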