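import Pool.Agent.W476.Upper
import Pool.Agent.W476.Beta

/-!
The degree of the generator is `2 ^ (rank - 1)` times the beta invariant.
-/

set_option autoImplicit false

namespace Pool.Agent.W476

open Finset MvPolynomial

universe u v

variable {k : Type u} [Field k]

theorem Good.finrank_pos {E : Type v} [Fintype E] [DecidableEq E] {L : Submodule k (E → k)}
    (hL : Good L) : 0 < Module.finrank k L := by
  rw [Nat.pos_iff_ne_zero]
  intro h0
  rw [Submodule.finrank_eq_zero] at h0
  exact hL.2 h0

theorem base_case [CharZero k] {E : Type v} [Fintype E] [DecidableEq E]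
    {L : Submodule k (E → k)} (hL : Good L) (hE : Fintype.card E = 1) :
    (dg L : ℤ) = 2 ^ (Module.finrank k L - 1) * beta L := by
  obtain ⟨i0, hi0⟩ := Fintype.card_eq_one_iff.mp hE
  have hne : Nonempty E := ⟨i0⟩
  have h1 := hL.finrank_pos
  have h2 := finrank_perp L
  have h3 : Module.finrank k L = 1 := by omega
  have h4 : Module.finrank k (perp L) = 0 := by omega
  obtain ⟨F, hF⟩ := exists_gen hL
  have h5 : KerP L (X i0) := by
    unfold KerP
    rw [eval₂_X, UU]
    have : gY L (perp L) = 0 := pt_bot h4 (pt_gY L (perp L))
    rw [this]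
    simp
  have h6 : F.totalDegree ≤ 1 := by
    obtain ⟨q, hq⟩ := hF.dvd _ h5
    have hq0 : q ≠ 0 := by
      intro h; rw [h, mul_zero] at hq; exact X_ne_zero _ hq
    have := congrArg totalDegree hq
    rw [totalDegree_X, totalDegree_mul_of_isDomain hF.irr.ne_zero hq0] at this
    omega
  have h7 := hF.deg_pos hL i0
  have h8 : dg L = 1 := by rw [dg_eq hL hF]; omega
  have h9 : (Finset.univ : Finset (Finset E)) = {∅, Finset.univ} := by
    ext S
    simp only [Finset.mem_univ, Finset.mem_insert, Finset.mem_singleton, true_iff]
    by_cases h : i0 ∈ S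
    · right
      ext i
      rw [hi0 i]
      simp [h]
    · left
      ext i
      rw [hi0 i]
      simp [h]
  have h10 : (∅ : Finset E) ≠ Finset.univ := by
    intro h
    have : i0 ∈ (∅ : Finset E) := by rw [h]; exact Finset.mem_univ _
    simp at this
  have h11 : rk L (∅ : Finset E) = 0 := by
    have := rk_le_card L (∅ : Finset E)
    simpa using this
  rw [h8, h3, beta, h9, Finset.sum_pair h10, rk_univ, h3, h11, Finset.card_univ, hE]
  norm_num

/-- degree formula -/
theorem dg_eq_beta [CharZero k] (n : ℕ) : ∀ (E : Type v) [Fintype E] [DecidableEq E],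
    Fintype.card E = n → ∀ (L : Submodule k (E → k)), Good L →
      (dg L : ℤ) = 2 ^ (Module.finrank k L - 1) * beta L := by
  induction n with
  | zero =>
    intro E _ _ hE L hL
    have h1 := hL.finrank_pos
    have h2 := finrank_perp L
    omega
  | succ n ih =>
    intro E _ _ hE L hL
    by_cases hn : n = 0
    · exact base_case hL (by omega)
    · have hE2 : 2 ≤ Fintype.card E := by omega
      have : 0 < Fintype.card E := by omega
      obtain ⟨e⟩ := Fintype.card_pos_iff.mp this
      have hcard : Fintype.card {i : E // i ≠ e} = n := by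
        simp only [ne_eq, Fintype.card_subtype_compl, Fintype.card_unique]
        omega
      have hfd := finrank_del (hL.not_coloop hE2 e)
      have hfc := finrank_con (hL.not_loop e)
      have hd : (dg (del L e) : ℤ) = 2 ^ (Module.finrank k L - 1) * beta (del L e) := by
        by_cases hg : Good (del L e)
        · rw [ih _ hcard _ hg, hfd]
        · rw [dg_of_not hg, beta_eq_zero hg]
          simp
      have hc : (2 * dg (con L e) : ℤ) = 2 ^ (Module.finrank k L - 1) * beta (con L e) := by
        by_cases hg : Good (con L e)
        · rw [ih _ hcard _ hg]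
          have h1 := hg.finrank_pos
          have h2 : Module.finrank k L - 1 = (Module.finrank k (con L e) - 1) + 1 := by omega
          rw [h2, pow_succ]
          ring
        · rw [dg_of_not hg, beta_eq_zero hg]
          simp
      rw [dg_rec hL hE2 e, beta_rec (hL.not_loop e) (hL.not_coloop hE2 e) hE2, mul_add, ← hd, ← hc]
      push_cast
      ring

end Pool.Agent.W476
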