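import Pool.Agent.W476.Lin

/-!
Deletion and contraction for subspaces of `E → k`.
-/

set_option autoImplicit false

namespace Pool.Agent.W476

open Finset

variable {k : Type*} [Field k] {E : Type*} [Fintype E]

/-- functions vanishing outside `p` -/
def vanOff (k : Type*) [Field k] {E : Type*} (p : E → Prop) : Submodule k (E → k) where
  carrier := {z | ∀ i, ¬ p i → z i = 0}
  add_mem' := by
    intro a b ha hb i hi
    simp [ha i hi, hb i hi]
  zero_mem' := by intro i _; simp
  smul_mem' := by
    intro c a ha i hi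
    simp [ha i hi]

omit [Fintype E] in
theorem mem_vanOff {p : E → Prop} {z : E → k} : z ∈ vanOff k p ↔ ∀ i, ¬ p i → z i = 0 := Iff.rfl

/-- contraction to `p`: the vectors of `L` supported on `p` -/
def Lcon (p : E → Prop) (L : Submodule k (E → k)) : Submodule k ({i // p i} → k) :=
  Lres p (L ⊓ vanOff k p)

omit [Fintype E] in
theorem mem_Lcon {p : E → Prop} [DecidablePred p] {L : Submodule k (E → k)}
    {a : {i // p i} → k} : a ∈ Lcon p L ↔ extP k p a ∈ L := by
  constructor
  · rintro ⟨z, ⟨hz, hz2⟩, rfl⟩
    have : extP k p (resP k p z) = z := by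
      ext i
      by_cases h : p i
      · simp [extP, h]
      · rw [extP_of_not p _ h, hz2 i h]
    rw [this]
    exact hz
  · intro h
    refine ⟨extP k p a, ⟨h, fun i hi => extP_of_not p a hi⟩, ?_⟩
    ext j
    simp [extP_val]

theorem perp_Lres (p : E → Prop) [DecidablePred p] (L : Submodule k (E → k)) :
    perp (Lres p L) = Lcon p (perp L) := by
  ext a
  rw [mem_perp_Lres, mem_Lcon]

theorem perp_Lcon (p : E → Prop) [DecidablePred p] (L : Submodule k (E → k)) :
    perp (Lcon p L) = Lres p (perp L) := by
  have := perp_Lres p (perp L)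
  rw [perp_perp] at this
  rw [← this, perp_perp]

variable {Ω : Type*} [CommRing Ω] {ρ : k →+* Ω}

/-- restriction of a point supported on `p` -/
theorem Pt.con {p : E → Prop} [DecidablePred p] {L : Submodule k (E → k)}
    {x : E → Ω} (hx : Pt L ρ x) (h0 : ∀ i, ¬ p i → x i = 0) :
    Pt (Lcon p L) ρ (fun j => x j.1) := by
  intro a ha
  rw [perp_Lcon] at ha
  obtain ⟨b, hb, rfl⟩ := ha
  have := hx b hb
  rw [sum_subtype_of_zero p] at this
  · exact this
  · intro i hi
    simp [h0 i hi]

/-- extension by zero of a point -/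
def ext0 (p : E → Prop) [DecidablePred p] (x : {i // p i} → Ω) : E → Ω :=
  fun i => if h : p i then x ⟨i, h⟩ else 0

omit [Fintype E] in
theorem ext0_val (p : E → Prop) [DecidablePred p] (x : {i // p i} → Ω) (j : {i // p i}) :
    ext0 p x j.1 = x j := by
  simp [ext0, j.2]

omit [Fintype E] in
theorem ext0_of_not (p : E → Prop) [DecidablePred p] (x : {i // p i} → Ω) {i : E} (h : ¬ p i) :
    ext0 p x i = 0 := by
  simp [ext0, h]

theorem Pt.ext0 {p : E → Prop} [DecidablePred p] {L : Submodule k (E → k)}
    {x : {i // p i} → Ω} (hx : Pt (Lcon p L) ρ x) : Pt L ρ (ext0 p x) := by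
  intro a ha
  have := hx (resP k p a) (by rw [perp_Lcon]; exact ⟨a, ha, rfl⟩)
  rw [sum_subtype_of_zero p]
  · simpa [ext0_val] using this
  · intro i hi
    simp [ext0_of_not p x hi]

/-- lifting of a point of the restriction -/
theorem Pt.lift {p : E → Prop} [DecidablePred p] {L : Submodule k (E → k)}
    {x : {i // p i} → Ω} (hx : Pt (Lres p L) ρ x) :
    ∃ x' : E → Ω, Pt L ρ x' ∧ ∀ j : {i // p i}, x' j.1 = x j := by
  have h1 : ∀ j, ∃ z : E → k, z ∈ L ∧ resP k p z = fun i => cB (Lres p L) i j := by
    intro j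
    obtain ⟨z, hz, hz2⟩ := cB_mem (Lres p L) j
    exact ⟨z, hz, hz2⟩
  choose z hz hz2 using h1
  refine ⟨fun i => ∑ j, ρ (z j i) * ∑ l, ρ (cC (Lres p L) j l) * x l, ?_, ?_⟩
  · intro a ha
    have h3 : ∀ j, ∑ i, ρ (a i) * ρ (z j i) = 0 := by
      intro j
      have := congrArg ρ (ha (z j) (hz j))
      simpa using this
    simp only [Finset.mul_sum]
    rw [Finset.sum_comm]
    apply Finset.sum_eq_zero
    intro j _
    rw [Finset.sum_comm]
    apply Finset.sum_eq_zero
    intro l _
    have : ∀ i, ρ (a i) * (ρ (z j i) * (ρ (cC (Lres p L) j l) * x l)) =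
        (ρ (a i) * ρ (z j i)) * (ρ (cC (Lres p L) j l) * x l) := fun i => by ring
    simp only [this, ← Finset.sum_mul, h3 j, zero_mul]
  · intro i
    rw [hx.coord i]
    apply Finset.sum_congr rfl
    intro j _
    have := congrFun (hz2 j) i
    simp only [resP_apply] at this
    rw [this]

section elem

variable [DecidableEq E]

/-- deletion of the coordinate `e` -/
abbrev del (L : Submodule k (E → k)) (e : E) : Submodule k ({i // i ≠ e} → k) :=
  Lres (fun i => i ≠ e) L

/-- contraction of the coordinate `e` -/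
abbrev con (L : Submodule k (E → k)) (e : E) : Submodule k ({i // i ≠ e} → k) :=
  Lcon (fun i => i ≠ e) L

/-- `e` is a coloop: the unit vector lies in `L` -/
def IsColoop (L : Submodule k (E → k)) (e : E) : Prop := Pi.single e (1 : k) ∈ L

/-- `e` is a loop: the coordinate vanishes on `L` -/
def IsLoop (L : Submodule k (E → k)) (e : E) : Prop := ∀ z ∈ L, z e = 0

theorem isLoop_iff {L : Submodule k (E → k)} {e : E} :
    IsLoop L e ↔ IsColoop (perp L) e := by
  constructor
  · intro h z hz
    simp [Pi.single_apply, h z hz]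
  · intro h z hz
    have := h z hz
    simpa [Pi.single_apply] using this

theorem isColoop_iff {L : Submodule k (E → k)} {e : E} :
    IsColoop L e ↔ IsLoop (perp L) e := by
  rw [isLoop_iff, perp_perp]

/-- a point supported on one coordinate forces a coloop -/
theorem coloop_of_pt {K : Type*} [Field K] {ρ : k →+* K} {L : Submodule k (E → k)} {e : E}
    {x : E → K} (hx : Pt L ρ x) (h0 : ∀ i, i ≠ e → x i = 0) (he : x e ≠ 0) : IsColoop L e := by
  rw [isColoop_iff]
  intro a ha
  have := hx a ha
  rw [Finset.sum_eq_single e] at this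
  · rcases mul_eq_zero.mp this with h | h
    · exact (map_eq_zero ρ).mp h
    · exact absurd h he
  · intro i _ hi
    simp [h0 i hi]
  · intro h; exact absurd (Finset.mem_univ e) h

theorem res_injOn_of_not_coloop {L : Submodule k (E → k)} {e : E} (h : ¬ IsColoop L e)
    {z : E → k} (hz : z ∈ L) (h0 : resP k (fun i => i ≠ e) z = 0) : z = 0 := by
  have h1 : ∀ i, i ≠ e → z i = 0 := fun i hi => congrFun h0 ⟨i, hi⟩
  by_contra hne
  apply h
  apply coloop_of_pt (pt_id.mpr hz) h1
  intro h2
  apply hne
  ext i
  by_cases hi : i = e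
  · rw [hi, h2]; rfl
  · rw [h1 i hi]; rfl

omit [Fintype E] [DecidableEq E] in
theorem finrank_map_of_inj {F : Type*} [Fintype F] (L : Submodule k (E → k))
    (f : (E → k) →ₗ[k] (F → k)) (h : ∀ z ∈ L, f z = 0 → z = 0) :
    Module.finrank k (L.map f) = Module.finrank k L := by
  have h1 : L.map f = LinearMap.range (f.domRestrict L) := by
    ext w
    simp [Submodule.mem_map]
  rw [h1]
  apply LinearMap.finrank_range_of_inj
  rw [injective_iff_map_eq_zero]
  intro z hz
  apply Subtype.ext
  exact h z z.2 hz

theorem finrank_del {L : Submodule k (E → k)} {e : E} (h : ¬ IsColoop L e) :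
    Module.finrank k (del L e) = Module.finrank k L := by
  exact finrank_map_of_inj L _ (fun z hz h0 => res_injOn_of_not_coloop h hz h0)

theorem finrank_con {L : Submodule k (E → k)} {e : E} (h : ¬ IsLoop L e) :
    Module.finrank k (con L e) + 1 = Module.finrank k L := by
  have h1 := finrank_perp (con L e)
  have h2 := finrank_perp L
  rw [perp_Lcon] at h1
  have h3 : Module.finrank k (Lres (fun i => i ≠ e) (perp L)) = Module.finrank k (perp L) :=
    finrank_del (by rw [← isLoop_iff]; exact h)
  rw [h3] at h1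
  have h4 : Fintype.card {i // i ≠ e} + 1 = Fintype.card E := by
    have : 0 < Fintype.card E := Fintype.card_pos_iff.mpr ⟨e⟩
    simp only [ne_eq, Fintype.card_subtype_compl, Fintype.card_unique]
    omega
  omega

end elem

end Pool.Agent.W476
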