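import Pool.Agent.W476.Gauss

/-!
Points of `L × L^⊥` with algebraically independent products: consequences of the Gauss map.
-/

set_option autoImplicit false

namespace Pool.Agent.W476

open Finset MvPolynomial

universe u v

variable {k : Type u} [Field k] {E : Type v} [Fintype E] [DecidableEq E]

theorem Gen.gen_dvd {L : Submodule k (E → k)} (hL : Good L) {F : MvPolynomial E k}
    (hF : Gen L F) (i0 : E) {K : Type*} [CommRing K] [IsDomain K] {ρ : k →+* K}
    {p : E → K} (hind : Indep ρ (fun i : {i // i ≠ i0} => p i.1)) (h0 : F.eval₂ ρ p = 0)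
    {Q : MvPolynomial E k} (hQ : Q.eval₂ ρ p = 0) : F ∣ Q := by
  obtain ⟨c, hc, f, hf, hirr, hdeg, hPhi⟩ := hF.poly hL i0
  set φ := eval₂Hom ρ (fun j : {i // i ≠ i0} => p j.1) with hφ
  have hinj : Function.Injective φ := inj_of_indep hind
  have h1 : f.eval₂ φ (p i0) = 0 := by
    have h2 := Phi_eval ρ p i0 F
    rw [h0, hPhi, Polynomial.eval₂_mul, Polynomial.eval₂_C] at h2
    refine (mul_eq_zero.mp h2).resolve_left ?_
    intro h3
    have h4 : (C c : MvPolynomial {i // i ≠ i0} k) = 0 := hinj (by rw [map_zero]; exact h3)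
    exact hc ((map_eq_zero_iff _ (C_injective _ _)).mp h4)
  have h3 : f ∣ Phi k i0 Q := dvd_of_root φ hinj hf hirr h1 _ (by rw [Phi_eval]; exact hQ)
  have h4 : Phi k i0 F ∣ Phi k i0 Q := by
    rw [hPhi]
    have hu : IsUnit (Polynomial.C (C c : MvPolynomial {i // i ≠ i0} k)) :=
      Polynomial.isUnit_C.mpr ((isUnit_iff_ne_zero.mpr hc).map C)
    exact (hu.mul_left_dvd).mpr h3
  have h5 := map_dvd (Phi k i0).symm h4
  rwa [AlgEquiv.symm_apply_apply, AlgEquiv.symm_apply_apply] at h5

theorem Gen.deg_pos {L : Submodule k (E → k)} (hL : Good L) {F : MvPolynomial E k}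
    (hF : Gen L F) (i0 : E) : 0 < F.totalDegree := by
  obtain ⟨c, hc, f, hf, hirr, hdeg, hPhi⟩ := hF.poly hL i0
  rw [← hdeg, Nat.pos_iff_ne_zero]
  intro h0
  rw [hf.natDegree_eq_zero.mp h0] at hirr
  exact hirr.not_isUnit isUnit_one

omit [Fintype E] in
theorem Phi_pderiv (i0 : E) (Q : MvPolynomial E k) :
    Phi k i0 (pderiv i0 Q) = Polynomial.derivative (Phi k i0 Q) := by
  induction Q using MvPolynomial.induction_on with
  | C a => simp [Phi_C]
  | add p q hp hq => simp [hp, hq]
  | mul_X p j hp =>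
    by_cases hj : j = i0
    · subst hj
      simp only [pderiv_mul, map_add, map_mul, hp, pderiv_X_self, map_one, Phi_self,
        Polynomial.derivative_mul, Polynomial.derivative_X]
    · have := Phi_X (k := k) i0 ⟨j, hj⟩
      simp only at this
      simp only [pderiv_mul, map_add, map_mul, hp, pderiv_X_of_ne hj, map_zero, this,
        Polynomial.derivative_mul, Polynomial.derivative_C]

theorem Gen.pderiv_ne_zero [CharZero k] {L : Submodule k (E → k)} (hL : Good L)
    {F : MvPolynomial E k} (hF : Gen L F) (i : E) : pderiv i F ≠ 0 := by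
  intro h0
  obtain ⟨c, hc, f, hf, hirr, hdeg, hPhi⟩ := hF.poly hL i
  have h1 := Phi_pderiv (k := k) i F
  rw [h0, map_zero] at h1
  have h2 := Polynomial.derivative_eq_zero.mp h1.symm
  have h3 : (Phi k i F).natDegree = F.totalDegree := by
    rw [hPhi, ← hdeg]
    rw [Polynomial.natDegree_C_mul]
    intro h4
    exact hc ((map_eq_zero_iff _ (C_injective _ _)).mp h4)
  have h4 := hF.deg_pos hL i
  omega

omit [Fintype E] [DecidableEq E] in
theorem totalDegree_pderiv_lt {Q : MvPolynomial E k} {i : E} (hQ : 0 < Q.totalDegree) :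
    (pderiv i Q).totalDegree < Q.totalDegree := by
  classical
  refine lt_of_le_of_lt ?_ (Nat.sub_lt hQ one_pos)
  unfold totalDegree
  rw [Finset.sup_le_iff]
  intro m hm
  rw [mem_support_iff, coeff_pderiv] at hm
  have h1 : m + Finsupp.single i 1 ∈ Q.support := by
    rw [mem_support_iff]
    intro h0
    apply hm
    rw [h0, zero_mul]
  have h2 := Finset.le_sup (f := fun s : E →₀ ℕ => s.sum fun _ e => e) h1
  rw [Finsupp.sum_add_index' (by simp) (by simp), Finsupp.sum_single_index rfl] at h2
  omega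

theorem Gen.pderiv_eval_ne [CharZero k] {L : Submodule k (E → k)} (hL : Good L)
    {F : MvPolynomial E k}
    (hF : Gen L F) (i0 : E) {K : Type*} [CommRing K] [IsDomain K] {ρ : k →+* K}
    {p : E → K} (hind : Indep ρ (fun i : {i // i ≠ i0} => p i.1)) (h0 : F.eval₂ ρ p = 0)
    (i : E) : (pderiv i F).eval₂ ρ p ≠ 0 := by
  intro h1
  obtain ⟨q, hq⟩ := hF.gen_dvd hL i0 hind h0 h1
  have h2 := hF.pderiv_ne_zero hL i
  have h3 : q ≠ 0 := by
    intro h; rw [h, mul_zero] at hq; exact h2 hq
  have h4 := totalDegree_mul_of_isDomain hF.irr.ne_zero h3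
  rw [← hq] at h4
  have h5 := totalDegree_pderiv_lt (i := i) (hF.deg_pos hL i0)
  omega

/-- the Gauss map at an arbitrary point -/
theorem gauss_pt [CharZero k] {L : Submodule k (E → k)} (hL : Good L) {F : MvPolynomial E k}
    (hF : KerP L F) {Ω : Type*} [CommRing Ω] {ρ : k →+* Ω} {x y : E → Ω} (hx : Pt L ρ x)
    (hy : Pt (perp L) ρ y) (i j : E) :
    x i * eval₂ ρ (fun i => x i ^ 2 * y i) (pderiv i F) =
      x j * eval₂ ρ (fun i => x i ^ 2 * y i) (pderiv j F) := by
  obtain ⟨f, hf, hfx, hfy⟩ := exists_ev hx hy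
  have h := congrArg f (gauss hL hF i j)
  rw [map_mul, map_mul, hom_eval₂, hom_eval₂, hfx, hfx, hf] at h
  have h2 : (fun i => f (UU L i)) = (fun i => x i ^ 2 * y i) := by
    funext i
    simp [UU, hfx, hfy]
  rw [h2] at h
  exact h

open DualNumber in
/-- first order expansion -/
theorem eval₂_dual {σ K : Type*} [Fintype σ] [CommRing K] (ρ : k →+* K) (p q : σ → K)
    (Q : MvPolynomial σ k) :
    eval₂ ((algebraMap K (DualNumber K)).comp ρ)
      (fun i => algebraMap K (DualNumber K) (p i) + algebraMap K (DualNumber K) (q i) * ε) Q =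
    algebraMap K (DualNumber K) (eval₂ ρ p Q) +
      algebraMap K (DualNumber K) (∑ i, eval₂ ρ p (pderiv i Q) * q i) * ε := by
  classical
  have hε : (ε : DualNumber K) * ε = 0 := DualNumber.eps_mul_eps
  induction Q using MvPolynomial.induction_on with
  | C a => simp
  | add P Q hP hQ =>
    simp only [eval₂_add, hP, hQ, map_add, add_mul, Finset.sum_add_distrib]
    ring
  | mul_X P j hP =>
    have h1 : ∑ i, eval₂ ρ p (pderiv i (P * X j)) * q i =
        (∑ i, eval₂ ρ p (pderiv i P) * q i) * p j + eval₂ ρ p P * q j := by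
      simp only [pderiv_mul, eval₂_add, eval₂_mul, eval₂_X, add_mul, Finset.sum_add_distrib]
      congr 1
      · rw [Finset.sum_mul]
        apply Finset.sum_congr rfl
        intro i _
        ring
      · rw [Finset.sum_eq_single j]
        · simp
        · intro i _ hi
          rw [pderiv_X_of_ne (Ne.symm hi)]
          simp
        · intro h; exact absurd (Finset.mem_univ j) h
    rw [h1]
    simp only [eval₂_mul, eval₂_X, hP, map_add, map_mul]
    linear_combination (algebraMap K (DualNumber K) (∑ i, eval₂ ρ p (pderiv i P) * q i) *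
      algebraMap K (DualNumber K) (q j)) * hε

open DualNumber in
theorem dual_inj {K : Type*} [CommRing K] {a b : K}
    (h : algebraMap K (DualNumber K) a + algebraMap K (DualNumber K) b * ε = 0) :
    a = 0 ∧ b = 0 := by
  have h1 := congrArg TrivSqZeroExt.fst h
  have h2 := congrArg TrivSqZeroExt.snd h
  simp [TrivSqZeroExt.algebraMap_eq_inl] at h1 h2
  exact ⟨h1, h2⟩

open DualNumber in
/-- nondegeneracy of a point with independent products -/
theorem nondeg [CharZero k] {L : Submodule k (E → k)} (hL : Good L) {F : MvPolynomial E k}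
    (hF : Gen L F) (i0 : E) {K : Type*} [Field K] {ρ : k →+* K} {x y δ η : E → K}
    (hx : Pt L ρ x) (hy : Pt (perp L) ρ y) (hδ : Pt L ρ δ) (hη : Pt (perp L) ρ η)
    (hx0 : x i0 ≠ 0) (hδ0 : δ i0 = 0)
    (hind : Indep ρ (fun i : {i // i ≠ i0} => x i.1 ^ 2 * y i.1))
    (h : ∀ i, i ≠ i0 → 2 * x i * y i * δ i + x i ^ 2 * η i = 0) :
    (∀ i, δ i = 0) ∧ (∀ i, η i = 0) := by
  set ι := algebraMap K (DualNumber K) with hι
  have hε : (ε : DualNumber K) * ε = 0 := DualNumber.eps_mul_eps
  set p : E → K := fun i => x i ^ 2 * y i with hp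
  set q : E → K := fun i => 2 * x i * y i * δ i + x i ^ 2 * η i with hq
  have hX : Pt L (ι.comp ρ) (fun i => ι (x i) + ι (δ i) * ε) := by
    have := (hx.map ι).add ((hδ.map ι).smul ε)
    intro a ha
    rw [← this a ha]
    apply Finset.sum_congr rfl
    intro i _
    ring
  have hY : Pt (perp L) (ι.comp ρ) (fun i => ι (y i) + ι (η i) * ε) := by
    have := (hy.map ι).add ((hη.map ι).smul ε)
    intro a ha
    rw [← this a ha]
    apply Finset.sum_congr rfl
    intro i _
    ring
  have hprod : (fun i => (ι (x i) + ι (δ i) * ε) ^ 2 * (ι (y i) + ι (η i) * ε)) =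
      (fun i => ι (p i) + ι (q i) * ε) := by
    funext i
    simp only [hp, hq, map_add, map_mul, map_pow, map_ofNat]
    linear_combination (ι (δ i) ^ 2 * ι (y i) + 2 * ι (x i) * ι (δ i) * ι (η i)
      + ι (δ i) ^ 2 * ι (η i) * ε) * hε
  have hFp : F.eval₂ ρ p = 0 := hF.mem.eval hx hy
  have h1 := hF.mem.eval hX hY
  rw [hprod, eval₂_dual] at h1
  have h2 := (dual_inj h1).2
  have hq0 : ∀ i, i ≠ i0 → q i = 0 := fun i hi => h i hi
  rw [Finset.sum_eq_single i0 (fun i _ hi => by rw [hq0 i hi, mul_zero])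
    (fun h => absurd (Finset.mem_univ i0) h)] at h2
  have hpd := fun i => hF.pderiv_eval_ne hL i0 (p := p) hind hFp i
  have hqi0 : q i0 = 0 := (mul_eq_zero.mp h2).resolve_left (hpd i0)
  have hqall : ∀ i, q i = 0 := by
    intro i
    by_cases hi : i = i0
    · rw [hi]; exact hqi0
    · exact hq0 i hi
  have hδall : ∀ i, δ i = 0 := by
    intro i
    have h3 := gauss_pt hL hF.mem hX hY i i0
    rw [hprod, eval₂_dual, eval₂_dual] at h3
    simp only [hqall, mul_zero, Finset.sum_const_zero, map_zero, zero_mul, add_zero, hδ0] at h3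
    have h4 : ι (x i * eval₂ ρ p (pderiv i F) - x i0 * eval₂ ρ p (pderiv i0 F)) +
        ι (δ i * eval₂ ρ p (pderiv i F)) * ε = 0 := by
      simp only [map_sub, map_mul]
      linear_combination h3
    exact (mul_eq_zero.mp (dual_inj h4).2).resolve_right (hpd i)
  refine ⟨hδall, fun i => ?_⟩
  have h5 := hqall i
  simp only [hq, hδall, mul_zero, zero_add] at h5
  have hxi : x i ≠ 0 := by
    by_cases hi : i = i0
    · rw [hi]; exact hx0
    · intro h6
      have := hind.ne_zero ⟨i, hi⟩
      simp [h6] at this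
  exact (mul_eq_zero.mp h5).resolve_left (pow_ne_zero 2 hxi)

end Pool.Agent.W476
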