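import Pool.Agent.W476.Point

/-!
Reconstruction of the point `(x, y)` from the products `x_i² y_i`.
-/

set_option autoImplicit false

namespace Pool.Agent.W476

open Finset MvPolynomial

universe u v

variable {k : Type u} [Field k] {E : Type v} [Fintype E] [DecidableEq E]

theorem Gen.eval_ne [CharZero k] {L : Submodule k (E → k)} (hL : Good L)
    {F : MvPolynomial E k} (hF : Gen L F) (i0 i : E) :
    eval₂ C (UU L) (pderiv i F) ≠ 0 :=
  hF.pderiv_eval_ne hL i0 (dom (k := k) _ E rfl L hL i0) hF.mem i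

theorem kerP_recip [CharZero k] {L : Submodule k (E → k)} (hL : Good L)
    {F : MvPolynomial E k} (hF : Gen L F) {a : E → k} (ha : a ∈ perp L) :
    KerP L (∑ i, C (a i) * ∏ j ∈ Finset.univ.erase i, pderiv j F) := by
  unfold KerP
  rw [eval₂_sum]
  by_cases hE : IsEmpty E
  · simp
  rw [not_isEmpty_iff] at hE
  obtain ⟨i0⟩ := hE
  set g : E → GR L (perp L) := fun i => eval₂ C (UU L) (pderiv i F) with hg
  have hterm : ∀ i, eval₂ C (UU L) (C (a i) * ∏ j ∈ Finset.univ.erase i, pderiv j F) =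
      C (a i) * ∏ j ∈ Finset.univ.erase i, g j := by
    intro i
    rw [eval₂_mul, eval₂_C, eval₂_prod]
  simp only [hterm]
  have hc : gX L (perp L) i0 * g i0 ≠ 0 :=
    mul_ne_zero (gX_ne_zero (hL.not_loop i0)) (hF.eval_ne hL i0 i0)
  apply mul_left_cancel₀ hc
  rw [mul_zero, Finset.mul_sum]
  have h1 := pt_gX L (perp L) a ha
  have h2 : ∀ i, gX L (perp L) i0 * g i0 * (C (a i) * ∏ j ∈ Finset.univ.erase i, g j) =
      (∏ j, g j) * (C (a i) * gX L (perp L) i) := by
    intro i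
    have h3 := gauss hL hF.mem i0 i
    have h4 := Finset.mul_prod_erase Finset.univ g (Finset.mem_univ i)
    rw [← h4]
    simp only [hg] at h3 ⊢
    rw [h3]
    ring
  simp only [h2, ← Finset.mul_sum, h1, mul_zero]

theorem kerP_recip2 [CharZero k] {L : Submodule k (E → k)} (hL : Good L)
    {F : MvPolynomial E k} (hF : Gen L F) {z : E → k} (hz : z ∈ L) :
    KerP L (∑ i, C (z i) * (X i * (pderiv i F) ^ 2)) := by
  unfold KerP
  rw [eval₂_sum]
  by_cases hE : IsEmpty E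
  · simp
  rw [not_isEmpty_iff] at hE
  obtain ⟨i0⟩ := hE
  have h1 := (pt_gY L (perp L)).pair hz
  have h2 : ∀ i, eval₂ C (UU L) (C (z i) * (X i * (pderiv i F) ^ 2)) =
      (gX L (perp L) i0 * eval₂ C (UU L) (pderiv i0 F)) ^ 2 *
        (C (z i) * gY L (perp L) i) := by
    intro i
    have h3 := gauss hL hF.mem i0 i
    rw [h3]
    simp only [eval₂_mul, eval₂_C, eval₂_X, eval₂_pow, UU]
    ring
  simp only [h2, ← Finset.mul_sum, h1, mul_zero]

/-- the reciprocal of the gradient is a point of `L` -/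
theorem recip_pt [CharZero k] {L : Submodule k (E → k)} (hL : Good L)
    {F : MvPolynomial E k} (hF : Gen L F) (i0 : E) {K : Type*} [Field K]
    {ρ : k →+* K} {p : E → K} (hind : Indep ρ (fun i : {i // i ≠ i0} => p i.1))
    (h0 : F.eval₂ ρ p = 0) : Pt L ρ (fun i => ((pderiv i F).eval₂ ρ p)⁻¹) := by
  intro a ha
  obtain ⟨q, hq⟩ := hF.dvd _ (kerP_recip hL hF ha)
  have h1 := congrArg (eval₂ ρ p) hq
  rw [eval₂_mul, h0, zero_mul, eval₂_sum] at h1
  have hpd := fun i => hF.pderiv_eval_ne hL i0 hind h0 i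
  have hprod : (∏ j, (pderiv j F).eval₂ ρ p) ≠ 0 := Finset.prod_ne_zero_iff.mpr
    (fun i _ => hpd i)
  apply mul_left_cancel₀ hprod
  rw [mul_zero, ← h1, Finset.mul_sum]
  apply Finset.sum_congr rfl
  intro i _
  rw [eval₂_mul, eval₂_C, eval₂_prod,
    ← Finset.mul_prod_erase Finset.univ (fun j => (pderiv j F).eval₂ ρ p) (Finset.mem_univ i)]
  have := hpd i
  field_simp

/-- the dual coordinates -/
theorem recip_perp [CharZero k] {L : Submodule k (E → k)} (hL : Good L)
    {F : MvPolynomial E k} (hF : Gen L F) {K : Type*} [CommRing K]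
    {ρ : k →+* K} {p : E → K} 
    (h0 : F.eval₂ ρ p = 0) : Pt (perp L) ρ (fun i => p i * ((pderiv i F).eval₂ ρ p) ^ 2) := by
  intro z hz
  rw [perp_perp] at hz
  obtain ⟨q, hq⟩ := hF.dvd _ (kerP_recip2 hL hF hz)
  have h1 := congrArg (eval₂ ρ p) hq
  rw [eval₂_mul, h0, zero_mul, eval₂_sum] at h1
  rw [← h1]
  apply Finset.sum_congr rfl
  intro i _
  simp only [eval₂_mul, eval₂_C, eval₂_X, eval₂_pow]

theorem pt_of_gen [CharZero k] {L1 L2 : Submodule k (E → k)} (h1 : Good L1) (h2 : Good L2)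
    {F : MvPolynomial E k} (hF1 : Gen L1 F) (hF2 : Gen L2 F) (i0 : E) {K : Type*} [Field K]
    {ρ : k →+* K} {x y : E → K} (hx : Pt L1 ρ x) (hy : Pt (perp L1) ρ y)
    (hind : Indep ρ (fun i : {i // i ≠ i0} => x i.1 ^ 2 * y i.1)) : Pt L2 ρ x := by
  set p : E → K := fun i => x i ^ 2 * y i with hp
  have hFp : F.eval₂ ρ p = 0 := hF1.mem.eval hx hy
  have h3 := recip_pt h2 hF2 i0 (p := p) hind hFp
  have h4 := hF1.pderiv_eval_ne h1 i0 (p := p) hind hFp
  have h6 := h3.smul (x i0 * (pderiv i0 F).eval₂ ρ p)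
  have h7 : (fun i => x i0 * (pderiv i0 F).eval₂ ρ p * ((pderiv i F).eval₂ ρ p)⁻¹) = x := by
    funext i
    have := gauss_pt h1 hF1.mem hx hy i i0
    rw [← this, mul_assoc, mul_inv_cancel₀ (h4 i), mul_one]
  rw [h7] at h6
  exact h6

/-- the generator determines the subspace -/
theorem le_of_gen [CharZero k] {L1 L2 : Submodule k (E → k)} (h1 : Good L1) (h2 : Good L2)
    {F : MvPolynomial E k} (hF1 : Gen L1 F) (hF2 : Gen L2 F) (i0 : E) : L1 ≤ L2 := by
  obtain ⟨K, _, ι, hι⟩ : ∃ (K : Type _) (_ : Field K) (ι : GR L1 (perp L1) →+* K),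
      Function.Injective ι :=
    ⟨FractionRing (GR L1 (perp L1)), inferInstance, algebraMap _ _, IsFractionRing.injective _ _⟩
  have h5 : Pt L2 (ι.comp C) (fun i => ι (gX L1 (perp L1) i)) := by
    refine pt_of_gen h1 h2 hF1 hF2 i0 ((pt_gX L1 (perp L1)).map ι)
      ((pt_gY L1 (perp L1)).map ι) ?_
    intro Q hQ
    apply dom (k := k) _ E rfl L1 h1 i0
    apply hι
    rw [map_zero, hom_eval₂, ← hQ]
    congr 1
    funext i
    simp [UU]
  have h6 : Pt L2 (C : k →+* GR L1 (perp L1)) (gX L1 (perp L1)) := Pt.of_map ι hι h5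
  intro z hz
  obtain ⟨f, hf, hfx, _⟩ := exists_ev (pt_id.mpr hz)
    (Pt.zero (L := perp L1) (ρ := RingHom.id k))
  rw [← pt_id]
  have h7 := h6.map f
  rw [hf] at h7
  simpa [hfx] using h7

end Pool.Agent.W476
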