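import Pool.Agent.W476.Val

/-!
Uniqueness of points with prescribed products and prescribed reduction.
-/

set_option autoImplicit false

namespace Pool.Agent.W476

open Finset MvPolynomial

universe u v

variable {k : Type u} [Field k] {E : Type v} [Fintype E]

section val

variable {Ω : Type*} [Field Ω] {V : ValuationSubring Ω} {ρ : k →+* V}

/-- division by an element of maximal valuation -/
theorem exists_div {I : Type*} [Finite I] (a : I → V) (ha : ∀ i, IsLocalRing.residue V (a i) = 0)
    (hne : ∃ i, a i ≠ 0) : ∃ (M : V) (b : I → V), M ≠ 0 ∧ IsLocalRing.residue V M = 0 ∧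
      (∀ i, a i = M * b i) ∧ ∃ i, IsLocalRing.residue V (b i) ≠ 0 := by
  obtain ⟨i1, hi1⟩ := hne
  have : Nonempty I := ⟨i1⟩
  obtain ⟨m, hm⟩ := Finite.exists_max (fun i => V.valuation (a i : Ω))
  have ham : (a m : Ω) ≠ 0 := by
    intro h
    have h1 := hm i1
    rw [h, map_zero] at h1
    have h2 := le_antisymm h1 zero_le
    rw [Valuation.zero_iff] at h2
    exact hi1 (Subtype.val_injective h2)
  have hV : ∀ i, (a m : Ω)⁻¹ * a i ∈ V := by
    intro i
    rw [← V.valuation_le_one_iff, map_mul, map_inv₀, mul_comm, ← div_eq_mul_inv]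
    exact div_le_one_of_le₀ (hm i) zero_le
  refine ⟨a m, fun i => ⟨_, hV i⟩, ?_, ha m, ?_, m, ?_⟩
  · intro h
    apply ham
    rw [h]; rfl
  · intro i
    apply Subtype.val_injective
    change (a i : Ω) = (a m : Ω) * ((a m : Ω)⁻¹ * a i)
    field_simp
  · have : (⟨(a m : Ω)⁻¹ * a m, hV m⟩ : V) = 1 := by
      apply Subtype.val_injective
      exact inv_mul_cancel₀ ham
    change IsLocalRing.residue V (⟨(a m : Ω)⁻¹ * a m, hV m⟩ : V) ≠ 0
    rw [this, map_one]
    exact one_ne_zero

end val

variable [DecidableEq E]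

/-- points for the deletion -/
theorem Pt.del_perp {L : Submodule k (E → k)} {e : E} {Ω : Type*} [CommRing Ω] {ρ : k →+* Ω}
    {y : E → Ω} (hy : Pt (perp L) ρ y) (h0 : y e = 0) :
    Pt (perp (del L e)) ρ (fun j => y j.1) := by
  rw [perp_Lres]
  exact hy.con (fun i hi => by rw [not_not.mp hi]; exact h0)

theorem Pt.con_pt {L : Submodule k (E → k)} {e : E} {Ω : Type*} [CommRing Ω] {ρ : k →+* Ω}
    {x : E → Ω} (hx : Pt L ρ x) (h0 : x e = 0) :
    Pt (W476.con L e) ρ (fun j => x j.1) :=
  hx.con (fun i hi => by rw [not_not.mp hi]; exact h0)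

theorem Pt.con_perp {L : Submodule k (E → k)} {e : E} {Ω : Type*} [CommRing Ω] {ρ : k →+* Ω}
    {y : E → Ω} (hy : Pt (perp L) ρ y) :
    Pt (perp (W476.con L e)) ρ (fun j => y j.1) := by
  rw [perp_Lcon]
  exact hy.res

section val

variable {Ω : Type*} [Field Ω] {V : ValuationSubring Ω} {ρ : k →+* V}

theorem uniq1 [CharZero k] {L : Submodule k (E → k)} {e i0 : E} (he : e ≠ i0)
    (hcl : ¬ IsColoop L e)
    (hd : Good (del L e)) {F1 : MvPolynomial {i // i ≠ e} k} (hF1 : Gen (del L e) F1)
    {x y x' y' : E → V} (hx : Pt L ρ x) (hy : Pt (perp L) ρ y) (hx' : Pt L ρ x')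
    (hy' : Pt (perp L) ρ y') (hx0 : x i0 = 1) (hx0' : x' i0 = 1)
    (hu : ∀ i, i ≠ i0 → x' i ^ 2 * y' i = x i ^ 2 * y i)
    (hrx : ∀ i, IsLocalRing.residue V (x' i) = IsLocalRing.residue V (x i))
    (hry : ∀ i, IsLocalRing.residue V (y' i) = IsLocalRing.residue V (y i))
    (hxe : IsLocalRing.residue V (x e) ≠ 0) (hye : IsLocalRing.residue V (y e) = 0)
    (hind : Indep ((IsLocalRing.residue V).comp ρ) (fun i : {i // i ≠ i0 ∧ i ≠ e} =>
      IsLocalRing.residue V (x i.1 ^ 2 * y i.1))) :
    x' = x ∧ y' = y := by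
  classical
  by_contra hcon
  set res := IsLocalRing.residue V with hres
  obtain ⟨M, b, hM0, hMr, hab, m, hm⟩ := exists_div (V := V)
    (Sum.elim (fun i => x' i - x i) (fun i => y' i - y i)) (by
      rintro (i | i)
      · simp only [Sum.elim_inl]
        rw [map_sub]
        exact sub_eq_zero.mpr (hrx i)
      · simp only [Sum.elim_inr]
        rw [map_sub]
        exact sub_eq_zero.mpr (hry i)) (by
      by_contra h
      push Not at h
      apply hcon
      constructor
      · funext i
        exact sub_eq_zero.mp (h (Sum.inl i))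
      · funext i
        exact sub_eq_zero.mp (h (Sum.inr i)))
  have hMr' : res M = 0 := hMr
  set δ : E → V := fun i => b (Sum.inl i) with hδ
  set η : E → V := fun i => b (Sum.inr i) with hη
  have hδ1 : ∀ i, x' i = x i + M * δ i := by
    intro i
    have := hab (Sum.inl i)
    simp only [Sum.elim_inl] at this
    rw [← this]; ring
  have hη1 : ∀ i, y' i = y i + M * η i := by
    intro i
    have := hab (Sum.inr i)
    simp only [Sum.elim_inr] at this
    rw [← this]; ring
  have hδP : Pt L ρ δ := by
    apply Pt.of_smul hM0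
    have := hx'.sub hx
    have h2 : (fun i => x' i - x i) = (fun i => M * δ i) := by
      funext i; rw [hδ1]; ring
    rwa [h2] at this
  have hηP : Pt (perp L) ρ η := by
    apply Pt.of_smul hM0
    have := hy'.sub hy
    have h2 : (fun i => y' i - y i) = (fun i => M * η i) := by
      funext i; rw [hη1]; ring
    rwa [h2] at this
  have hδ0 : δ i0 = 0 := by
    have := hδ1 i0
    rw [hx0, hx0'] at this
    have h2 : M * δ i0 = 0 := by linear_combination -this
    exact (mul_eq_zero.mp h2).resolve_left hM0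
  have heq : ∀ i, i ≠ i0 → 2 * x i * y i * δ i + x i ^ 2 * η i +
      M * (δ i ^ 2 * y i + 2 * x i * δ i * η i + M * (δ i ^ 2 * η i)) = 0 := by
    intro i hi
    apply mul_left_cancel₀ hM0
    have h1 := hu i hi
    rw [hδ1, hη1] at h1
    linear_combination h1
  have heqr : ∀ i, i ≠ i0 → 2 * res (x i) * res (y i) * res (δ i) +
      res (x i) ^ 2 * res (η i) = 0 := by
    intro i hi
    have := congrArg res (heq i hi)
    simp only [map_add, map_mul, map_pow, map_zero, map_ofNat, hMr', zero_mul, add_zero] at this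
    exact this
  have hηe : res (η e) = 0 := by
    have := heqr e he
    rw [hye] at this
    have h2 : res (x e) ^ 2 * res (η e) = 0 := by linear_combination this
    exact (mul_eq_zero.mp h2).resolve_left (pow_ne_zero 2 hxe)
  have hδr := hδP.map res
  have hηr := hηP.map res
  have h1 := nondeg hd hF1 ⟨i0, he.symm⟩ (hx.map res).res ((hy.map res).del_perp hye)
    hδr.res (hηr.del_perp hηe) (by rw [hx0, map_one]; exact one_ne_zero)
    (by rw [hδ0, map_zero]) (by
      have := hind.comp (J := {j : {i // i ≠ e} // j ≠ ⟨i0, he.symm⟩})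
        (fun j => ⟨j.1.1, fun h => j.2 (Subtype.ext h), j.1.2⟩) (by
          intro a b hab
          apply Subtype.ext
          apply Subtype.ext
          exact congrArg (fun z => z.1) hab)
      have h2 : (fun i : {j : {i // i ≠ e} // j ≠ ⟨i0, he.symm⟩} =>
          res (x i.1.1) ^ 2 * res (y i.1.1)) =
          ((fun i : {i // i ≠ i0 ∧ i ≠ e} => res (x i.1 ^ 2 * y i.1)) ∘
            (fun j => ⟨j.1.1, fun h => j.2 (Subtype.ext h), j.1.2⟩)) := by
        funext j
        simp
      rw [h2]
      exact this) (by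
      intro i hi
      exact heqr i.1 (fun h => hi (Subtype.ext h)))
  have hδall : ∀ i, i ≠ e → res (δ i) = 0 := fun i hi => h1.1 ⟨i, hi⟩
  have hηall : ∀ i, i ≠ e → res (η i) = 0 := fun i hi => h1.2 ⟨i, hi⟩
  have hδe : res (δ e) = 0 := by
    by_contra h
    exact hcl (coloop_of_pt hδr hδall h)
  apply hm
  rcases m with i | i
  · by_cases hi : i = e
    · rw [hi]; exact hδe
    · exact hδall i hi
  · by_cases hi : i = e
    · rw [hi]; exact hηe
    · exact hηall i hi

theorem uniq2 [CharZero k] {L : Submodule k (E → k)} {e i0 : E} (he : e ≠ i0)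
    (hl : ¬ IsLoop L e)
    (hc : Good (con L e)) {F2 : MvPolynomial {i // i ≠ e} k} (hF2 : Gen (con L e) F2)
    {x y x' y' : E → V} (hx : Pt L ρ x) (hy : Pt (perp L) ρ y) (hx' : Pt L ρ x')
    (hy' : Pt (perp L) ρ y') (hx0 : x i0 = 1) (hx0' : x' i0 = 1)
    (hu : ∀ i, i ≠ i0 → x' i ^ 2 * y' i = x i ^ 2 * y i)
    (hrx : ∀ i, IsLocalRing.residue V (x' i) = IsLocalRing.residue V (x i))
    (hry : ∀ i, IsLocalRing.residue V (y' i) = IsLocalRing.residue V (y i))
    (hxe : IsLocalRing.residue V (x e) = 0) (hye : IsLocalRing.residue V (y e) ≠ 0)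
    (hxe0 : x e ≠ 0)
    {ε : V} (hε : IsLocalRing.residue V ε = 0) (hεe : x' e = x e * (1 + ε))
    (hind : Indep ((IsLocalRing.residue V).comp ρ) (fun i : {i // i ≠ i0 ∧ i ≠ e} =>
      IsLocalRing.residue V (x i.1 ^ 2 * y i.1))) :
    x' = x ∧ y' = y := by
  classical
  by_contra hcon
  set res := IsLocalRing.residue V with hres
  have hchar : (2 : IsLocalRing.ResidueField V) ≠ 0 := by
    intro h
    have h1 : ((res.comp ρ) 2) = 0 := by rw [map_ofNat]; exact h
    rw [map_eq_zero] at h1
    exact two_ne_zero h1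
  obtain ⟨M, b, hM0, hMr, hab, m, hm⟩ := exists_div (V := V)
    (Sum.elim (fun i => if i = e then ε else x' i - x i) (fun i => y' i - y i)) (by
      rintro (i | i)
      · simp only [Sum.elim_inl]
        split_ifs with h
        · exact hε
        · rw [map_sub]
          exact sub_eq_zero.mpr (hrx i)
      · simp only [Sum.elim_inr]
        rw [map_sub]
        exact sub_eq_zero.mpr (hry i)) (by
      by_contra h
      push Not at h
      apply hcon
      constructor
      · funext i
        have h1 := h (Sum.inl i)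
        simp only [Sum.elim_inl] at h1
        by_cases hi : i = e
        · rw [if_pos hi] at h1
          rw [hi, hεe, h1]
          ring
        · rw [if_neg hi] at h1
          exact sub_eq_zero.mp h1
      · funext i
        exact sub_eq_zero.mp (h (Sum.inr i)))
  have hMr' : res M = 0 := hMr
  set δ : E → V := fun i => if i = e then x e * b (Sum.inl e) else b (Sum.inl i) with hδ
  set η : E → V := fun i => b (Sum.inr i) with hη
  have hε1 : ε = M * b (Sum.inl e) := by
    have := hab (Sum.inl e)
    simpa using this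
  have hδ1 : ∀ i, x' i = x i + M * δ i := by
    intro i
    by_cases hi : i = e
    · simp only [hδ, hi, if_true]
      rw [hεe, hε1]
      ring
    · have := hab (Sum.inl i)
      simp only [Sum.elim_inl, if_neg hi] at this
      simp only [hδ, if_neg hi]
      rw [← this]; ring
  have hη1 : ∀ i, y' i = y i + M * η i := by
    intro i
    have := hab (Sum.inr i)
    simp only [Sum.elim_inr] at this
    rw [← this]; ring
  have hδP : Pt L ρ δ := by
    apply Pt.of_smul hM0
    have := hx'.sub hx
    have h2 : (fun i => x' i - x i) = (fun i => M * δ i) := by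
      funext i; rw [hδ1]; ring
    rwa [h2] at this
  have hηP : Pt (perp L) ρ η := by
    apply Pt.of_smul hM0
    have := hy'.sub hy
    have h2 : (fun i => y' i - y i) = (fun i => M * η i) := by
      funext i; rw [hη1]; ring
    rwa [h2] at this
  have hδ0 : δ i0 = 0 := by
    have := hδ1 i0
    rw [hx0, hx0'] at this
    have h2 : M * δ i0 = 0 := by linear_combination -this
    exact (mul_eq_zero.mp h2).resolve_left hM0
  have heq : ∀ i, i ≠ i0 → 2 * x i * y i * δ i + x i ^ 2 * η i +
      M * (δ i ^ 2 * y i + 2 * x i * δ i * η i + M * (δ i ^ 2 * η i)) = 0 := by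
    intro i hi
    apply mul_left_cancel₀ hM0
    have h1 := hu i hi
    rw [hδ1, hη1] at h1
    linear_combination h1
  have heqr : ∀ i, i ≠ i0 → 2 * res (x i) * res (y i) * res (δ i) +
      res (x i) ^ 2 * res (η i) = 0 := by
    intro i hi
    have := congrArg res (heq i hi)
    simp only [map_add, map_mul, map_pow, map_zero, map_ofNat, hMr', zero_mul, add_zero] at this
    exact this
  -- the equation for `e`
  have heqe : 2 * res (y e) * res (b (Sum.inl e)) + res (η e) = 0 := by
    have h1 := hu e he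
    have h2 : y e * (2 * b (Sum.inl e) + M * b (Sum.inl e) ^ 2) +
        (1 + M * b (Sum.inl e)) ^ 2 * η e = 0 := by
      apply mul_left_cancel₀ hM0
      apply mul_left_cancel₀ (pow_ne_zero 2 hxe0)
      rw [hεe, hη1, hε1] at h1
      linear_combination h1
    have h3 := congrArg res h2
    simp only [map_add, map_mul, map_pow, map_zero, map_ofNat, map_one, hMr', zero_mul,
      add_zero] at h3
    linear_combination h3
  have hδe : res (δ e) = 0 := by
    simp only [hδ, if_true, map_mul]
    rw [hxe, zero_mul]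
  have hδr := hδP.map res
  have hηr := hηP.map res
  have h1 := nondeg hc hF2 ⟨i0, he.symm⟩ ((hx.map res).con_pt hxe) (hy.map res).con_perp
    (hδr.con_pt hδe) hηr.con_perp (by rw [hx0, map_one]; exact one_ne_zero)
    (by rw [hδ0, map_zero]) (by
      have := hind.comp (J := {j : {i // i ≠ e} // j ≠ ⟨i0, he.symm⟩})
        (fun j => ⟨j.1.1, fun h => j.2 (Subtype.ext h), j.1.2⟩) (by
          intro a b hab
          apply Subtype.ext
          apply Subtype.ext
          exact congrArg (fun z => z.1) hab)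
      have h2 : (fun i : {j : {i // i ≠ e} // j ≠ ⟨i0, he.symm⟩} =>
          res (x i.1.1) ^ 2 * res (y i.1.1)) =
          ((fun i : {i // i ≠ i0 ∧ i ≠ e} => res (x i.1 ^ 2 * y i.1)) ∘
            (fun j => ⟨j.1.1, fun h => j.2 (Subtype.ext h), j.1.2⟩)) := by
        funext j
        simp
      rw [h2]
      exact this) (by
      intro i hi
      exact heqr i.1 (fun h => hi (Subtype.ext h)))
  have hδall : ∀ i, i ≠ e → res (δ i) = 0 := fun i hi => h1.1 ⟨i, hi⟩
  have hηall : ∀ i, i ≠ e → res (η i) = 0 := fun i hi => h1.2 ⟨i, hi⟩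
  have hηe : res (η e) = 0 := by
    by_contra h
    exact hl (isLoop_iff.mpr (coloop_of_pt hηr hηall h))
  have hbe : res (b (Sum.inl e)) = 0 := by
    rw [hηe, add_zero] at heqe
    exact (mul_eq_zero.mp heqe).resolve_left (mul_ne_zero hchar hye)
  apply hm
  rcases m with i | i
  · by_cases hi : i = e
    · rw [hi]; exact hbe
    · have := hδall i hi
      simp only [hδ, if_neg hi] at this
      exact this
  · by_cases hi : i = e
    · rw [hi]; exact hηe
    · exact hηall i hi

end val

/-- the point is determined by the products -/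
theorem red_det [CharZero k] {L : Submodule k (E → k)} (hL : Good L) {F : MvPolynomial E k}
    (hF : Gen L F) (i0 : E) {K : Type*} [Field K] {ρ : k →+* K} {x y x' y' : E → K}
    (hx : Pt L ρ x) (hy : Pt (perp L) ρ y) (hx' : Pt L ρ x') (hy' : Pt (perp L) ρ y')
    (hx0 : x i0 = 1) (hx0' : x' i0 = 1)
    (h : ∀ i, x' i ^ 2 * y' i = x i ^ 2 * y i)
    (hind : Indep ρ (fun i : {i // i ≠ i0} => x i.1 ^ 2 * y i.1)) : x' = x ∧ y' = y := by
  have hFp := hF.mem.eval hx hy
  have hpd := fun i => hF.pderiv_eval_ne hL i0 (p := fun i => x i ^ 2 * y i) hind hFp i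
  have h1 : ∀ i, x' i = x i := by
    intro i
    have e1 := gauss_pt hL hF.mem hx hy i i0
    have e2 := gauss_pt hL hF.mem hx' hy' i i0
    have e3 : (fun i => x' i ^ 2 * y' i) = (fun i => x i ^ 2 * y i) := funext h
    rw [e3] at e2
    rw [hx0, one_mul] at e1
    rw [hx0', one_mul, ← e1] at e2
    exact mul_right_cancel₀ (hpd i) e2
  refine ⟨funext h1, funext fun i => ?_⟩
  have h2 := h i
  rw [h1 i] at h2
  refine mul_left_cancel₀ (pow_ne_zero 2 ?_) h2
  by_cases hi : i = i0
  · rw [hi, hx0]; exact one_ne_zero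
  · intro h6
    have := hind.ne_zero ⟨i, hi⟩
    simp [h6] at this

/-- no point for a disconnected matroid -/
theorem no_point_of_not_good {L : Submodule k (E → k)} (hL : ¬ Good L)
    (i0 : E) {K : Type*} [Field K] {ρ : k →+* K} {x y : E → K}
    (hx : Pt L ρ x) (hy : Pt (perp L) ρ y) (hx0 : x i0 = 1)
    (hind : Indep ρ (fun i : {i // i ≠ i0} => x i.1 ^ 2 * y i.1)) : False := by
  classical
  by_cases hbot : L = ⊥
  · have := pt_bot (by rw [hbot, finrank_bot]) hx
    rw [this] at hx0
    exact zero_ne_one hx0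
  have hc : ¬ Conn L := fun hc => hL ⟨hc, hbot⟩
  unfold Conn at hc
  push Not at hc
  obtain ⟨S, hS, hS', hr⟩ := hc
  -- choose the side that does not contain `i0`
  obtain ⟨T, hT, hiT, hr⟩ : ∃ T : Finset E, T.Nonempty ∧ i0 ∉ T ∧
      rk L T + rk L Tᶜ ≤ Module.finrank k L := by
    by_cases h : i0 ∈ S
    · refine ⟨Sᶜ, hS', by simpa using h, ?_⟩
      rw [compl_compl, add_comm]; exact hr
    · exact ⟨S, hS, h, hr⟩
  have hne : Nonempty {i // i ∈ T} := hT.to_subtype
  -- lifting vectors of the restriction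
  have hlift : ∀ z ∈ L, ∃ z' ∈ L, (∀ i, i ∈ T → z' i = z i) ∧ ∀ i, i ∉ T → z' i = 0 := by
    have h1 : Lcon (fun i => i ∈ T) L = Lres (fun i => i ∈ T) L := by
      apply Submodule.eq_of_le_of_finrank_eq
      · rintro _ ⟨z, hz, rfl⟩
        exact ⟨z, hz.1, rfl⟩
      · have h2 := rk_add L Tᶜ
        have h3 : Module.finrank k (Lcon (fun i => i ∈ T) L) = Module.finrank k (KL L Tᶜ) := by
          have h4 : Lcon (fun i => i ∈ T) L = (KL L Tᶜ).map (resP k (fun i => i ∈ T)) := by
            have : KL L Tᶜ = L ⊓ vanOff k (fun i => i ∈ T) := by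
              unfold KL
              congr 1
              ext z
              rw [mem_vanOff, mem_vanOff]
              simp
            rw [this]
            rfl
          rw [h4]
          apply finrank_map_of_inj
          intro z hz h0
          rw [mem_KL] at hz
          ext i
          by_cases hi : i ∈ T
          · exact congrFun h0 ⟨i, hi⟩
          · exact hz.2 i (by simpa using hi)
        have h5 : Module.finrank k (Lcon (fun i => i ∈ T) L) ≤ rk L T := by
          unfold rk
          apply Submodule.finrank_mono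
          rintro _ ⟨z, hz, rfl⟩
          exact ⟨z, hz.1, rfl⟩
        change _ = rk L T
        omega
    intro z hz
    have h2 : resP k (fun i => i ∈ T) z ∈ Lcon (fun i => i ∈ T) L := by
      rw [h1]
      exact ⟨z, hz, rfl⟩
    obtain ⟨z', ⟨hz', hz2⟩, hz3⟩ := h2
    exact ⟨z', hz', fun i hi => congrFun hz3 ⟨i, hi⟩, hz2⟩
  refine noPoint_res (fun i => i ∈ T) L (ρ := ρ) (x := x) (y := fun j => y j.1) hx ?_ ?_
  · intro z hz
    obtain ⟨z', hz', h1, h2⟩ := hlift z hz
    have h3 := hy.pair hz'
    rw [sum_subtype_of_zero (fun i => i ∈ T)] at h3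
    · rw [← h3]
      apply Finset.sum_congr rfl
      intro j _
      rw [h1 j.1 j.2]
    · intro i hi
      rw [h2 i hi, map_zero, zero_mul]
  · exact hind.comp (J := {i // i ∈ T}) (fun j => ⟨j.1, fun h => hiT (by rw [← h]; exact j.2)⟩) (by
      intro a b hab
      exact Subtype.ext (congrArg (fun z => z.1) hab))

/-- finitely many values of the last coordinate -/
theorem exists_roots {L : Submodule k (E → k)} (hL : Good L) {F : MvPolynomial E k}
    (hF : Gen L F) (i0 : E) {K : Type*} [Field K] {ρ : k →+* K} (u : {i // i ≠ i0} → K) :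
    ∃ R : Finset K, R.card ≤ F.totalDegree ∧ ∀ x y : E → K, Pt L ρ x → Pt (perp L) ρ y →
      x i0 = 1 → (∀ i : {i // i ≠ i0}, x i.1 ^ 2 * y i.1 = u i) → y i0 ∈ R := by
  classical
  obtain ⟨c, hc, f, hf, hirr, hdeg, hPhi⟩ := hF.poly hL i0
  set φ := eval₂Hom ρ u with hφ
  refine ⟨(f.map φ).roots.toFinset, ?_, ?_⟩
  · refine (Multiset.toFinset_card_le _).trans ((Polynomial.card_roots' _).trans ?_)
    rw [hf.natDegree_map, hdeg]
  · intro x y hx hy hx0 hxy
    have h1 := hF.mem.eval hx hy
    have h2 := Phi_eval ρ (fun i => x i ^ 2 * y i) i0 F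
    have h3 : (fun j : {i // i ≠ i0} => x j.1 ^ 2 * y j.1) = u := funext hxy
    rw [h3, h1, hPhi, Polynomial.eval₂_mul, Polynomial.eval₂_C, hx0, one_pow, one_mul] at h2
    have h4 : (eval₂Hom ρ u) (C c) ≠ 0 := by
      simp only [coe_eval₂Hom, eval₂_C]
      exact (map_ne_zero ρ).mpr hc
    have h5 := (mul_eq_zero.mp h2).resolve_left h4
    rw [Multiset.mem_toFinset, Polynomial.mem_roots (hf.map φ).ne_zero, Polynomial.IsRoot,
      Polynomial.eval_map]
    exact h5

end Pool.Agent.W476
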