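import Pool.Agent.W476.Uniq

/-!
Upper bound for the degree by deletion and contraction.
-/

set_option autoImplicit false

namespace Pool.Agent.W476

open Finset MvPolynomial

universe u v

variable {k : Type u} [Field k] {E : Type v} [Fintype E] [DecidableEq E]

theorem ext_of_pt {L : Submodule k (E → k)} {e : E} (hcl : ¬ IsColoop L e) {K : Type*} [Field K]
    {ρ : k →+* K} {x x' : E → K} (hx : Pt L ρ x) (hx' : Pt L ρ x')
    (h : ∀ i, i ≠ e → x i = x' i) : ∀ i, x i = x' i := by
  intro i
  by_cases hi : i = e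
  · by_contra hne
    apply hcl
    apply coloop_of_pt (hx.sub hx')
    · intro j hj
      exact sub_eq_zero.mpr (h j hj)
    · rw [← hi]
      exact sub_ne_zero.mpr hne
  · exact h i hi

section count

variable {Ω : Type*} [Field Ω] {V : ValuationSubring Ω} {ρ : k →+* V}

omit [Fintype E] [DecidableEq E] in
theorem indep_nested {i0 e : E} (he : e ≠ i0) {K : Type*} [CommRing K] {ρ : k →+* K} {w : E → K}
    (hind : Indep ρ (fun i : {i // i ≠ i0 ∧ i ≠ e} => w i.1)) :
    Indep ρ (fun i : {j : {i // i ≠ e} // j ≠ ⟨i0, he.symm⟩} => w i.1.1) :=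
  hind.comp (J := {j : {i // i ≠ e} // j ≠ ⟨i0, he.symm⟩})
    (fun j => ⟨j.1.1, fun h => j.2 (Subtype.ext h), j.1.2⟩) (by
      intro a b hab
      apply Subtype.ext
      apply Subtype.ext
      exact congrArg (fun z => z.1) hab)

/-- the ratio of two square roots of almost equal quantities -/
theorem exists_ratio {a b c d : V} (ha : a ≠ 0) (hc : IsLocalRing.residue V c ≠ 0)
    (hd : IsLocalRing.residue V d = IsLocalRing.residue V c) (h : b ^ 2 * d = a ^ 2 * c) :
    ∃ r : V, b = a * r ∧ (IsLocalRing.residue V r = 1 ∨ IsLocalRing.residue V r = -1) := by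
  set res := IsLocalRing.residue V with hres
  obtain ⟨w, hw⟩ := isUnit_of_res_ne (a := d) (by rw [hd]; exact hc)
  have ha' : (a : Ω) ≠ 0 := by
    intro h0
    exact ha (Subtype.val_injective h0)
  have h1 : ((b : Ω) * (a : Ω)⁻¹) ^ 2 = ((((w⁻¹ : Vˣ) : V) * c : V) : Ω) := by
    have h2 : ((w⁻¹ : Vˣ) : V) * d = 1 := by rw [← hw, Units.inv_mul]
    have h3 := congrArg Subtype.val h2
    have h4 := congrArg Subtype.val h
    push_cast at h3 h4 ⊢
    have h3' : (((w⁻¹ : Vˣ) : V) : Ω) * (d : Ω) = 1 := h3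
    have h4' : (b : Ω) ^ 2 * (d : Ω) = (a : Ω) ^ 2 * (c : Ω) := h4
    field_simp
    linear_combination (-(b : Ω) ^ 2) * h3' + (((w⁻¹ : Vˣ) : V) : Ω) * h4'
  have h6 : V.valuation ((b : Ω) * (a : Ω)⁻¹) ^ 2 ≤ 1 := by
    rw [← map_pow, h1]
    exact (V.valuation_le_one_iff _).mpr (Subtype.property _)
  have h7 : (b : Ω) * (a : Ω)⁻¹ ∈ V := by
    rw [← V.valuation_le_one_iff]
    exact (pow_le_one_iff (by norm_num)).mp h6
  refine ⟨⟨_, h7⟩, ?_, ?_⟩
  · apply Subtype.val_injective
    change (b : Ω) = (a : Ω) * ((b : Ω) * (a : Ω)⁻¹)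
    field_simp
  · have h8 : (⟨_, h7⟩ : V) ^ 2 * d = c := by
      apply Subtype.val_injective
      have h4 := congrArg Subtype.val h
      push_cast at h4
      change ((b : Ω) * (a : Ω)⁻¹) ^ 2 * (d : Ω) = (c : Ω)
      have h4' : (b : Ω) ^ 2 * (d : Ω) = (a : Ω) ^ 2 * (c : Ω) := h4
      field_simp
      linear_combination h4'
    have h9 := congrArg res h8
    rw [map_mul, map_pow, hd] at h9
    have h10 : res ⟨_, h7⟩ ^ 2 = 1 := by
      apply mul_right_cancel₀ hc
      rw [h9, one_mul]
    exact sq_eq_one_iff_of_ne_zero h10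
where
  sq_eq_one_iff_of_ne_zero {K : Type _} [Field K] {a : K} (h : a ^ 2 = 1) : a = 1 ∨ a = -1 := by
    have : (a - 1) * (a + 1) = 0 := by linear_combination h
    rcases mul_eq_zero.mp this with h | h
    · left; exact sub_eq_zero.mp h
    · right; exact eq_neg_of_add_eq_zero_left h

theorem count [CharZero k] [IsAlgClosed Ω] {L : Submodule k (E → k)} (hL : Good L)
    (hE : 2 ≤ Fintype.card E) {e i0 : E} (he : e ≠ i0) {u : E → V}
    (hue : IsLocalRing.residue V (u e) = 0) (hue0 : u e ≠ 0)
    (hind : Indep ((IsLocalRing.residue V).comp ρ)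
      (fun i : {i // i ≠ i0 ∧ i ≠ e} => IsLocalRing.residue V (u i.1)))
    (S : Finset Ω)
    (hS : ∀ U ∈ S, ∃ x y : E → Ω, Pt L (V.subtype.comp ρ) x ∧ Pt (perp L) (V.subtype.comp ρ) y ∧
      x i0 = 1 ∧ (∀ i, i ≠ i0 → x i ^ 2 * y i = u i) ∧ y i0 = U) :
    S.card ≤ dg (del L e) + 2 * dg (con L e) := by
  classical
  have hl := hL.not_loop e
  have hcl := hL.not_coloop hE e
  have h1 : ∀ U ∈ S, ∃ x y : E → V, Pt L ρ x ∧ Pt (perp L) ρ y ∧ x i0 = 1 ∧
      (∀ i, i ≠ i0 → x i ^ 2 * y i = u i) ∧ (y i0 : Ω) = U := by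
    intro U hU
    obtain ⟨x, y, hx, hy, hx0, hu, hyU⟩ := hS U hU
    have hxV := claimA hcl hx hy hx0 hu hue hind
    have hyV := claimB hl hx hy hx0 hu hue hind
    refine ⟨fun i => ⟨x i, hxV i⟩, fun i => ⟨y i, hyV i⟩, ?_, ?_, ?_, ?_, hyU⟩
    · exact Pt.of_map V.subtype Subtype.val_injective hx
    · exact Pt.of_map V.subtype Subtype.val_injective hy
    · exact Subtype.ext hx0
    · intro i hi
      apply Subtype.val_injective
      exact hu i hi
  choose! x y hx hy hx0 hu hyU using h1
  set res := IsLocalRing.residue V with hres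
  have hinj : ∀ U ∈ S, ∀ U' ∈ S, x U' = x U ∧ y U' = y U → U' = U := by
    intro U hU U' hU' h
    rw [← hyU U hU, ← hyU U' hU', h.2]
  -- facts about reductions
  have hindU : ∀ U ∈ S, Indep (res.comp ρ) (fun i : {i // i ≠ i0 ∧ i ≠ e} =>
      res (x U i.1 ^ 2 * y U i.1)) := by
    intro U hU
    have : (fun i : {i // i ≠ i0 ∧ i ≠ e} => res (x U i.1 ^ 2 * y U i.1)) =
        (fun i : {i // i ≠ i0 ∧ i ≠ e} => res (u i.1)) := by
      funext i
      rw [hu U hU i.1 i.2.1]
    rw [this]
    exact hind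
  have hindU' : ∀ U ∈ S, Indep (res.comp ρ)
      (fun i : {j : {i // i ≠ e} // j ≠ ⟨i0, he.symm⟩} =>
        res (x U i.1.1) ^ 2 * res (y U i.1.1)) := by
    intro U hU
    have h := indep_nested he (w := fun i => res (x U i ^ 2 * y U i)) (hindU U hU)
    have h2 : (fun i : {j : {i // i ≠ e} // j ≠ ⟨i0, he.symm⟩} =>
        res (x U i.1.1) ^ 2 * res (y U i.1.1)) =
        (fun i => res (x U i.1.1 ^ 2 * y U i.1.1)) := by
      funext i
      rw [map_mul, map_pow]
    rw [h2]
    exact h
  have hxr : ∀ U ∈ S, Pt L (res.comp ρ) (fun i => res (x U i)) := fun U hU => (hx U hU).map res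
  have hyr : ∀ U ∈ S, Pt (perp L) (res.comp ρ) (fun i => res (y U i)) :=
    fun U hU => (hy U hU).map res
  have hx0r : ∀ U ∈ S, res (x U i0) = 1 := by
    intro U hU
    rw [hx0 U hU, map_one]
  have hprod : ∀ U ∈ S, res (x U e) ^ 2 * res (y U e) = 0 := by
    intro U hU
    rw [← map_pow, ← map_mul, hu U hU e he]
    exact hue
  have hred : ∀ U ∈ S, ∀ U' ∈ S, res (y U' i0) = res (y U i0) → ∀ i, i ≠ e →
      res (x U' i) ^ 2 * res (y U' i) = res (x U i) ^ 2 * res (y U i) := by
    intro U hU U' hU' h i _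
    by_cases hi : i = i0
    · rw [hi, hx0r U hU, hx0r U' hU', h]
    · rw [← map_pow, ← map_mul, hu U' hU' i hi, ← map_pow, ← map_mul, hu U hU i hi]
  -- first kind
  have b1 : (S.filter (fun U => res (x U e) ≠ 0)).card ≤ dg (del L e) := by
    have hye : ∀ U ∈ S, res (x U e) ≠ 0 → res (y U e) = 0 := by
      intro U hU h
      exact (mul_eq_zero.mp (hprod U hU)).resolve_left (pow_ne_zero 2 h)
    by_cases hd : Good (del L e)
    · have : Nonempty {i // i ≠ e} := ⟨⟨i0, he.symm⟩⟩
      obtain ⟨F1, hF1⟩ := exists_gen hd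
      rw [dg_eq hd hF1]
      obtain ⟨R, hR, hR2⟩ := exists_roots hd hF1 ⟨i0, he.symm⟩ (K := IsLocalRing.ResidueField V)
        (ρ := res.comp ρ) (fun j => res (u j.1.1))
      refine le_trans (Finset.card_le_card_of_injOn (fun U => res (y U i0)) ?_ ?_) hR
      · intro U hU
        rw [Finset.mem_coe, Finset.mem_filter] at hU
        obtain ⟨hU, hxe⟩ := hU
        apply hR2 (fun j => res (x U j.1)) (fun j => res (y U j.1)) (hxr U hU).res
          ((hyr U hU).del_perp (hye U hU hxe)) (hx0r U hU)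
        intro j
        rw [← hu U hU j.1.1 (fun h => j.2 (Subtype.ext h)), map_mul, map_pow]
      · intro U' hU' U hU h
        rw [Finset.mem_coe, Finset.mem_filter] at hU hU'
        obtain ⟨hU, hxe⟩ := hU
        obtain ⟨hU', hxe'⟩ := hU'
        have h2 := hred U hU U' hU' h
        obtain ⟨e1, e2⟩ := red_det hd hF1 ⟨i0, he.symm⟩ (hxr U hU).res
          ((hyr U hU).del_perp (hye U hU hxe)) (hxr U' hU').res
          ((hyr U' hU').del_perp (hye U' hU' hxe')) (hx0r U hU) (hx0r U' hU')
          (fun i => h2 i.1 i.2) (hindU' U hU)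
        have e3 := ext_of_pt hcl (hxr U' hU') (hxr U hU) (fun i hi => congrFun e1 ⟨i, hi⟩)
        have e4 : ∀ i, res (y U' i) = res (y U i) := by
          intro i
          by_cases hi : i = e
          · rw [hi, hye U hU hxe, hye U' hU' hxe']
          · exact congrFun e2 ⟨i, hi⟩
        exact hinj U hU U' hU' (uniq1 he hcl hd hF1 (hx U hU) (hy U hU) (hx U' hU') (hy U' hU')
          (hx0 U hU) (hx0 U' hU') (fun i hi => by rw [hu U hU i hi, hu U' hU' i hi])
          e3 e4 hxe (hye U hU hxe) (hindU U hU))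
    · rw [dg_of_not hd, Nat.le_zero, Finset.card_eq_zero, Finset.filter_eq_empty_iff]
      intro U hU hxe
      exact no_point_of_not_good hd ⟨i0, he.symm⟩ (hxr U hU).res
        ((hyr U hU).del_perp (hye U hU hxe)) (hx0r U hU) (hindU' U hU)
  have b2 : (S.filter (fun U => ¬ res (x U e) ≠ 0)).card ≤ 2 * dg (con L e) := by
    have hye : ∀ U ∈ S, res (x U e) = 0 → res (y U e) ≠ 0 := by
      intro U hU h h2
      refine claimC he hl hcl (hxr U hU) (hyr U hU) (hx0r U hU) h h2 ?_
      have := hindU U hU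
      simpa only [map_mul, map_pow] using this
    have hxe0 : ∀ U ∈ S, x U e ≠ 0 := by
      intro U hU h
      apply hue0
      rw [← hu U hU e he, h]
      ring
    by_cases hc : Good (con L e)
    · have : Nonempty {i // i ≠ e} := ⟨⟨i0, he.symm⟩⟩
      obtain ⟨F2, hF2⟩ := exists_gen hc
      rw [dg_eq hc hF2]
      obtain ⟨R, hR, hR2⟩ := exists_roots hc hF2 ⟨i0, he.symm⟩ (K := IsLocalRing.ResidueField V)
        (ρ := res.comp ρ) (fun j => res (u j.1.1))
      refine le_trans (Finset.card_le_mul_card_image_of_maps_to (f := fun U => res (y U i0))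
        (t := R) ?_ 2 ?_) (Nat.mul_le_mul_left 2 hR)
      · intro U hU
        rw [Finset.mem_filter, not_not] at hU
        obtain ⟨hU, hxe⟩ := hU
        apply hR2 (fun j => res (x U j.1)) (fun j => res (y U j.1))
          ((hxr U hU).con_pt hxe) (hyr U hU).con_perp (hx0r U hU)
        intro j
        rw [← hu U hU j.1.1 (fun h => j.2 (Subtype.ext h)), map_mul, map_pow]
      · intro b _
        -- comparison of two points of the fibre
        have hcomp : ∀ U ∈ S, ∀ U' ∈ S, res (x U e) = 0 → res (x U' e) = 0 →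
            res (y U' i0) = res (y U i0) →
            ∃ r : V, x U' e = x U e * r ∧ (res r = 1 ∨ res r = -1) ∧ (res r = 1 → U' = U) := by
          intro U hU U' hU' hxe hxe' h
          have h2 := hred U hU U' hU' h
          obtain ⟨e1, e2⟩ := red_det hc hF2 ⟨i0, he.symm⟩ ((hxr U hU).con_pt hxe)
            (hyr U hU).con_perp ((hxr U' hU').con_pt hxe') (hyr U' hU').con_perp
            (hx0r U hU) (hx0r U' hU')
            (fun i => h2 i.1 i.2) (hindU' U hU)
          have e3 := ext_of_pt (L := perp L) (e := e) (by rw [← isLoop_iff]; exact hl)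
            (hyr U' hU') (hyr U hU) (fun i hi => congrFun e2 ⟨i, hi⟩)
          have e4 : ∀ i, res (x U' i) = res (x U i) := by
            intro i
            by_cases hi : i = e
            · rw [hi, hxe, hxe']
            · exact congrFun e1 ⟨i, hi⟩
          obtain ⟨r, hr, hr2⟩ := exists_ratio (a := x U e) (b := x U' e) (c := y U e)
            (d := y U' e) (hxe0 U hU) (hye U hU hxe) (e3 e)
            (by rw [hu U hU e he, hu U' hU' e he])
          refine ⟨r, hr, hr2, fun h1 => ?_⟩
          exact hinj U hU U' hU' (uniq2 he hl hc hF2 (hx U hU) (hy U hU) (hx U' hU') (hy U' hU')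
            (hx0 U hU) (hx0 U' hU') (fun i hi => by rw [hu U hU i hi, hu U' hU' i hi])
            e4 e3 hxe (hye U hU hxe) (hxe0 U hU) (ε := r - 1)
            (by rw [map_sub, map_one]; exact sub_eq_zero.mpr h1) (by rw [hr]; ring)
            (hindU U hU))
        by_contra hlt
        rw [not_le, Finset.two_lt_card] at hlt
        obtain ⟨A, hA, B, hB, C', hC, hAB, hAC, hBC⟩ := hlt
        simp only [Finset.mem_filter, not_not] at hA hB hC
        obtain ⟨⟨hA, hAe⟩, hAb⟩ := hA
        obtain ⟨⟨hB, hBe⟩, hBb⟩ := hB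
        obtain ⟨⟨hC, hCe⟩, hCb⟩ := hC
        obtain ⟨r1, hr1, hr1', hr1''⟩ := hcomp A hA B hB hAe hBe (by rw [hAb, hBb])
        obtain ⟨r2, hr2, hr2', hr2''⟩ := hcomp A hA C' hC hAe hCe (by rw [hAb, hCb])
        obtain ⟨r3, hr3, hr3', hr3''⟩ := hcomp B hB C' hC hBe hCe (by rw [hBb, hCb])
        have c1 : res r1 = -1 := hr1'.resolve_left (fun h => hAB (hr1'' h).symm)
        have c2 : res r2 = -1 := hr2'.resolve_left (fun h => hAC (hr2'' h).symm)
        have c3 : r2 = r1 * r3 := by
          apply mul_left_cancel₀ (hxe0 A hA)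
          rw [← hr2, hr3, hr1]; ring
        have c4 : res r3 = 1 := by
          have := congrArg res c3
          rw [map_mul, c1, c2] at this
          linear_combination this
        exact hBC (hr3'' c4).symm
    · rw [dg_of_not hc, mul_zero, Nat.le_zero, Finset.card_eq_zero, Finset.filter_eq_empty_iff]
      intro U hU hxe
      rw [not_not] at hxe
      exact no_point_of_not_good hc ⟨i0, he.symm⟩ ((hxr U hU).con_pt hxe)
        (hyr U hU).con_perp (hx0r U hU) (hindU' U hU)
  rw [← Finset.card_filter_add_card_filter_not (fun U => res (x U e) ≠ 0)]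
  exact add_le_add b1 b2

end count

theorem Indep.of_injective {I : Type*} {R Ω : Type*} [CommRing R] [CommRing Ω] {ρ : k →+* R}
    {w : I → R} (h : Indep ρ w) (f : R →+* Ω) (hf : Function.Injective f) :
    Indep (f.comp ρ) (fun i => f (w i)) := by
  intro Q hQ
  apply h
  apply hf
  rw [map_zero, hom_eval₂]
  exact hQ

omit [Fintype E] in
/-- adjoining a variable to an independent family -/
theorem indep_poly {R : Type*} [CommRing R] {ρ : k →+* R} (e : E) {w : {i : E // i ≠ e} → R}
    (h : Indep ρ w) : Indep (Polynomial.C.comp ρ)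
      (fun i : E => if h : i ≠ e then Polynomial.C (w ⟨i, h⟩) else Polynomial.X) := by
  intro Q hQ
  have h1 := Phi_eval (Polynomial.C.comp ρ)
    (fun i : E => if h : i ≠ e then Polynomial.C (w ⟨i, h⟩) else Polynomial.X) e Q
  rw [hQ] at h1
  have h2 : (eval₂Hom (Polynomial.C.comp ρ) (fun j : {i // i ≠ e} =>
      if h : j.1 ≠ e then Polynomial.C (w ⟨j.1, h⟩) else Polynomial.X)) =
      Polynomial.C.comp (eval₂Hom ρ w) := by
    apply MvPolynomial.ringHom_ext
    · intro a
      simp
    · intro j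
      have hj := j.2
      simp [hj]
  rw [h2] at h1
  simp only [ne_eq, not_true_eq_false, dite_false] at h1
  have h3 : (Phi k e Q).map (eval₂Hom ρ w) = 0 := h1
  have h4 := (Polynomial.map_eq_zero_iff (inj_of_indep h)).mp h3
  exact (map_eq_zero_iff _ (Phi k e).injective).mp h4

theorem indep_X (I : Type*) : Indep (C : k →+* MvPolynomial I k) X := by
  intro Q hQ
  rwa [eval₂_eta] at hQ

theorem X_mul_ne_one {R : Type*} [CommRing R] [Nontrivial R] (b : Polynomial R) :
    Polynomial.X * b ≠ 1 := by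
  intro h
  have h4 := congrArg (fun q : Polynomial R => q.coeff 0) h
  simp at h4

omit [Fintype E] in
/-- a valuation ring in which a given variable specializes to zero -/
theorem exists_setup {i0 e : E} (he : e ≠ i0) :
    ∃ (Ω : Type (max u v)) (_ : Field Ω) (_ : IsAlgClosed Ω) (V : ValuationSubring Ω)
      (ρ : k →+* V) (u : E → V),
      IsLocalRing.residue V (u e) = 0 ∧
      Indep (V.subtype.comp ρ) (fun i : {i // i ≠ i0} => (u i.1 : Ω)) ∧
      Indep ((IsLocalRing.residue V).comp ρ)
        (fun i : {i // i ≠ i0 ∧ i ≠ e} => IsLocalRing.residue V (u i.1)) := by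
  let J := {i : E // i ≠ i0 ∧ i ≠ e}
  let A0 := MvPolynomial J k
  let F0 := FractionRing A0
  let f0 : A0 →+* F0 := algebraMap A0 F0
  have hf0 : Function.Injective f0 := IsFractionRing.injective A0 F0
  let A := Polynomial F0
  let Ω := AlgebraicClosure (FractionRing A)
  let ι : A →+* Ω := (algebraMap (FractionRing A) Ω).comp (algebraMap A (FractionRing A))
  have hι : Function.Injective ι := (algebraMap (FractionRing A) Ω).injective.comp
    (IsFractionRing.injective A (FractionRing A))
  have htop : Ideal.span {ι.rangeRestrict Polynomial.X} ≠ ⊤ := by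
    rw [Ne, Ideal.span_singleton_eq_top, isUnit_iff_exists_inv]
    rintro ⟨b, hb⟩
    obtain ⟨b', rfl⟩ := ι.rangeRestrict_surjective b
    have h1 := congrArg Subtype.val hb
    have h2 : ι (Polynomial.X * b') = ι 1 := by
      rw [map_mul, map_one]
      exact h1
    exact X_mul_ne_one (R := F0) b' (hι h2)
  obtain ⟨V, hV1, hV2⟩ := Ideal.image_subset_nonunits_valuationSubring _ htop
  let ιV : A →+* V := ι.codRestrict V (fun a => hV1 ⟨a, rfl⟩)
  have hιV : V.subtype.comp ιV = ι := by
    ext a <;> rfl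
  let ρ0 : k →+* F0 := f0.comp C
  let u' : E → A := fun i => if h : i ≠ i0 ∧ i ≠ e then Polynomial.C (f0 (X ⟨i, h⟩))
    else Polynomial.X
  refine ⟨Ω, inferInstance, inferInstance, V, ιV.comp (Polynomial.C.comp ρ0),
    fun i => ιV (u' i), ?_, ?_, ?_⟩
  · have h1 : u' e = Polynomial.X := by simp [u']
    change IsLocalRing.residue V (ιV (u' e)) = 0
    rw [h1]
    have h2 : (ι Polynomial.X : Ω) ∈ V.nonunits :=
      hV2 ⟨_, Ideal.subset_span (Set.mem_singleton _), rfl⟩
    apply res_eq_zero_of_lt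
    exact V.mem_nonunits_iff.mp h2
  · have h1 : Indep ρ0 (fun j : {j : {i // i ≠ i0} // j ≠ ⟨e, he⟩} =>
        f0 (X ⟨j.1.1, j.1.2, fun h => j.2 (Subtype.ext h)⟩)) := by
      have := ((indep_X (k := k) J).of_injective f0 hf0).comp
        (J := {j : {i // i ≠ i0} // j ≠ ⟨e, he⟩})
        (fun j => ⟨j.1.1, j.1.2, fun h => j.2 (Subtype.ext h)⟩) (by
          intro a b hab
          apply Subtype.ext
          apply Subtype.ext
          exact congrArg (fun z => z.1) hab)
      exact this
    have h2 := (indep_poly (⟨e, he⟩ : {i // i ≠ i0}) h1).of_injective ι hι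
    have h3 : (fun i : {i // i ≠ i0} => ι (if h : i ≠ ⟨e, he⟩ then
        Polynomial.C (f0 (X ⟨i.1, i.2, fun h' => h (Subtype.ext h')⟩)) else Polynomial.X)) =
        (fun i : {i // i ≠ i0} => ((ιV (u' i.1) : V) : Ω)) := by
      funext i
      have : ((ιV (u' i.1) : V) : Ω) = ι (u' i.1) := rfl
      rw [this]
      congr 1
      simp only [u']
      by_cases hi : i = ⟨e, he⟩
      · rw [dif_neg (by simpa using hi), dif_neg]
        rintro ⟨_, h⟩
        exact h (congrArg Subtype.val hi)
      · rw [dif_pos hi, dif_pos]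
    rw [← h3]
    exact h2
  · have h1 := (indep_X (k := k) J).of_injective
      ((((IsLocalRing.residue V).comp ιV).comp Polynomial.C).comp f0)
      (((((IsLocalRing.residue V).comp ιV).comp Polynomial.C).injective).comp hf0)
    have h3 : (fun i : J => ((((IsLocalRing.residue V).comp ιV).comp Polynomial.C).comp f0) (X i)) =
        (fun i : J => IsLocalRing.residue V (ιV (u' i.1))) := by
      funext i
      simp only [u']
      rw [dif_pos i.2]
      rfl
    rw [← h3]
    exact h1

theorem roots_card {A : Type*} [CommRing A] [IsDomain A] [CharZero A] [IsIntegrallyClosed A]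
    {Ω : Type*} [Field Ω]
    [IsAlgClosed Ω] [DecidableEq Ω] (ψ : A →+* Ω) (hψ : Function.Injective ψ) {f : Polynomial A}
    (hf : f.Monic) (hirr : Irreducible f) : (f.map ψ).roots.toFinset.card = f.natDegree := by
  have hnd : f.natDegree ≠ 0 := by
    intro h0
    rw [hf.natDegree_eq_zero.mp h0] at hirr
    exact hirr.not_isUnit isUnit_one
  have hne : f.map ψ ≠ 0 := (hf.map ψ).ne_zero
  have hnodup : (f.map ψ).roots.Nodup := by
    rw [Multiset.nodup_iff_count_le_one]
    intro a
    by_contra h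
    rw [not_le, Polynomial.count_roots, Polynomial.one_lt_rootMultiplicity_iff_isRoot hne] at h
    obtain ⟨h1, h2⟩ := h
    rw [Polynomial.derivative_map, Polynomial.IsRoot, Polynomial.eval_map] at h2
    rw [Polynomial.IsRoot, Polynomial.eval_map] at h1
    have h3 := dvd_of_root ψ hψ hf hirr h1 _ h2
    have h4 := Polynomial.eq_zero_of_dvd_of_natDegree_lt h3 (Polynomial.natDegree_derivative_lt hnd)
    exact hnd (Polynomial.derivative_eq_zero.mp h4)
  rw [Multiset.toFinset_card_of_nodup hnodup,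
    IsAlgClosed.card_roots_map_eq_natDegree_of_injective _ hψ]

theorem dg_upper [CharZero k] {L : Submodule k (E → k)} (hL : Good L)
    (hE : 2 ≤ Fintype.card E) (e : E) : dg L ≤ dg (del L e) + 2 * dg (con L e) := by
  classical
  obtain ⟨i0, he⟩ : ∃ i0 : E, e ≠ i0 := by
    obtain ⟨a, b, hab⟩ := Fintype.one_lt_card_iff.mp (Nat.lt_iff_add_one_le.mpr hE)
    by_cases h : e = a
    · exact ⟨b, by rw [h]; exact hab⟩
    · exact ⟨a, h⟩
  have hne : Nonempty E := ⟨e⟩
  obtain ⟨F, hF⟩ := exists_gen hL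
  obtain ⟨Ω, _, _, V, ρ, u, hue, hind, hindr⟩ := exists_setup (k := k) he
  obtain ⟨c, hc, f, hf, hirr, hdeg, hPhi⟩ := hF.poly hL i0
  have hψ := inj_of_indep hind
  have hcard := roots_card _ hψ hf hirr
  rw [hdeg] at hcard
  rw [dg_eq hL hF, ← hcard]
  refine count hL hE he (ρ := ρ) (u := u) hue ?_ hindr _ ?_
  · intro h
    apply hind.ne_zero ⟨e, he⟩
    simp only
    rw [h]; rfl
  · intro U hU
    rw [Multiset.mem_toFinset, Polynomial.mem_roots (hf.map _).ne_zero, Polynomial.IsRoot,
      Polynomial.eval_map] at hU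
    let p : E → Ω := fun i => if i = i0 then U else u i
    have hp0 : p i0 = U := by simp [p]
    have hp : ∀ i, i ≠ i0 → p i = u i := by
      intro i hi
      simp [p, hi]
    have hpf : (fun i : {i // i ≠ i0} => p i.1) = (fun i : {i // i ≠ i0} => (u i.1 : Ω)) := by
      funext i
      exact hp i.1 i.2
    have hFp : F.eval₂ (V.subtype.comp ρ) p = 0 := by
      rw [← Phi_eval (V.subtype.comp ρ) p i0 F, hPhi, Polynomial.eval₂_mul, hpf, hp0, hU,
        mul_zero]
    have hindp : Indep (V.subtype.comp ρ) (fun i : {i // i ≠ i0} => p i.1) := by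
      rw [hpf]; exact hind
    have hpd := fun i => hF.pderiv_eval_ne hL i0 hindp hFp i
    have h1 := (recip_pt hL hF i0 hindp hFp).smul ((pderiv i0 F).eval₂ (V.subtype.comp ρ) p)
    have h2 := (recip_perp hL hF (ρ := V.subtype.comp ρ) (p := p) hFp).smul
      (((pderiv i0 F).eval₂ (V.subtype.comp ρ) p)⁻¹ ^ 2)
    refine ⟨_, _, h1, h2, ?_, ?_, ?_⟩
    · exact mul_inv_cancel₀ (hpd i0)
    · intro i hi
      rw [← hp i hi]
      have e1 := hpd i
      have e2 := hpd i0
      field_simp
    · have e2 := hpd i0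
      rw [hp0]
      field_simp

theorem dg_rec [CharZero k] {L : Submodule k (E → k)} (hL : Good L)
    (hE : 2 ≤ Fintype.card E) (e : E) : dg L = dg (del L e) + 2 * dg (con L e) :=
  le_antisymm (dg_upper hL hE e) (dg_lower hL hE e)

end Pool.Agent.W476
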