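import Pool.Agent.W476.Lower

/-!
Behaviour of the points with prescribed products `x_i² y_i` with respect to a valuation ring
in which one of the products tends to zero.
-/

set_option autoImplicit false

namespace Pool.Agent.W476

open Finset MvPolynomial

universe u v

variable {k : Type u} [Field k] {E : Type v} [Fintype E]

/-- points of the intersection with vectors supported on `p` -/
theorem Pt.inf_vanOff {p : E → Prop} [DecidablePred p] {L : Submodule k (E → k)} {Ω : Type*}
    [CommRing Ω] {ρ : k →+* Ω} {x : E → Ω} (hx : Pt L ρ x) (h0 : ∀ i, ¬ p i → x i = 0) :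
    Pt (L ⊓ vanOff k p) ρ x := by
  intro a ha
  have h1 : resP k p a ∈ perp (Lcon p L) := by
    rintro _ ⟨z, hz, rfl⟩
    have := ha z hz
    rw [sum_subtype_of_zero p] at this
    · exact this
    · intro i hi
      rw [hz.2 i hi, mul_zero]
  rw [perp_Lcon] at h1
  obtain ⟨b, hb, hb2⟩ := h1
  have h2 := hx b hb
  rw [sum_subtype_of_zero p] at h2 ⊢
  · rw [← h2]
    apply Finset.sum_congr rfl
    intro j _
    have := congrFun hb2 j
    simp only [resP_apply] at this
    rw [this]
  · intro i hi; rw [h0 i hi, mul_zero]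
  · intro i hi; rw [h0 i hi, mul_zero]

theorem Pt.of_smul {L : Submodule k (E → k)} {Ω : Type*} [CommRing Ω] [IsDomain Ω]
    {ρ : k →+* Ω} {x : E → Ω} {c : Ω} (hc : c ≠ 0) (h : Pt L ρ (fun i => c * x i)) :
    Pt L ρ x := by
  intro a ha
  apply mul_left_cancel₀ hc
  rw [mul_zero, ← h a ha, Finset.mul_sum]
  apply Finset.sum_congr rfl
  intro i _
  ring

section val

variable {Ω : Type*} [Field Ω] {V : ValuationSubring Ω} {ρ : k →+* V}

theorem isUnit_of_res_ne {a : V} (h : IsLocalRing.residue V a ≠ 0) : IsUnit a :=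
  (IsLocalRing.residue_ne_zero_iff_isUnit a).mp h

theorem res_eq_zero_of_lt {a : V} (h : V.valuation (a : Ω) < 1) : IsLocalRing.residue V a = 0 := by
  by_contra h0
  have h1 := isUnit_of_res_ne h0
  rw [ValuationSubring.valuation_eq_one_iff] at h1
  rw [h1] at h
  exact lt_irrefl _ h

theorem claimA [DecidableEq E] {L : Submodule k (E → k)} {e i0 : E} (hcl : ¬ IsColoop L e)
    {x y : E → Ω} (hx : Pt L (V.subtype.comp ρ) x) (hy : Pt (perp L) (V.subtype.comp ρ) y)
    (hx0 : x i0 = 1) {u : E → V} (hu : ∀ i, i ≠ i0 → x i ^ 2 * y i = u i)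
    (hue : IsLocalRing.residue V (u e) = 0)
    (hind : Indep ((IsLocalRing.residue V).comp ρ)
      (fun i : {i // i ≠ i0 ∧ i ≠ e} => IsLocalRing.residue V (u i.1))) :
    ∀ i, x i ∈ V := by
  classical
  by_contra hcon
  push Not at hcon
  obtain ⟨i1, hi1⟩ := hcon
  have : Nonempty E := ⟨e⟩
  obtain ⟨m, hm⟩ := Finite.exists_max (fun i => V.valuation (x i))
  have hm1 : 1 < V.valuation (x m) :=
    lt_of_lt_of_le (not_le.mp (fun h => hi1 ((V.valuation_le_one_iff _).mp h))) (hm i1)
  have hxm : x m ≠ 0 := by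
    intro h
    rw [h, map_zero] at hm1
    exact absurd hm1 (not_lt.mpr zero_le_one)
  have hsV : ∀ i, (x m)⁻¹ * x i ∈ V := by
    intro i
    rw [← V.valuation_le_one_iff, map_mul, map_inv₀, mul_comm, ← div_eq_mul_inv]
    exact div_le_one_of_le₀ (hm i) zero_le
  obtain ⟨xt, hxt⟩ : ∃ xt : E → V, ∀ i, (xt i : Ω) = (x m)⁻¹ * x i := ⟨fun i => ⟨_, hsV i⟩, fun _ => rfl⟩
  have hxtP : Pt L ρ xt := by
    apply Pt.of_map V.subtype Subtype.val_injective
    have := hx.smul (x m)⁻¹
    simpa [hxt] using this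
  obtain ⟨yt, hyt⟩ : ∃ yt : E → V, ∀ i, x m ^ 2 * y i ∈ V → (yt i : Ω) = x m ^ 2 * y i :=
    ⟨fun i => if h : x m ^ 2 * y i ∈ V then ⟨_, h⟩ else 0, fun i hi => by simp [hi]⟩
  set res := IsLocalRing.residue V with hres
  have hpi0 : ∀ i, res (xt i) ≠ 0 → i ≠ i0 := by
    rintro i hi rfl
    apply hi
    apply res_eq_zero_of_lt
    rw [hxt, hx0, mul_one, map_inv₀]
    exact inv_lt_one_of_one_lt₀ hm1
  have hyV : ∀ i, res (xt i) ≠ 0 → x m ^ 2 * y i ∈ V := by
    intro i hi
    obtain ⟨w, hw⟩ := isUnit_of_res_ne hi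
    have h1 : ((w⁻¹ : Vˣ) : V) * xt i = 1 := by rw [← hw, Units.inv_mul]
    have h2 := congrArg (Subtype.val) h1
    have h3 := hu i (hpi0 i hi)
    have h4 : x m ^ 2 * y i = ((((w⁻¹ : Vˣ) : V) ^ 2 * u i : V) : Ω) := by
      have h5 : (((w⁻¹ : Vˣ) : V) : Ω) * ((x m)⁻¹ * x i) = 1 := by
        rw [← hxt]; exact h2
      push_cast
      rw [← h3]
      field_simp at h5 ⊢
      linear_combination (-(x m * y i) - (((w⁻¹ : Vˣ) : V) : Ω) * x i * y i) * h5
    rw [h4]
    exact Subtype.property _
  have hprod : ∀ i, res (xt i) ≠ 0 → xt i ^ 2 * yt i = u i := by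
    intro i hi
    apply Subtype.val_injective
    push_cast
    rw [hxt, hyt i (hyV i hi), ← hu i (hpi0 i hi)]
    field_simp
  have hye : res (xt e) ≠ 0 → res (yt e) = 0 := by
    intro he
    have h1 := congrArg res (hprod e he)
    rw [map_mul, map_pow, hue] at h1
    exact (mul_eq_zero.mp h1).resolve_left (pow_ne_zero 2 he)
  have hxr : Pt L (res.comp ρ) (fun i => res (xt i)) := hxtP.map res
  by_cases hne : Nonempty {i // res (xt i) ≠ 0 ∧ i ≠ e}
  · refine noPoint_res (fun i => res (xt i) ≠ 0 ∧ i ≠ e)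
      (L ⊓ vanOff k (fun i => res (xt i) ≠ 0)) (x := fun i => res (xt i))
      (y := fun j => res (yt j.1)) (ρ := res.comp ρ) ?_ ?_ ?_
    · exact hxr.inf_vanOff (fun i hi => not_not.mp hi)
    · intro z hz
      have h1 := hy.pair hz.1
      have h2 : ∑ i, ρ (z i) * yt i = 0 := by
        apply Subtype.val_injective
        push_cast
        rw [← mul_zero (x m ^ 2), ← h1, Finset.mul_sum]
        apply Finset.sum_congr rfl
        intro i _
        by_cases hi : res (xt i) ≠ 0
        · rw [hyt i (hyV i hi)]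
          simp only [RingHom.comp_apply, ValuationSubring.subtype_apply]
          ring
        · rw [hz.2 i hi]
          simp
      have h3 := congrArg res h2
      rw [map_zero, map_sum, sum_subtype_of_zero (fun i => res (xt i) ≠ 0 ∧ i ≠ e)] at h3
      · convert h3 using 2
        rw [map_mul]
        rfl
      · intro i hi
        rw [map_mul]
        by_cases hi2 : res (xt i) ≠ 0
        · have hie : i = e := by
            by_contra h
            exact hi ⟨hi2, h⟩
          rw [hie, hye (by rw [← hie]; exact hi2), mul_zero]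
        · rw [hz.2 i hi2, map_zero, map_zero, zero_mul]
    · have h1 := hind.comp (J := {i // res (xt i) ≠ 0 ∧ i ≠ e})
        (fun j => ⟨j.1, hpi0 _ j.2.1, j.2.2⟩) (by
          intro a b hab
          exact Subtype.ext (congrArg (fun z => z.1) hab))
      have h2 : (fun j : {i // res (xt i) ≠ 0 ∧ i ≠ e} => res (xt j.1) ^ 2 * res (yt j.1)) =
          ((fun i : {i // i ≠ i0 ∧ i ≠ e} => res (u i.1)) ∘
            (fun j : {i // res (xt i) ≠ 0 ∧ i ≠ e} => ⟨j.1, hpi0 _ j.2.1, j.2.2⟩)) := by
        funext j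
        simp only [Function.comp]
        rw [← hprod j.1 j.2.1, map_mul, map_pow]
      rw [h2]
      exact h1
  · rw [not_nonempty_iff] at hne
    have h1 : ∀ i, i ≠ e → res (xt i) = 0 := by
      intro i hi
      by_contra h
      exact hne.false ⟨i, h, hi⟩
    apply hcl
    apply coloop_of_pt hxr h1
    intro h2
    have h3 : res (xt m) = 0 := by
      by_cases hme : m = e
      · rw [hme]; exact h2
      · exact h1 m hme
    have h4 : xt m = 1 := by
      apply Subtype.val_injective
      rw [hxt, inv_mul_cancel₀ hxm]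
      rfl
    rw [h4, map_one] at h3
    exact one_ne_zero h3

theorem claimB [DecidableEq E] [IsAlgClosed Ω] {L : Submodule k (E → k)} {e i0 : E}
    (hcl : ¬ IsLoop L e)
    {x y : E → Ω} (hx : Pt L (V.subtype.comp ρ) x) (hy : Pt (perp L) (V.subtype.comp ρ) y)
    (hx0 : x i0 = 1) {u : E → V} (hu : ∀ i, i ≠ i0 → x i ^ 2 * y i = u i)
    (hue : IsLocalRing.residue V (u e) = 0)
    (hind : Indep ((IsLocalRing.residue V).comp ρ)
      (fun i : {i // i ≠ i0 ∧ i ≠ e} => IsLocalRing.residue V (u i.1))) :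
    ∀ i, y i ∈ V := by
  classical
  by_contra hcon
  push Not at hcon
  obtain ⟨i1, hi1⟩ := hcon
  have : Nonempty E := ⟨e⟩
  have hy0 : y i0 ∈ V := by
    have := val_bound hx hy V (fun a => Subtype.property _) i0
      (fun i hi => by rw [hu i hi]; exact Subtype.property _)
    rwa [hx0, one_pow, one_mul] at this
  obtain ⟨m, hm⟩ := Finite.exists_max (fun i => V.valuation (y i))
  have hm1 : 1 < V.valuation (y m) :=
    lt_of_lt_of_le (not_le.mp (fun h => hi1 ((V.valuation_le_one_iff _).mp h))) (hm i1)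
  have hym : y m ≠ 0 := by
    intro h
    rw [h, map_zero] at hm1
    exact absurd hm1 (not_lt.mpr zero_le_one)
  obtain ⟨σ, hσ⟩ := IsAlgClosed.exists_pow_nat_eq (y m) (n := 2) (by norm_num)
  have hσ0 : σ ≠ 0 := by
    intro h
    rw [h] at hσ
    apply hym
    rw [← hσ]
    ring
  have hsV : ∀ i, (y m)⁻¹ * y i ∈ V := by
    intro i
    rw [← V.valuation_le_one_iff, map_mul, map_inv₀, mul_comm, ← div_eq_mul_inv]
    exact div_le_one_of_le₀ (hm i) zero_le
  obtain ⟨yt, hyt⟩ : ∃ yt : E → V, ∀ i, (yt i : Ω) = (y m)⁻¹ * y i :=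
    ⟨fun i => ⟨_, hsV i⟩, fun _ => rfl⟩
  have hytP : Pt (perp L) ρ yt := by
    apply Pt.of_map V.subtype Subtype.val_injective
    have := hy.smul (y m)⁻¹
    simpa [hyt] using this
  obtain ⟨xt, hxt⟩ : ∃ xt : E → V, ∀ i, σ * x i ∈ V → (xt i : Ω) = σ * x i :=
    ⟨fun i => if h : σ * x i ∈ V then ⟨_, h⟩ else 0, fun i hi => by simp [hi]⟩
  set res := IsLocalRing.residue V with hres
  have hpi0 : ∀ i, res (yt i) ≠ 0 → i ≠ i0 := by
    rintro i hi rfl
    apply hi
    apply res_eq_zero_of_lt
    rw [hyt, map_mul, map_inv₀, mul_comm, ← div_eq_mul_inv]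
    rw [div_lt_one₀ (lt_trans zero_lt_one hm1)]
    exact lt_of_le_of_lt ((V.valuation_le_one_iff _).mpr hy0) hm1
  have hxV : ∀ i, res (yt i) ≠ 0 → σ * x i ∈ V := by
    intro i hi
    obtain ⟨w, hw⟩ := isUnit_of_res_ne hi
    have h1 : ((w⁻¹ : Vˣ) : V) * yt i = 1 := by rw [← hw, Units.inv_mul]
    have h2 := congrArg (Subtype.val) h1
    have h3 := hu i (hpi0 i hi)
    have h4 : (σ * x i) ^ 2 = ((((w⁻¹ : Vˣ) : V) * u i : V) : Ω) := by
      have h5 : (((w⁻¹ : Vˣ) : V) : Ω) * ((y m)⁻¹ * y i) = 1 := by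
        rw [← hyt]; exact h2
      push_cast
      rw [← h3, mul_pow, hσ]
      field_simp at h5 ⊢
      linear_combination (-(x i ^ 2)) * h5
    have h6 : V.valuation (σ * x i) ^ 2 ≤ 1 := by
      rw [← map_pow, h4]
      exact (V.valuation_le_one_iff _).mpr (Subtype.property _)
    rw [← V.valuation_le_one_iff]
    exact (pow_le_one_iff (by norm_num)).mp h6
  have hprod : ∀ i, res (yt i) ≠ 0 → xt i ^ 2 * yt i = u i := by
    intro i hi
    apply Subtype.val_injective
    push_cast
    rw [hxt i (hxV i hi), hyt, ← hu i (hpi0 i hi), mul_pow, hσ]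
    field_simp
  have hxe : res (yt e) ≠ 0 → res (xt e) = 0 := by
    intro he
    have h1 := congrArg res (hprod e he)
    rw [map_mul, map_pow, hue] at h1
    exact pow_eq_zero_iff (two_ne_zero) |>.mp ((mul_eq_zero.mp h1).resolve_right he)
  have hyr : Pt (perp L) (res.comp ρ) (fun i => res (yt i)) := hytP.map res
  by_cases hne : Nonempty {i // res (yt i) ≠ 0 ∧ i ≠ e}
  · refine noPoint_res' (fun i => res (yt i) ≠ 0 ∧ i ≠ e)
      (perp L ⊓ vanOff k (fun i => res (yt i) ≠ 0)) (y := fun i => res (yt i))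
      (x := fun j => res (xt j.1)) (ρ := res.comp ρ) ?_ ?_ ?_
    · exact hyr.inf_vanOff (fun i hi => not_not.mp hi)
    · intro z hz
      have h1 := hx z hz.1
      have h2 : ∑ i, ρ (z i) * xt i = 0 := by
        apply Subtype.val_injective
        push_cast
        rw [← mul_zero σ, ← h1, Finset.mul_sum]
        apply Finset.sum_congr rfl
        intro i _
        by_cases hi : res (yt i) ≠ 0
        · rw [hxt i (hxV i hi)]
          simp only [RingHom.comp_apply, ValuationSubring.subtype_apply]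
          ring
        · rw [hz.2 i hi]
          simp
      have h3 := congrArg res h2
      rw [map_zero, map_sum, sum_subtype_of_zero (fun i => res (yt i) ≠ 0 ∧ i ≠ e)] at h3
      · convert h3 using 2
        rw [map_mul]
        rfl
      · intro i hi
        rw [map_mul]
        by_cases hi2 : res (yt i) ≠ 0
        · have hie : i = e := by
            by_contra h
            exact hi ⟨hi2, h⟩
          rw [hie, hxe (by rw [← hie]; exact hi2), mul_zero]
        · rw [hz.2 i hi2, map_zero, map_zero, zero_mul]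
    · have h1 := hind.comp (J := {i // res (yt i) ≠ 0 ∧ i ≠ e})
        (fun j => ⟨j.1, hpi0 _ j.2.1, j.2.2⟩) (by
          intro a b hab
          exact Subtype.ext (congrArg (fun z => z.1) hab))
      have h2 : (fun j : {i // res (yt i) ≠ 0 ∧ i ≠ e} => res (xt j.1) ^ 2 * res (yt j.1)) =
          ((fun i : {i // i ≠ i0 ∧ i ≠ e} => res (u i.1)) ∘
            (fun j : {i // res (yt i) ≠ 0 ∧ i ≠ e} => ⟨j.1, hpi0 _ j.2.1, j.2.2⟩)) := by
        funext j
        simp only [Function.comp]
        rw [← hprod j.1 j.2.1, map_mul, map_pow]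
      rw [h2]
      exact h1
  · rw [not_nonempty_iff] at hne
    have h1 : ∀ i, i ≠ e → res (yt i) = 0 := by
      intro i hi
      by_contra h
      exact hne.false ⟨i, h, hi⟩
    apply hcl
    rw [isLoop_iff]
    apply coloop_of_pt hyr h1
    intro h2
    have h3 : res (yt m) = 0 := by
      by_cases hme : m = e
      · rw [hme]; exact h2
      · exact h1 m hme
    have h4 : yt m = 1 := by
      apply Subtype.val_injective
      rw [hyt, inv_mul_cancel₀ hym]
      rfl
    rw [h4, map_one] at h3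
    exact one_ne_zero h3

end val

theorem finrank_vanOff [DecidableEq E] {L : Submodule k (E → k)} {e : E} (h : ¬ IsLoop L e) :
    Module.finrank k ((L ⊓ vanOff k (fun i => i ≠ e) : Submodule k (E → k))) + 1 =
      Module.finrank k L := by
  have h1 : Module.finrank k (con L e) =
      Module.finrank k ((L ⊓ vanOff k (fun i => i ≠ e) : Submodule k (E → k))) := by
    apply finrank_map_of_inj
    intro z hz h0
    ext i
    by_cases hi : i = e
    · rw [hi]
      exact hz.2 e (by simp)
    · exact congrFun h0 ⟨i, hi⟩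
  rw [← h1]
  exact finrank_con h

theorem claimC [DecidableEq E] {K : Type*} [Field K] {ρ : k →+* K} {L : Submodule k (E → k)}
    {e i0 : E} (he : e ≠ i0) (hl : ¬ IsLoop L e) (hcl : ¬ IsColoop L e)
    {x y : E → K} (hx : Pt L ρ x) (hy : Pt (perp L) ρ y) (hx0 : x i0 = 1)
    (hxe : x e = 0) (hye : y e = 0)
    (hind : Indep ρ (fun i : {i // i ≠ i0 ∧ i ≠ e} => x i.1 ^ 2 * y i.1)) : False := by
  have h1 := finrank_vanOff hl
  have h2 := finrank_vanOff (L := perp L) (e := e) (by rwa [isColoop_iff] at hcl)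
  have h3 := finrank_perp L
  refine lemT (L1 := L ⊓ vanOff k (fun i => i ≠ e)) (L2 := perp L ⊓ vanOff k (fun i => i ≠ e))
    (fun i : {i // i ≠ i0 ∧ i ≠ e} => i.1)
    (hx.inf_vanOff (fun i hi => by rw [not_not.mp hi]; exact hxe))
    (hy.inf_vanOff (fun i hi => by rw [not_not.mp hi]; exact hye)) ?_ ?_ hind
  · intro h
    rw [h] at hx0
    exact zero_ne_one hx0
  · have h4 : Fintype.card {i // i ≠ i0 ∧ i ≠ e} = Fintype.card E - 2 := by
      rw [Fintype.card_subtype]
      have : (Finset.univ.filter (fun i => i ≠ i0 ∧ i ≠ e)) = (Finset.univ.erase i0).erase e := by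
        ext i
        simp [and_comm]
      rw [this, Finset.card_erase_of_mem (by simp [he]), Finset.card_erase_of_mem (by simp),
        Finset.card_univ]
      omega
    omega

end Pool.Agent.W476
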